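import Mathlib
import Pool.Agent.Y140.AW.Stm
import Pool.Agent.N70.EP.Stm

/-!
Statements (NOT results) of the pieces of the project PP (helper70, problem MP_7f581e_nt):
alternating fibre powers with perfect kernels in odd characteristic.
-/

set_option autoImplicit false

namespace Pool.Agent.N70.PP

open Polynomial Pool.Agent.H391R2 Pool.Agent.H391R2.T4 Pool.Agent.Y793 Pool.Agent.Y140.AW
open Pool.Agent.N70.EP (SgnIndex)

/-- ARIP: arithmetic assembly for subgroups of `Wr P n × Gal(L/K)`, infinite fields of any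
characteristic. -/
def St_ariP : Prop :=
  ∀ (K L K₀ N : Type) [Field K] [Infinite K] [Field L] [Algebra K L]
    [FiniteDimensional K L] [IsGalois K L] [Field K₀] [Algebra K K₀] [Algebra L K₀]
    [IsScalarTower K L K₀] [IsAlgClosed K₀] [Algebra.IsAlgebraic K K₀] [Field N] [IsAlgClosed N]
    [Algebra K₀ N] [Algebra K N] [Algebra L N] [IsScalarTower K K₀ N] [IsScalarTower L K₀ N]
    (ι : Type) [Finite ι] (η : ι → N), IsTranscendenceBasis K₀ η →
    ∀ (P : Type) [Group P] [Finite P] (n : ℕ) (H₀ : Subgroup (Wr P n × (L ≃ₐ[K] L)))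
    (r : Fin n → N), Function.Injective r → ∀ (vv : Fin n → P → N),
    (∀ i, Function.Injective (vv i)) →
    (∀ (σ : N ≃ₐ[K] N), (∀ v, σ (η v) = η v) → ∃ z ∈ H₀,
      (∀ a : L, σ (algebraMap L N a) = algebraMap L N (z.2 a)) ∧ ∀ i,
        σ (r i) = r (z.1.right i) ∧
        ∀ g, σ (vv i g) = vv (z.1.right i) (z.1.left (z.1.right i) * g)) →
    (∀ z ∈ H₀, z.2 = 1 → ∃ σ : N ≃ₐ[K₀] N, (∀ v, σ (η v) = η v) ∧ ∀ i,
        σ (r i) = r (z.1.right i) ∧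
        ∀ g, σ (vv i g) = vv (z.1.right i) (z.1.left (z.1.right i) * g)) →
    RegSol K L H₀ ((MonoidHom.snd (Wr P n) (L ≃ₐ[K] L)).comp H₀.subtype)

/-- DATAP: the polynomial `Θ` for a subgroup `P` of the Galois group. -/
def St_dataP : Prop :=
  ∀ (K Z : Type) [Field K] [Field Z] [Algebra (RatFunc K) Z] [FiniteDimensional (RatFunc K) Z]
    [IsGalois (RatFunc K) Z] (P : Subgroup (Z ≃ₐ[RatFunc K] Z)),
    ∃ (θ : Z) (Θ : K[X][X]) (D₀ : K[X]), (∀ σ : Z ≃ₐ[RatFunc K] Z, σ θ = θ ↔ σ ∈ P) ∧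
      Θ.map (algebraMap K[X] (RatFunc K)) = minpoly (RatFunc K) θ ∧ DD Θ D₀ P.index

/-- PLACEB: the norm of `Θ_Z`, once it is known to be algebraic over `K`, if the degree of the
discriminant is even. -/
def St_placeB : Prop :=
  ∀ (p : ℕ) [Fact p.Prime] (K N : Type) [Field K] [CharP K p] [Field N] [IsAlgClosed N]
    [Algebra K N] (Θ : K[X][X]) (D₀ D : K[X]) (d B m : ℕ), DD Θ D₀ d → BB Θ B m → D = D₀ ^ 4 →
    Even D₀.natDegree → ∀ (ν : Fin m → N) (s : N),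
    AlgebraicIndependent K (fun o : Option (Fin m) => o.elim s ν) →
    ∀ x θ : Fin (d * (p * (B + D.natDegree))) → N, Function.Injective x →
      (∀ l, IsPt Θ D p B ν s (x l) (θ l)) → IsAlgebraic K (∏ l, tZ Θ (x l) (θ l)) →
      ∏ l, tZ Θ (x l) (θ l) = algebraMap K N (D₀.leadingCoeff ^ (p * B))

/-- PARB: parity, for `n` congruent to `2` modulo `4`. -/
def St_parB : Prop :=
  ∀ (p : ℕ) (N : Type) [Field N] (n d : ℕ), Odd p → n % 4 = 2 → (2 : N) ≠ 0 →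
    ∀ (x δ z : Fin n → N) (s c w : N) (u : ℤˣ),
    Function.Injective x → c ≠ 0 → s ≠ 0 → (∀ l, δ l ≠ 0) → w ≠ 0 → w ^ 2 = -∏ l, z l →
    (∀ l, c * ∏ j ∈ Finset.univ.erase l, (x l - x j) =
      (δ l ^ 4) ^ p * (s * (δ l ^ 4) ^ p) ^ (d - 1) * (z l) ^ p) →
    ∀ (σ : N ≃+* N) (π : Equiv.Perm (Fin n)), (∀ l, σ (x l) = x (π l)) →
      (∀ l, σ (δ l) = δ (π l)) → σ s = s → σ c = c → σ w = ((u : ℤˣ) : ℤ) • w →
      Equiv.Perm.sign π = u

/-- LCB: the discriminant of `Θ`. -/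
def St_lcB : Prop :=
  ∀ (K L Z : Type) [Field K] [Field L] [Algebra K L] [FiniteDimensional K L] [IsGalois K L]
    [Field Z] [Algebra (RatFunc K) Z] [Algebra L Z] [Algebra K Z]
    [IsScalarTower K (RatFunc K) Z] [IsScalarTower K L Z] [FiniteDimensional (RatFunc K) Z]
    [IsGalois (RatFunc K) Z] (π : (Z ≃ₐ[RatFunc K] Z) →* (L ≃ₐ[K] L)),
    (∀ (σ : Z ≃ₐ[RatFunc K] Z) (x : L), σ (algebraMap L Z x) = algebraMap L Z (π σ x)) →
    ∀ (P : Subgroup (Z ≃ₐ[RatFunc K] Z)) (d : ℕ) (χ : (L ≃ₐ[K] L) →* ℤˣ), d % 4 = 2 →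
    SgnIndex (Z ≃ₐ[RatFunc K] Z) P d (χ.comp π) →
    ∀ (ρ : L) (δ : K), ρ ≠ 0 → algebraMap K L δ = ρ ^ 2 →
    (∀ h : L ≃ₐ[K] L, h ρ = ((χ h : ℤˣ) : ℤ) • ρ) →
    ∀ (θ : Z) (Θ : K[X][X]) (D₀ : K[X]), (∀ σ : Z ≃ₐ[RatFunc K] Z, σ θ = θ ↔ σ ∈ P) →
      Θ.map (algebraMap K[X] (RatFunc K)) = minpoly (RatFunc K) θ → DD Θ D₀ d →
      ∃ R : K[X], D₀ = -(C δ * R ^ 2)

/-- GRPA: the subgroup `P` of a twofold symmetric fibre power and the homomorphism `β : P → B`. -/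
def St_grpA : Prop :=
  ∀ (H B : Type) [Group H] [Group B] (a : B →* H), Function.Surjective a →
    ∀ m n : ℕ, 0 < m → 0 < n →
    ∃ (P : Subgroup (SymEP (symProj a m) n)) (β : P →* B), Function.Surjective β ∧
      ∀ p : P, a (β p) = symProj (symProj a m) n p

/-- MAINA: the first main theorem. -/
def St_mainA : Prop :=
  ∀ (p : ℕ) [Fact p.Prime], p ≠ 2 → ∀ (K L : Type) [Field K] [CharP K p] [Infinite K] [Field L]
    [Algebra K L] [FiniteDimensional K L] [IsGalois K L] (B : Type) [Group B] [Finite B]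
    (a : B →* (L ≃ₐ[K] L)), Function.Surjective a → commutator a.ker = ⊤ →
    ∀ n₀ : ℕ, ∃ n ≥ n₀, RegSol K L (AltTw a 1 n) (twProj a 1 n)

/-- The degrees in the second main theorem. -/
def Deg (c n : ℕ) : Prop := ∃ q : ℕ, q.Prime ∧ n = q + (c + 1) ∧ n % (2 * c) = c

/-- MAINB: the second main theorem, for weakly solvable `a` and all characters. -/
def St_mainB : Prop :=
  ∀ (p : ℕ) [Fact p.Prime], p ≠ 2 → ∀ (K L : Type) [Field K] [CharP K p] [Infinite K] [Field L]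
    [Algebra K L] [FiniteDimensional K L] [IsGalois K L] (B : Type) [Group B] [Finite B]
    (a : B →* (L ≃ₐ[K] L)), Function.Surjective a → commutator a.ker = ⊤ →
    WeakSol K L B a → ∀ r : ℕ, Odd r → ((72 * Nat.card a.ker + 2).factorial) ^ 3 ≤ r →
    ∃ n₀ : ℕ, ∀ n ≥ n₀, Deg (6 * r * p) n → ∀ χ : (L ≃ₐ[K] L) →* ℤˣ,
      RegSol K L (AltTw a χ n) (twProj a χ n)

end Pool.Agent.N70.PP
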