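import Mathlib
import Pool.Agent.N70.PP.Stm

/-!
Statements (NOT results) of the second part of the project PP: uniformity in the fields, any
characteristic.
-/

set_option autoImplicit false

namespace Pool.Agent.N70.PP

open Polynomial Pool.Agent.H391R2 Pool.Agent.H391R2.T4 Pool.Agent.Y793
open Pool.Agent.N70.EP (Ext2 Desc)

/-- BCHP: base change of regular solutions, infinite fields of any characteristic. -/
def St_bchp : Prop :=
  ∀ (K L K₁ L₁ : Type) [Field K] [Infinite K] [Field L] [Algebra K L] [FiniteDimensional K L]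
    [IsGalois K L] [Field K₁] [Field L₁] [Algebra K₁ L₁] [FiniteDimensional K₁ L₁]
    [IsGalois K₁ L₁] [Algebra K K₁] [Algebra L L₁] (f : (L₁ ≃ₐ[K₁] L₁) ≃* (L ≃ₐ[K] L)),
    Ext2 K L K₁ L₁ f → ∀ (E : Type) [Group E] [Finite E] (α : E →* (L ≃ₐ[K] L)),
    RegSol K L E α → RegSol K₁ L₁ E ((f.symm : (L ≃ₐ[K] L) →* (L₁ ≃ₐ[K₁] L₁)).comp α)

/-- ONEP: descent of regular solutions from `K(t)` to `K`, infinite fields of any characteristic. -/
def St_onep : Prop :=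
  ∀ (K L : Type) [Field K] [Infinite K] [Field L] [Algebra K L] [FiniteDimensional K L]
    [IsGalois K L], ∃ (_ : Algebra (RatFunc K) (RatFunc L))
    (_ : FiniteDimensional (RatFunc K) (RatFunc L)) (_ : IsGalois (RatFunc K) (RatFunc L))
    (f : (RatFunc L ≃ₐ[RatFunc K] RatFunc L) ≃* (L ≃ₐ[K] L)),
    Ext2 K L (RatFunc K) (RatFunc L) f ∧ Desc K L (RatFunc K) (RatFunc L) f

/-- UNIP: for every finite group `H` there is an `H`-extension `L₀ / K₀` of fields of characteristic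
`p` such that every `H`-extension `L / K` of infinite fields of characteristic `p` becomes an
extension of it after a purely transcendental extension of `K`. -/
def St_unip : Prop :=
  ∀ (p : ℕ) [Fact p.Prime] (H : Type) [Group H] [Finite H], ∃ (K₀ L₀ : Type) (_ : Field K₀)
      (_ : CharP K₀ p) (_ : Infinite K₀)
      (_ : Field L₀) (_ : Algebra K₀ L₀) (_ : FiniteDimensional K₀ L₀) (_ : IsGalois K₀ L₀)
      (e₀ : (L₀ ≃ₐ[K₀] L₀) ≃* H), ∀ (K L : Type) [Field K] [CharP K p] [Infinite K] [Field L]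
    [Algebra K L] [FiniteDimensional K L] [IsGalois K L] (ε : (L ≃ₐ[K] L) ≃* H),
    ∃ (K₁ L₁ : Type) (_ : Field K₁) (_ : Field L₁) (_ : Algebra K₁ L₁)
      (_ : FiniteDimensional K₁ L₁) (_ : IsGalois K₁ L₁) (_ : Algebra K K₁) (_ : Algebra L L₁)
      (_ : Algebra K₀ K₁) (_ : Algebra L₀ L₁) (f : (L₁ ≃ₐ[K₁] L₁) ≃* (L ≃ₐ[K] L))
      (f₀ : (L₁ ≃ₐ[K₁] L₁) ≃* (L₀ ≃ₐ[K₀] L₀)),
      Ext2 K L K₁ L₁ f ∧ Ext2 K₀ L₀ K₁ L₁ f₀ ∧ (∀ σ, ε (f σ) = e₀ (f₀ σ)) ∧ Desc K L K₁ L₁ f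

end Pool.Agent.N70.PP
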