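import Mathlib
import Pool.Agent.N70.PP.Stm
import Pool.Agent.N70.EP.Bc
import Pool.Agent.Y140.AW.Core
import Pool.Agent.Y793.E.Core
import Pool.Agent.Y261.AW.Data

/-!
The main construction of the project PP.
-/

set_option autoImplicit false
set_option linter.unusedSectionVars false
set_option linter.unusedSimpArgs false

namespace Pool.Agent.N70.PP

open Polynomial Pool.Agent.H391R2 Pool.Agent.H391R2.T4 Pool.Agent.Y793 Pool.Agent.Y140.AW

section core

variable {K L K₀ Z N : Type} [Field K] [Infinite K] [Field L] [Algebra K L]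
  [FiniteDimensional K L] [IsGalois K L] [Field Z] [Algebra (RatFunc K) Z] [Algebra L Z]
  [Algebra K Z] [IsScalarTower K (RatFunc K) Z] [IsScalarTower K L Z]
  [FiniteDimensional (RatFunc K) Z] [IsGalois (RatFunc K) Z] [Field K₀] [Algebra K K₀]
  [Algebra L K₀] [IsScalarTower K L K₀] [IsAlgClosed K₀] [Algebra.IsAlgebraic K K₀] [Field N]
  [IsAlgClosed N] [Algebra K₀ N] [Algebra K N] [Algebra L N] [IsScalarTower K K₀ N]
  [IsScalarTower L K₀ N] [IsScalarTower K L N]

/-- Embeddings over `L` with given values. -/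
theorem exists_phi (hLIFT : St_lift) (π : (Z ≃ₐ[RatFunc K] Z) →* (L ≃ₐ[K] L))
    (hπ : ∀ (σ : Z ≃ₐ[RatFunc K] Z) (x : L), σ (algebraMap L Z x) = algebraMap L Z (π σ x))
    (P : Subgroup (Z ≃ₐ[RatFunc K] Z)) (hPπ : P.map π = ⊤) (θ : Z) (Θ : K[X][X])
    (hθ : ∀ σ : Z ≃ₐ[RatFunc K] Z, σ θ = θ ↔ σ ∈ P)
    (hΘ : Θ.map (algebraMap K[X] (RatFunc K)) = minpoly (RatFunc K) θ)
    (x b : N) (hx : Transcendental K x) (hb : (tA Θ x).eval b = 0) :
    ∃ φ : Z →ₐ[L] N, φ (algebraMap (RatFunc K) Z RatFunc.X) = x ∧ φ θ = b := by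
  have hθ' : ∀ σ : Z ≃ₐ[RatFunc K] Z, σ θ = θ ↔ σ ∈ P.subtype.range := by
    intro σ
    rw [hθ, Subgroup.range_subtype]
  obtain ⟨φ, h1, h2⟩ := (hLIFT K Z N P P.subtype θ Θ hθ' hΘ).1 x b hx hb
  let h := φ.restrictNormal' L
  have hh : ∀ c : L, φ (algebraMap L Z c) = algebraMap L N (h c) := fun c =>
    (AlgHom.restrictNormal_commutes φ L c).symm
  obtain ⟨q, hq, hq2⟩ : ∃ q ∈ P, π q = h⁻¹ := by
    have h3 : h⁻¹ ∈ P.map π := by rw [hPπ]; exact Subgroup.mem_top _
    exact Subgroup.mem_map.1 h3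
  let ψ : Z →ₐ[K] N := φ.comp ((q.restrictScalars K : Z ≃ₐ[K] Z) : Z →ₐ[K] Z)
  have hψ : ∀ z, ψ z = φ (q z) := fun z => rfl
  refine ⟨{ ψ with commutes' := fun c => ?_ }, ?_, ?_⟩
  · change φ (q (algebraMap L Z c)) = algebraMap L N c
    rw [hπ, hh, hq2]
    change algebraMap L N ((h * h⁻¹) c) = _
    rw [mul_inv_cancel]
    rfl
  · change φ (q _) = x
    rw [q.commutes, h1]
  · change φ (q _) = b
    rw [(hθ q).2 hq, h2]

theorem coreP (p : ℕ) [Fact p.Prime] [CharP K p] (hMT : St_mt) (hTUP : St_tuple)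
    (hIND : St_indep) (hLIFT : St_lift) (hARI : St_ariP)
    (π : (Z ≃ₐ[RatFunc K] Z) →* (L ≃ₐ[K] L))
    (hπ : ∀ (σ : Z ≃ₐ[RatFunc K] Z) (x : L), σ (algebraMap L Z x) = algebraMap L Z (π σ x))
    (hreg : ∀ y : Z, IsAlgebraic L y → y ∈ Set.range (algebraMap L Z))
    (P : Subgroup (Z ≃ₐ[RatFunc K] Z)) (θ : Z) (Θ : K[X][X])
    (hθ : ∀ σ : Z ≃ₐ[RatFunc K] Z, σ θ = θ ↔ σ ∈ P)
    (hΘ : Θ.map (algebraMap K[X] (RatFunc K)) = minpoly (RatFunc K) θ) (D₀ : K[X]) (d : ℕ)
    (hDD : DD Θ D₀ d) {B : Type} [Group B] [Finite B] (β : P →* B) (hβ : Function.Surjective β)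
    (a : B →* (L ≃ₐ[K] L)) (hsurj : Function.Surjective a) (ha : ∀ p : P, a (β p) = π p)
    (hperf : commutator a.ker = ⊤) (Bd r q n : ℕ) (hq : q.Prime)
    (hn : n = q + r) (hr : 5 ≤ r) (hrq : r < q)
    (hc : 2 * (Nat.card a.ker) ^ 2 < (n - 2).factorial)
    (s : N) (ν : Fin (r + 1) → N)
    (hη : IsTranscendenceBasis K₀ (fun o : Option (Fin (r + 1)) => o.elim s ν))
    (x θx : Fin n → N) (hx : Function.Injective x)
    (hpt : ∀ l, IsPt Θ (D₀ ^ 4) p Bd ν s (x l) (θx l))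
    (hall : ∀ u v, IsPt Θ (D₀ ^ 4) p Bd ν s u v → ∃ l, u = x l ∧ v = θx l)
    (χ : (L ≃ₐ[K] L) →* ℤˣ)
    (hsgn : ∀ (σ : N ≃ₐ[K] N) (h : L ≃ₐ[K] L) (τ : Equiv.Perm (Fin n)), σ s = s →
      (∀ i, σ (ν i) = ν i) → (∀ c : L, σ (algebraMap L N c) = algebraMap L N (h c)) →
      (∀ (σ' : N ≃ₐ[K] N), σ' s = s → (∀ i, σ' (ν i) = ν i) → ∃ τ' : Equiv.Perm (Fin n),
        ∀ l, σ' (x l) = x (τ' l) ∧ σ' (θx l) = θx (τ' l)) →
      (∀ l, σ (x l) = x (τ l)) → (∀ l, σ (θx l) = θx (τ l)) → Equiv.Perm.sign τ = χ h) :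
    RegSol K L (AltTw a χ n) (twProj a χ n) := by
  classical
  have hcN : CharP N p := charP_of_injective_algebraMap (algebraMap K N).injective p
  have hinfL : Infinite L := Infinite.of_injective _ (algebraMap K L).injective
  have halgLK₀ : Algebra.IsAlgebraic L K₀ := Algebra.IsAlgebraic.tower_top (K := K) L
  set η : Option (Fin (r + 1)) → N := fun o => o.elim s ν with hηdef
  have hηL : IsTranscendenceBasis L η := Pool.Agent.W200.IJ.basis_down η hη
  have hPπ : P.map π = ⊤ := by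
    rw [Subgroup.eq_top_iff']
    intro h
    obtain ⟨b, hb⟩ := hsurj h
    obtain ⟨u, hu⟩ := hβ b
    exact ⟨u, u.2, by rw [← ha, hu, hb]⟩
  obtain ⟨iKL, iLZ, t1, t2, hfd, hgal, hp⟩ := exists_ratL (K := K) (L := L) (F := Z)
  have hXL : algebraMap (RatFunc L) Z RatFunc.X = algebraMap (RatFunc K) Z RatFunc.X := by
    have h2 : (RatFunc.X : RatFunc L) = algebraMap (RatFunc K) (RatFunc L) RatFunc.X := by
      rw [← RatFunc.algebraMap_X, ← RatFunc.algebraMap_X, hp, map_X]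
    rw [h2, ← IsScalarTower.algebraMap_apply]
  -- independence
  have hind : ∀ c : Fin (r + 1) → Fin n, Function.Injective c →
      AlgebraicIndependent (IntermediateField.adjoin K₀ {s}) (fun j => x (c j)) := fun c hc =>
    hIND p K K₀ N Θ D₀ (D₀ ^ 4) d Bd (r + 1) hDD rfl ν s hη
      (fun j => x (c j)) (fun j => θx (c j)) (hx.comp hc) (fun j => hpt _)
  have htr : ∀ l, Transcendental K (x l) := by
    intro l
    let z : Fin n := ⟨0, by omega⟩
    let c : Fin (r + 1) → Fin n := fun j => Equiv.swap z l (Fin.castLE (by omega) j)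
    have hc : Function.Injective c := fun i j h =>
      Fin.castLE_injective _ ((Equiv.swap z l).injective h)
    have hc0 : c ⟨0, by omega⟩ = l := Equiv.swap_apply_left z l
    have h1 := (hind c hc).transcendental ⟨0, by omega⟩
    rw [hc0] at h1
    have h2 : Transcendental K₀ (x l) := fun h => h1 (h.tower_top _)
    exact fun h => h2 (h.tower_top K₀)
  -- embeddings
  choose φ hφx hφθ using fun l => exists_phi (L := L) hLIFT π hπ P hPπ θ Θ hθ hΘ (x l) (θx l)
    (htr l) (hpt l).1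
  let φK : Fin n → Z →ₐ[K] N := fun l => (φ l).restrictScalars K
  have hθ' : ∀ σ : Z ≃ₐ[RatFunc K] Z, σ θ = θ ↔ σ ∈ P.subtype.range := by
    intro σ
    rw [hθ, Subgroup.range_subtype]
  have hPX : ∀ (u : P) (l : Fin n), φ l ((u : Z ≃ₐ[RatFunc K] Z)
      (algebraMap (RatFunc K) Z RatFunc.X)) = x l := by
    intro u l
    rw [(u : Z ≃ₐ[RatFunc K] Z).commutes, hφx]
  have hPθ : ∀ (u : P) (l : Fin n), φ l ((u : Z ≃ₐ[RatFunc K] Z) θ) = θx l := by
    intro u l
    rw [(hθ u).2 u.2, hφθ]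
  have hrelx : ∀ (σ : N → N) (y : Wr P n), RelE P.subtype φK σ y → ∀ l,
      σ (x l) = x (y.right l) := by
    intro σ y h l
    have h1 : σ (φ l _) = φ _ _ := h l (algebraMap (RatFunc K) Z RatFunc.X)
    have h2 := hPX (y.left (y.right l)) (y.right l)
    rw [hφx] at h1
    rw [h1]
    exact h2
  have hrelθ : ∀ (σ : N → N) (y : Wr P n), RelE P.subtype φK σ y → ∀ l,
      σ (θx l) = θx (y.right l) := by
    intro σ y h l
    have h1 : σ (φ l _) = φ _ _ := h l θ
    have h2 := hPθ (y.left (y.right l)) (y.right l)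
    rw [hφθ] at h1
    rw [h1]
    exact h2
  -- every automorphism over the parameters satisfies a relation
  have key : ∀ σ : N ≃ₐ[K] N, σ s = s → (∀ i, σ (ν i) = ν i) →
      ∃ y : Wr P n, RelE P.subtype φK σ y := by
    intro σ hσs hσν
    have hσν' : (fun i => (σ : N →ₐ[K] N) (ν i)) = ν := funext hσν
    have h1 : ∀ l, ∃ l', σ (x l) = x l' ∧ σ (θx l) = θx l' := by
      intro l
      have h2 := (hpt l).map (σ : N →ₐ[K] N)
      rw [hσν'] at h2
      have h3 : (σ : N →ₐ[K] N) s = s := hσs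
      rw [h3] at h2
      exact hall _ _ h2
    choose τ hτx hτθ using h1
    have hτi : Function.Injective τ := by
      intro l l' h
      apply hx
      apply σ.injective
      rw [hτx, hτx, h]
    let T : Equiv.Perm (Fin n) := Equiv.ofBijective τ (Finite.injective_iff_bijective.1 hτi)
    have h2 : ∀ l, ∃ h : P, ∀ z, σ (φ l z) = φ (τ l) ((h : Z ≃ₐ[RatFunc K] Z) z) := by
      intro l
      exact (hLIFT K Z N P P.subtype θ Θ hθ' hΘ).2.2 ((σ : N →ₐ[K] N).comp (φK l)) (φK (τ l)) (by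
        change σ (φ l _) = φ _ _
        rw [hφx, hφx, hτx]) (by
        change σ (φ l _) = φ _ _
        rw [hφθ, hφθ, hτθ])
    choose h hh using h2
    refine ⟨⟨fun j => h (T.symm j), T⟩, fun l z => ?_⟩
    change σ (φ l z) = φ (τ l) ((h (T.symm (T l)) : Z ≃ₐ[RatFunc K] Z) z)
    rw [Equiv.symm_apply_apply]
    exact hh l z
  have hperm : ∀ (σ' : N ≃ₐ[K] N), σ' s = s → (∀ i, σ' (ν i) = ν i) →
      ∃ τ' : Equiv.Perm (Fin n), ∀ l, σ' (x l) = x (τ' l) ∧ σ' (θx l) = θx (τ' l) := by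
    intro σ' h1 h2
    obtain ⟨y, hy⟩ := key σ' h1 h2
    exact ⟨y.right, fun l => ⟨hrelx _ y hy l, hrelθ _ y hy l⟩⟩
  -- the action on `L`
  have hrelL : ∀ (σ : N ≃ₐ[K] N) (y : Wr P n), RelE P.subtype φK σ y → ∀ l (c : L),
      σ (algebraMap L N c) = algebraMap L N (π (y.left (y.right l)) c) := by
    intro σ y h l c
    have h1 : σ (φ l _) = φ _ ((y.left (y.right l) : Z ≃ₐ[RatFunc K] Z) _) :=
      h l (algebraMap L Z c)
    rw [(φ l).commutes, hπ, (φ (y.right l)).commutes] at h1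
    exact h1
  -- the geometric group
  let H : Subgroup (Wr a.ker n) :=
    { carrier := {X | ∃ τ : N ≃ₐ[K₀] N, (∀ v, τ (η v) = η v) ∧ ∃ y : Wr P n,
        RelE P.subtype φK τ y ∧ y.right = X.right ∧ ∀ j, β (y.left j) = (X.left j : B)}
      one_mem' := ⟨1, fun v => rfl, 1, RelE.one, rfl, fun j => map_one β⟩
      mul_mem' := by
        rintro X X' ⟨τ, h1, y, h2, h3, h4⟩ ⟨τ', h1', y', h2', h3', h4'⟩
        refine ⟨τ * τ', fun v => by rw [AlgEquiv.mul_apply, h1', h1], y * y', ?_, ?_, fun j => ?_⟩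
        · have h5 : RelE P.subtype φK (τ ∘ τ') (y * y') := RelE.mul h2 h2'
          exact h5
        · rw [wr_mul_right, wr_mul_right, h3, h3']
        · rw [wr_mul_left, wr_mul_left, map_mul, h4, h4', h3]
          rfl
      inv_mem' := by
        rintro X ⟨τ, h1, y, h2, h3, h4⟩
        refine ⟨τ.symm, fun v => ?_, y⁻¹, RelE.inv (σ := τ.toEquiv) h2, ?_, fun j => ?_⟩
        · rw [AlgEquiv.symm_apply_eq, h1]
        · change y.right⁻¹ = X.right⁻¹
          rw [h3]
        · rw [wr_inv_left, wr_inv_left, map_inv, h4, h3]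
          rfl }
  have hHA : AWr a.ker n ≤ H := by
    refine grw hMT a.ker hperf n r q hq hn hr hrq hc H fun u v hu hv h => ?_
    have hq1 : ∀ j, ∃ (w : P) (w' : Z ≃ₐ[RatFunc L] Z), β w = (h j : B) ∧
        ∀ z, w' z = (w : Z ≃ₐ[RatFunc K] Z) z := by
      intro j
      obtain ⟨w, hw⟩ := hβ (h j : B)
      obtain ⟨w', hw'⟩ := lift_ker hp π hπ (w : Z ≃ₐ[RatFunc K] Z) (by
        rw [← ha, hw]
        exact (h j).2)
      exact ⟨w, w', hw, hw'⟩
    choose w w' hw hw' using hq1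
    let F : IntermediateField L N := (IntermediateField.adjoin K₀ {s}).restrictScalars L
    obtain ⟨τ, hτ⟩ := hTUP L Z N hreg ⟨_, inferInstance, η, hηL⟩ F (r + 1) (fun j => φ (u j))
      (fun j => (φ (v j)).comp (((w' j).restrictScalars L : Z ≃ₐ[L] Z) : Z →ₐ[L] Z)) (by
        simp only [hXL, hφx]
        exact hind u hu) (by
        have h1 : (fun j => ((φ (v j)).comp (((w' j).restrictScalars L : Z ≃ₐ[L] Z) :
            Z →ₐ[L] Z)) (algebraMap (RatFunc L) Z RatFunc.X)) = fun j => x (v j) := by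
          funext j
          change φ (v j) (w' j _) = _
          rw [(w' j).commutes, hXL, hφx]
        rw [h1]
        exact hind v hv)
    have hτ' : ∀ j z, τ (φ (u j) z) = φ (v j) ((w j : Z ≃ₐ[RatFunc K] Z) z) := by
      intro j z
      rw [← hw']
      exact hτ j z
    have hτx : ∀ j, τ (x (u j)) = x (v j) := by
      intro j
      rw [← hφx (u j), hτ', hPX]
    have hτθ : ∀ j, τ (θx (u j)) = θx (v j) := by
      intro j
      rw [← hφθ (u j), hτ', hPθ]
    have hτK₀ : ∀ c : K₀, τ (algebraMap K₀ N c) = algebraMap K₀ N c := fun c =>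
      τ.commutes (⟨algebraMap K₀ N c, (IntermediateField.adjoin K₀ {s}).algebraMap_mem c⟩ : F)
    have hτs : τ s = s := τ.commutes
      (⟨s, IntermediateField.mem_adjoin_simple_self K₀ s⟩ : F)
    let σ : N ≃ₐ[K₀] N := AlgEquiv.ofRingEquiv (f := (τ : N ≃+* N)) hτK₀
    let σK : N ≃ₐ[K] N := σ.restrictScalars K
    have hσν : (fun i => (σK : N →ₐ[K] N) (ν i)) = ν := by
      refine lin (p := p) (Θ := Θ) (D := D₀ ^ 4) (B := Bd) (s := s) (fun j => x (v j))
        (fun j => θx (v j)) (hx.comp hv) (fun j => ?_) (fun j => hpt (v j))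
      have h1 := (hpt (u j)).map (σK : N →ₐ[K] N)
      have h2 : (σK : N →ₐ[K] N) s = s := hτs
      have h3 : (σK : N →ₐ[K] N) (x (u j)) = x (v j) := hτx j
      have h4 : (σK : N →ₐ[K] N) (θx (u j)) = θx (v j) := hτθ j
      rwa [h2, h3, h4] at h1
    have hση : ∀ o, σ (η o) = η o := by
      intro o
      cases o with
      | none => exact hτs
      | some i => exact congrFun hσν i
    obtain ⟨y, hy⟩ := key σK hτs (fun i => congrFun hσν i)
    have hyr : ∀ j, y.right (u j) = v j := by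
      intro j
      apply hx
      rw [← hrelx _ y hy]
      exact hτx j
    have hyl : ∀ j, y.left (v j) = w j := by
      intro j
      apply Subtype.ext
      apply AlgEquiv.ext
      intro z
      apply (φ (v j)).injective
      have h1 : σK (φ (u j) z) = φ _ _ := hy (u j) z
      have h2 : σK (φ (u j) z) = φ (v j) ((w j : Z ≃ₐ[RatFunc K] Z) z) := hτ' j z
      rw [h2, hyr j] at h1
      exact h1.symm
    have hyπ : ∀ j, a (β (y.left j)) = 1 := by
      intro j
      obtain ⟨i, rfl⟩ := y.right.surjective j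
      rw [ha]
      apply AlgEquiv.ext
      intro c
      apply (algebraMap L N).injective
      rw [← hrelL σK y hy i c]
      change σ (algebraMap L N c) = algebraMap L N c
      rw [IsScalarTower.algebraMap_apply L K₀ N]
      exact σ.commutes _
    refine ⟨⟨fun j => ⟨β (y.left j), hyπ j⟩, y.right⟩, ⟨σ, hση, y, hy, rfl, fun j => rfl⟩,
      fun j => ⟨hyr j, ?_⟩⟩
    apply Subtype.ext
    change β (y.left (v j)) = _
    rw [hyl, hw]
  -- the labels
  obtain ⟨ζ, hζ⟩ := Pool.Agent.Y261.AW.exists_fix (β.ker.map P.subtype)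
  have hζ2 : ∀ u u' : P, (u : Z ≃ₐ[RatFunc K] Z) ζ = (u' : Z ≃ₐ[RatFunc K] Z) ζ ↔
      β u = β u' := by
    intro u u'
    have h1 : ((u⁻¹ * u' : P) : Z ≃ₐ[RatFunc K] Z) ζ = ζ ↔ β u = β u' := by
      rw [hζ]
      constructor
      · intro h
        obtain ⟨w, hw, hw2⟩ := Subgroup.mem_map.1 h
        have h3 : w = u⁻¹ * u' := Subtype.ext hw2
        rw [h3, MonoidHom.mem_ker, map_mul, map_inv] at hw
        exact inv_mul_eq_one.1 hw
      · intro h
        refine Subgroup.mem_map.2 ⟨u⁻¹ * u', ?_, rfl⟩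
        rw [MonoidHom.mem_ker, map_mul, map_inv]
        exact inv_mul_eq_one.2 h
    rw [← h1]
    constructor
    · intro h
      change (u : Z ≃ₐ[RatFunc K] Z).symm ((u' : Z ≃ₐ[RatFunc K] Z) ζ) = ζ
      rw [← h]
      exact AlgEquiv.symm_apply_apply _ _
    · intro h
      change (u : Z ≃ₐ[RatFunc K] Z).symm ((u' : Z ≃ₐ[RatFunc K] Z) ζ) = ζ at h
      rw [AlgEquiv.symm_apply_eq] at h
      exact h.symm
  choose sc hsc using hβ
  refine hARI K L K₀ N _ η hη B n (AltTw a χ n) x hx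
    (fun i b => φ i ((sc b : Z ≃ₐ[RatFunc K] Z) ζ)) ?_ ?_ ?_
  · intro i b b' hb
    have h4 : (sc b : Z ≃ₐ[RatFunc K] Z) ζ = (sc b' : Z ≃ₐ[RatFunc K] Z) ζ :=
      (φ i).injective hb
    rw [hζ2, hsc, hsc] at h4
    exact h4
  · intro σ hσ
    have hσs : σ s = s := hσ none
    have hσν : ∀ i, σ (ν i) = ν i := fun i => hσ (some i)
    obtain ⟨y, hy⟩ := key σ hσs hσν
    have i₀ : Fin n := ⟨0, by omega⟩
    obtain ⟨h, hh⟩ : ∃ h, h = π (y.left (y.right i₀)) := ⟨_, rfl⟩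
    have hσL : ∀ b : L, σ (algebraMap L N b) = algebraMap L N (h b) := by
      rw [hh]
      exact hrelL σ y hy i₀
    have hyL : ∀ i, π (y.left (y.right i) : Z ≃ₐ[RatFunc K] Z) = h := by
      intro i
      apply AlgEquiv.ext
      intro b
      apply (algebraMap L N).injective
      rw [← hrelL σ y hy i b, hσL]
    have hy1 : Equiv.Perm.sign y.right = χ h :=
      hsgn σ h y.right hσs hσν hσL hperm (hrelx _ y hy) (hrelθ _ y hy)
    refine ⟨(⟨fun j => β (y.left j), y.right⟩, h), Subgroup.mem_inf.2 ⟨?_, hy1⟩, hσL,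
      fun i => ⟨hrelx _ y hy i, fun b => ?_⟩⟩
    · intro j
      obtain ⟨i, rfl⟩ := y.right.surjective j
      change a (β (y.left (y.right i))) = h
      rw [ha, hyL]
    · have h5 : σ (φ i _) = φ _ ((y.left (y.right i) : Z ≃ₐ[RatFunc K] Z) _) :=
        hy i ((sc b : Z ≃ₐ[RatFunc K] Z) ζ)
      rw [h5]
      congr 1
      change ((y.left (y.right i) * sc b : P) : Z ≃ₐ[RatFunc K] Z) ζ =
        (sc (β (y.left (y.right i)) * b) : Z ≃ₐ[RatFunc K] Z) ζ
      rw [hζ2, hsc, map_mul, hsc]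
  · intro z hz hz1
    have hzα : ∀ j, a (z.1.left j) = 1 := by
      intro j
      have h1 : a (z.1.left j) = z.2 := (Subgroup.mem_inf.1 hz).1 j
      rw [h1, hz1]
    have hzs : Equiv.Perm.sign z.1.right = 1 := by
      have h1 : Equiv.Perm.sign z.1.right = χ z.2 := (Subgroup.mem_inf.1 hz).2
      rw [h1, hz1, map_one]
    have h0 : (⟨fun j => ⟨z.1.left j, MonoidHom.mem_ker.2 (hzα j)⟩, z.1.right⟩ : Wr a.ker n) ∈
        AWr a.ker n := hzs
    obtain ⟨σ, h1, y, h2, h3, h4⟩ := hHA h0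
    have h3' : y.right = z.1.right := h3
    refine ⟨σ, h1, fun i => ⟨?_, fun b => ?_⟩⟩
    · rw [← h3']
      exact hrelx _ y h2 i
    · have h5 : σ (φ i _) = φ _ ((y.left (y.right i) : Z ≃ₐ[RatFunc K] Z) _) :=
        h2 i ((sc b : Z ≃ₐ[RatFunc K] Z) ζ)
      rw [h5, h3']
      congr 1
      have h6 : z.1.left (z.1.right i) = β (y.left (z.1.right i)) := (h4 _).symm
      change ((y.left (z.1.right i) * sc b : P) : Z ≃ₐ[RatFunc K] Z) ζ =
        (sc (z.1.left (z.1.right i) * b) : Z ≃ₐ[RatFunc K] Z) ζ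
      rw [hζ2, hsc, map_mul, hsc, h6]

end core

end Pool.Agent.N70.PP
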