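import Mathlib
import Pool.Agent.N70.PP.Core

/-!
The signs (project PP).
-/

set_option autoImplicit false
set_option linter.unusedSectionVars false
set_option linter.unusedSimpArgs false

namespace Pool.Agent.N70.PP

open Polynomial Pool.Agent.H391R2 Pool.Agent.H391R2.T4 Pool.Agent.Y793 Pool.Agent.Y140.AW

section sgn

variable {p : ℕ} [Fact p.Prime] {K K₀ N : Type} [Field K] [CharP K p] [Field K₀] [Algebra K K₀]
  [Algebra.IsAlgebraic K K₀] [Field N] [IsAlgClosed N] [Algebra K₀ N] [Algebra K N]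
  [IsScalarTower K K₀ N] {Θ : K[X][X]} {D₀ : K[X]} {d Bd m : ℕ} {ν : Fin m → N} {s : N}

/-- The norm of `Θ_Z` is algebraic over `K`. -/
theorem norm_alg (hINT : St_int) (hUNI : St_uni) (hDD : DD Θ D₀ d) (hBB : BB Θ Bd m)
    (hη : IsTranscendenceBasis K₀ (fun o : Option (Fin m) => o.elim s ν)) {n : ℕ}
    (x θx : Fin n → N) (hx : Function.Injective x)
    (hpt : ∀ l, IsPt Θ (D₀ ^ 4) p Bd ν s (x l) (θx l))
    (hZne : ∀ l, tZ Θ (x l) (θx l) ≠ 0)
    (hperm : ∀ (σ' : N ≃ₐ[K] N), σ' s = s → (∀ i, σ' (ν i) = ν i) →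
      ∃ τ' : Equiv.Perm (Fin n), ∀ l, σ' (x l) = x (τ' l) ∧ σ' (θx l) = θx (τ' l)) :
    IsAlgebraic K (∏ l, tZ Θ (x l) (θx l)) := by
  set η : Option (Fin m) → N := fun o => o.elim s ν with hηdef
  have hηK : IsTranscendenceBasis K η := Pool.Agent.W200.IJ.basis_down η hη
  have hηA : ∀ v, η v ∈ Algebra.adjoin K (Set.range η) := fun v =>
    Algebra.subset_adjoin ⟨v, rfl⟩
  have hint : ∀ l, IsIntegral (Algebra.adjoin K (Set.range η)) (tZ Θ (x l) (θx l)) ∧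
      IsIntegral (Algebra.adjoin K (Set.range η)) (tZ Θ (x l) (θx l))⁻¹ := by
    intro l
    have h1 := hINT p K N Θ D₀ (D₀ ^ 4) d Bd m hDD hBB rfl ν s _ _ (hpt l)
      (Algebra.adjoin K (Set.range η)) (hηA none) (fun i => hηA (some i))
    exact h1.2.2.2
  refine hUNI p K N _ η hηK _ (Finset.prod_ne_zero_iff.2 fun l _ => hZne l)
      (IsIntegral.prod _ fun l _ => (hint l).1) ?_ ?_
  · rw [← Finset.prod_inv_distrib]
    exact IsIntegral.prod _ fun l _ => (hint l).2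
  · intro σ hσ
    obtain ⟨τ, hτ⟩ := hperm σ (hσ none) (fun i => hσ (some i))
    rw [map_prod]
    have h1 : ∀ l, σ (tZ Θ (x l) (θx l)) = tZ Θ (x (τ l)) (θx (τ l)) := by
      intro l
      rw [← (hτ l).1, ← (hτ l).2]
      exact (tZ_map Θ (σ : N →ₐ[K] N) (x l) (θx l)).symm
    simp only [h1]
    exact Equiv.prod_comp τ (fun l => tZ Θ (x l) (θx l))

theorem lead_ne (hDD : DD Θ D₀ d) :
    (algebraMap K N (D₀ ^ 4).leadingCoeff) ^ (p * d) ≠ 0 := by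
  refine pow_ne_zero _ ((map_ne_zero_iff _ (algebraMap K N).injective).2 ?_)
  exact leadingCoeff_ne_zero.2 (pow_ne_zero 4 hDD.ne)

theorem tZ_ne (hDD : DD Θ D₀ d) {n : ℕ} (x θx : Fin n → N) (hx : Function.Injective x)
    (hder : ∀ l, (algebraMap K N (D₀ ^ 4).leadingCoeff) ^ (p * d) *
      ∏ j ∈ Finset.univ.erase l, (x l - x j) =
        (aeval (x l) (D₀ ^ 4)) ^ p * (s * (aeval (x l) (D₀ ^ 4)) ^ p) ^ (d - 1) *
          (tZ Θ (x l) (θx l)) ^ p) (l : Fin n) :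
    tZ Θ (x l) (θx l) ≠ 0 := by
  intro h0
  have h1 := hder l
  rw [h0, zero_pow (Nat.Prime.ne_zero Fact.out), mul_zero] at h1
  refine (mul_ne_zero (lead_ne hDD) ?_) h1
  rw [Finset.prod_ne_zero_iff]
  intro j hj
  rw [sub_ne_zero]
  exact fun h => (Finset.ne_of_mem_erase hj) (hx h).symm

theorem two_ne (K₀ : Type) [Field K₀] [CharP K₀ p] (hp2 : p ≠ 2) : (2 : K₀) ≠ 0 := by
  intro h2
  have h3 : ((2 : ℕ) : K₀) = 0 := by exact_mod_cast h2
  rw [CharP.cast_eq_zero_iff K₀ p] at h3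
  exact hp2 ((Nat.prime_dvd_prime_iff_eq Fact.out Nat.prime_two).1 h3)

theorem sgnA (hp2 : p ≠ 2) (hINT : St_int) (hPL : St_place) (hUNI : St_uni) (hPAR : St_par)
    (hDD : DD Θ D₀ d) (hBB : BB Θ Bd m) (hBe : Even Bd)
    (hn4 : 4 ∣ d * (p * (Bd + (D₀ ^ 4).natDegree)))
    (hη : IsTranscendenceBasis K₀ (fun o : Option (Fin m) => o.elim s ν))
    (x θx : Fin (d * (p * (Bd + (D₀ ^ 4).natDegree))) → N) (hx : Function.Injective x)
    (hpt : ∀ l, IsPt Θ (D₀ ^ 4) p Bd ν s (x l) (θx l))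
    (hder : ∀ l, (algebraMap K N (D₀ ^ 4).leadingCoeff) ^ (p * d) *
      ∏ j ∈ Finset.univ.erase l, (x l - x j) =
        (aeval (x l) (D₀ ^ 4)) ^ p * (s * (aeval (x l) (D₀ ^ 4)) ^ p) ^ (d - 1) *
          (tZ Θ (x l) (θx l)) ^ p)
    (hperm : ∀ (σ' : N ≃ₐ[K] N), σ' s = s → (∀ i, σ' (ν i) = ν i) →
      ∃ τ' : Equiv.Perm (Fin (d * (p * (Bd + (D₀ ^ 4).natDegree)))),
        ∀ l, σ' (x l) = x (τ' l) ∧ σ' (θx l) = θx (τ' l))
    (σ : N ≃ₐ[K] N) (τ : Equiv.Perm (Fin (d * (p * (Bd + (D₀ ^ 4).natDegree)))))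
    (hσs : σ s = s) (hτ : ∀ l, σ (x l) = x (τ l)) : Equiv.Perm.sign τ = 1 := by
  have hcN : CharP N p := charP_of_injective_algebraMap (algebraMap K N).injective p
  have hηK := Pool.Agent.W200.IJ.basis_down (M := K) _ hη
  have hs0 : s ≠ 0 := hη.1.ne_zero none
  have hZne := tZ_ne hDD x θx hx hder
  have halg := norm_alg hINT hUNI hDD hBB hη x θx hx hpt hZne hperm
  obtain ⟨e, he⟩ := hPL p K N Θ D₀ (D₀ ^ 4) d Bd m hDD hBB rfl hBe ν s hηK.1 x θx hx hpt halg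
  refine hPAR p N _ d hn4 (two_ne (p := p) N hp2) x (fun l => aeval (x l) D₀)
    (fun l => tZ Θ (x l) (θx l)) s ((algebraMap K N (D₀ ^ 4).leadingCoeff) ^ (p * d))
    (algebraMap K N e) hx (lead_ne hDD) hs0 (fun l => ?_) (by rw [he, map_pow]) (fun l => ?_)
    σ.toRingEquiv τ hτ (fun l => ?_) hσs ?_ ?_
  · have h1 := (hpt l).2.1
    rw [map_pow] at h1
    exact fun h => h1 (by rw [h, zero_pow (by norm_num)])
  · have h1 := hder l
    rw [map_pow (aeval (x l))] at h1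
    exact h1
  · change σ (aeval (x l) D₀) = aeval (x (τ l)) D₀
    rw [← hτ l]
    exact (aeval_algHom_apply (σ : N →ₐ[K] N) (x l) D₀).symm
  · change σ (_ ^ _) = _
    rw [map_pow, σ.commutes]
  · exact σ.commutes e

theorem sgnB (hp2 : p ≠ 2) (hINT : St_int) (hPL : St_placeB) (hUNI : St_uni) (hPAR : St_parB)
    (hDD : DD Θ D₀ d) (hBB : BB Θ Bd m) (hBo : Odd Bd)
    (hn2 : d * (p * (Bd + (D₀ ^ 4).natDegree)) % 4 = 2)
    (hη : IsTranscendenceBasis K₀ (fun o : Option (Fin m) => o.elim s ν))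
    (x θx : Fin (d * (p * (Bd + (D₀ ^ 4).natDegree))) → N) (hx : Function.Injective x)
    (hpt : ∀ l, IsPt Θ (D₀ ^ 4) p Bd ν s (x l) (θx l))
    (hder : ∀ l, (algebraMap K N (D₀ ^ 4).leadingCoeff) ^ (p * d) *
      ∏ j ∈ Finset.univ.erase l, (x l - x j) =
        (aeval (x l) (D₀ ^ 4)) ^ p * (s * (aeval (x l) (D₀ ^ 4)) ^ p) ^ (d - 1) *
          (tZ Θ (x l) (θx l)) ^ p)
    (hperm : ∀ (σ' : N ≃ₐ[K] N), σ' s = s → (∀ i, σ' (ν i) = ν i) →
      ∃ τ' : Equiv.Perm (Fin (d * (p * (Bd + (D₀ ^ 4).natDegree)))),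
        ∀ l, σ' (x l) = x (τ' l) ∧ σ' (θx l) = θx (τ' l))
    (ρ : N) (δ : K) (hρ0 : ρ ≠ 0) (hδ : algebraMap K N δ = ρ ^ 2) (R : K[X])
    (hR : D₀ = -(C δ * R ^ 2)) (u : ℤˣ)
    (σ : N ≃ₐ[K] N) (τ : Equiv.Perm (Fin (d * (p * (Bd + (D₀ ^ 4).natDegree)))))
    (hσs : σ s = s) (hσρ : σ ρ = ((u : ℤˣ) : ℤ) • ρ) (hτ : ∀ l, σ (x l) = x (τ l)) :
    Equiv.Perm.sign τ = u := by
  have hcN : CharP N p := charP_of_injective_algebraMap (algebraMap K N).injective p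
  have hηK := Pool.Agent.W200.IJ.basis_down (M := K) _ hη
  have hs0 : s ≠ 0 := hη.1.ne_zero none
  have hZne := tZ_ne hDD x θx hx hder
  have halg := norm_alg hINT hUNI hDD hBB hη x θx hx hpt hZne hperm
  have hpo : Odd p := (Fact.out : p.Prime).odd_of_ne_two hp2
  have hR0 : R ≠ 0 := by
    rintro rfl
    refine hDD.ne ?_
    rw [hR]
    simp
  have hδ0 : δ ≠ 0 := by
    rintro rfl
    rw [map_zero] at hδ
    exact hρ0 (pow_eq_zero_iff (two_ne_zero)|>.1 hδ.symm)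
  have hdeg : D₀.natDegree = 2 * R.natDegree := by
    rw [hR, natDegree_neg, natDegree_C_mul hδ0, natDegree_pow]
  have hlc : D₀.leadingCoeff = -(δ * R.leadingCoeff ^ 2) := by
    rw [hR, leadingCoeff_neg, leadingCoeff_mul, leadingCoeff_C, leadingCoeff_pow]
  have hev : Even D₀.natDegree := by
    rw [hdeg]
    exact even_two_mul _
  have he := hPL p K N Θ D₀ (D₀ ^ 4) d Bd m hDD hBB rfl hev ν s hηK.1 x θx hx hpt halg
  obtain ⟨c, hc⟩ : ∃ c : N, c = algebraMap K N R.leadingCoeff := ⟨_, rfl⟩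
  have hc0 : c ≠ 0 := by
    rw [hc]
    exact (map_ne_zero_iff _ (algebraMap K N).injective).2 (leadingCoeff_ne_zero.2 hR0)
  have hodd : Odd (p * Bd) := hpo.mul hBo
  have hw : ((ρ * c) ^ (p * Bd)) ^ 2 = -∏ l, tZ Θ (x l) (θx l) := by
    rw [he, hlc, map_pow, map_neg, map_mul, map_pow, hδ, ← hc, hodd.neg_pow, neg_neg, ← mul_pow,
      ← pow_mul, ← pow_mul, mul_comm 2]
  refine hPAR p N _ d hpo hn2 (two_ne (p := p) N hp2) x (fun l => aeval (x l) D₀)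
    (fun l => tZ Θ (x l) (θx l)) s ((algebraMap K N (D₀ ^ 4).leadingCoeff) ^ (p * d))
    ((ρ * c) ^ (p * Bd)) u hx (lead_ne hDD) hs0 (fun l => ?_)
    (pow_ne_zero _ (mul_ne_zero hρ0 hc0)) hw (fun l => ?_)
    σ.toRingEquiv τ hτ (fun l => ?_) hσs ?_ ?_
  · have h1 := (hpt l).2.1
    rw [map_pow] at h1
    exact fun h => h1 (by rw [h, zero_pow (by norm_num)])
  · have h1 := hder l
    rw [map_pow (aeval (x l))] at h1
    exact h1
  · change σ (aeval (x l) D₀) = aeval (x (τ l)) D₀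
    rw [← hτ l]
    exact (aeval_algHom_apply (σ : N →ₐ[K] N) (x l) D₀).symm
  · change σ (_ ^ _) = _
    rw [map_pow, σ.commutes]
  · change σ ((ρ * c) ^ (p * Bd)) = _
    have h1 : σ c = c := by
      rw [hc]
      exact σ.commutes _
    rw [map_pow, map_mul, hσρ, h1]
    rcases Int.units_eq_one_or u with rfl | rfl
    · simp
    · simp only [Units.val_neg, Units.val_one, neg_smul, one_smul, neg_mul]
      exact hodd.neg_pow _

end sgn

end Pool.Agent.N70.PP
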