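import Mathlib
import Pool.Agent.N70.PP.Sgn
import Pool.Agent.N342.EP.Grp1
import Pool.Agent.N600.NS.TwoA
import Pool.Agent.Y793.Tc

/-!
The main theorems of the project PP from its pieces.
-/

set_option autoImplicit false
set_option linter.unusedSectionVars false
set_option linter.unusedSimpArgs false

namespace Pool.Agent.N70.PP

open Polynomial Pool.Agent.H391R2 Pool.Agent.H391R2.T4 Pool.Agent.Y793 Pool.Agent.Y140.AW
open Pool.Agent.N70.EP (SgnIndex)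

/-- A square root of a character. -/
theorem exists_rho (K L : Type) [Field K] [Field L] [Algebra K L]
    [FiniteDimensional K L] [IsGalois K L] (χ : (L ≃ₐ[K] L) →* ℤˣ) :
    ∃ (ρ : L) (δ : K), ρ ≠ 0 ∧ algebraMap K L δ = ρ ^ 2 ∧
      ∀ h : L ≃ₐ[K] L, h ρ = ((χ h : ℤˣ) : ℤ) • ρ := by
  classical
  have hli : LinearIndependent L (fun h : L ≃ₐ[K] L => (h : L → L)) :=
    (linearIndependent_monoidHom L L).comp (fun h : L ≃ₐ[K] L => (h : L →* L))
      (fun h h' hh => AlgEquiv.ext fun x => DFunLike.congr_fun hh x)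
  have hx : ∃ x : L, ∑ h : L ≃ₐ[K] L, ((χ h : ℤˣ) : ℤ) • h x ≠ 0 := by
    by_contra hcon
    push Not at hcon
    have h1 := Fintype.linearIndependent_iff.1 hli
      (fun h => (((χ h : ℤˣ) : ℤ) : L)) (by
        funext x
        rw [Finset.sum_apply]
        simp only [Pi.smul_apply, smul_eq_mul, Pi.zero_apply]
        rw [← hcon x]
        refine Finset.sum_congr rfl fun h _ => ?_
        rw [zsmul_eq_mul]) 1
    rw [map_one] at h1
    simp at h1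
  obtain ⟨x, hx⟩ := hx
  set ρ := ∑ h : L ≃ₐ[K] L, ((χ h : ℤˣ) : ℤ) • h x with hρ
  have h2 : ∀ h' : L ≃ₐ[K] L, h' ρ = ((χ h' : ℤˣ) : ℤ) • ρ := by
    intro h'
    rw [hρ, map_sum, Finset.smul_sum, ← Equiv.sum_comp (Equiv.mulLeft h')
      (fun h => ((χ h' : ℤˣ) : ℤ) • ((χ h : ℤˣ) : ℤ) • h x)]
    refine Finset.sum_congr rfl fun h _ => ?_
    rw [map_zsmul, Equiv.coe_mulLeft, map_mul, smul_smul, Units.val_mul, ← mul_assoc]
    have h3 : ((χ h' : ℤˣ) : ℤ) * ((χ h' : ℤˣ) : ℤ) = 1 := by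
      rcases Int.units_eq_one_or (χ h') with h4 | h4 <;> simp [h4]
    rw [h3, one_mul]
    rfl
  have h4 : ρ ^ 2 ∈ (⊥ : IntermediateField K L) := by
    rw [IsGalois.mem_bot_iff_fixed]
    intro h
    rw [map_pow, h2, zsmul_eq_mul, mul_pow]
    rcases Int.units_eq_one_or (χ h) with h5 | h5 <;> simp [h5]
  obtain ⟨δ, hδ⟩ := IntermediateField.mem_bot.1 h4
  exact ⟨ρ, δ, hx, hδ, h2⟩

theorem sgnIndex_comap {Γ Γ' : Type} [Group Γ] [Group Γ'] (γ : Γ' ≃* Γ) (P : Subgroup Γ) (m : ℕ)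
    (ψ : Γ →* ℤˣ) (h : SgnIndex Γ P m ψ) :
    SgnIndex Γ' (P.comap (γ : Γ' →* Γ)) m (ψ.comp (γ : Γ' →* Γ)) := by
  obtain ⟨g, hg, h2⟩ := h
  have key : ∀ a b : Γ', ((a : Γ' ⧸ P.comap (γ : Γ' →* Γ)) = b) ↔ ((γ a : Γ ⧸ P) = γ b) := by
    intro a b
    rw [QuotientGroup.eq, QuotientGroup.eq, Subgroup.mem_comap]
    simp
  refine ⟨fun t => γ.symm (g t), ⟨fun t t' htt => hg.1 ?_, fun a => ?_⟩, fun a π h => ?_⟩
  · have h3 := (key _ _).1 htt
    simpa using h3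
  · obtain ⟨a, rfl⟩ := QuotientGroup.mk_surjective a
    obtain ⟨t, ht⟩ := hg.2 (γ a : Γ ⧸ P)
    refine ⟨t, (key _ _).2 ?_⟩
    simpa using ht
  · refine h2 (γ a) π fun t => ?_
    have h3 := (key _ _).1 (h t)
    simpa using h3

theorem index_of_sgnIndex {Γ : Type} [Group Γ] {P : Subgroup Γ} {m : ℕ} {ψ : Γ →* ℤˣ}
    (h : SgnIndex Γ P m ψ) : P.index = m := by
  obtain ⟨g, hg, -⟩ := h
  rw [Subgroup.index, ← Nat.card_congr (Equiv.ofBijective _ hg), Nat.card_eq_fintype_card,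
    Fintype.card_fin]

theorem exists_L {K : Type} [Field K] (Θ : K[X][X]) :
    ∃ L : ℕ, ∀ k, (Θ.coeff k).natDegree ≤ L := by
  refine ⟨(Finset.range (Θ.natDegree + 1)).sup fun k => (Θ.coeff k).natDegree, fun k => ?_⟩
  by_cases hk : k ≤ Θ.natDegree
  · exact Finset.le_sup (f := fun k => (Θ.coeff k).natDegree)
      (Finset.mem_range.2 (Nat.lt_succ_of_le hk))
  · rw [coeff_eq_zero_of_natDegree_lt (by omega), natDegree_zero]
    exact Nat.zero_le _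

/-- The pieces. -/
structure Pieces : Prop where
  mt : St_mt
  pts : St_pts
  int : St_int
  pl : St_place
  uni : St_uni
  par : St_par
  tup : St_tuple
  ind : St_indep
  lift : St_lift
  ari : St_ariP
  data : St_dataP
  plB : St_placeB
  parB : St_parB
  lcB : St_lcB
  grpA : St_grpA

section main

variable (p : ℕ) [Fact p.Prime] (hp2 : p ≠ 2) (hh : Pieces)
    {K L Z : Type} [Field K] [CharP K p] [Infinite K] [Field L] [Algebra K L]
    [FiniteDimensional K L] [IsGalois K L] [Field Z] [Algebra (RatFunc K) Z] [Algebra L Z]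
    [Algebra K Z] [IsScalarTower K (RatFunc K) Z] [IsScalarTower K L Z]
    [FiniteDimensional (RatFunc K) Z] [IsGalois (RatFunc K) Z]
    (π : (Z ≃ₐ[RatFunc K] Z) →* (L ≃ₐ[K] L))
    (hπ : ∀ (σ : Z ≃ₐ[RatFunc K] Z) (x : L), σ (algebraMap L Z x) = algebraMap L Z (π σ x))
    (hreg : ∀ y : Z, IsAlgebraic L y → y ∈ Set.range (algebraMap L Z))
    (P : Subgroup (Z ≃ₐ[RatFunc K] Z)) {B : Type} [Group B] [Finite B] (β : P →* B)
    (hβ : Function.Surjective β) (a : B →* (L ≃ₐ[K] L)) (hsurj : Function.Surjective a)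
    (ha : ∀ p : P, a (β p) = π p) (hperf : commutator a.ker = ⊤)

include hp2 hh hπ hreg hβ hsurj ha hperf

theorem oneA (n₀ : ℕ) : ∃ n ≥ n₀, RegSol K L (AltTw a 1 n) (twProj a 1 n) := by
  classical
  obtain ⟨θ, Θ, D₀, hθ, hΘ, hDD⟩ := hh.data K Z P
  obtain ⟨d, hd⟩ : ∃ d, d = P.index := ⟨_, rfl⟩
  rw [← hd] at hDD
  have hp0 : 0 < p := (Fact.out : p.Prime).pos
  have hd0 := hDD.pos
  obtain ⟨M, hM⟩ : ∃ M, M = 4 * d * p := ⟨_, rfl⟩
  have hMp : 0 < M := by rw [hM]; positivity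
  obtain ⟨L', hL⟩ := exists_L Θ
  obtain ⟨r, hr⟩ : ∃ r, r = M + 1 := ⟨_, rfl⟩
  obtain ⟨T, hT⟩ : ∃ T, T = D₀.natDegree + L' + r + 3 := ⟨_, rfl⟩
  obtain ⟨q, hq1, hq, k', hk'⟩ := exists_q M (n₀ + M * T + r + 2 * (Nat.card a.ker) ^ 2 + 2) hMp
  have hM4 : 4 ≤ M := by
    rw [hM, mul_assoc]
    nlinarith [Nat.mul_pos hd0 hp0]
  have hk : T < k' + 1 := by
    by_contra h
    have h1 : M * (k' + 1) ≤ M * T := Nat.mul_le_mul_left M (by omega)
    rw [mul_add, ← hk', mul_one] at h1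
    omega
  obtain ⟨Bd, hB⟩ : ∃ Bd, Bd = 4 * (k' + 1 - D₀.natDegree) := ⟨_, rfl⟩
  have hBδ : Bd + (D₀ ^ 4).natDegree = 4 * (k' + 1) := by
    rw [natDegree_pow, hB]
    omega
  have hnd : d * (p * (Bd + (D₀ ^ 4).natDegree)) = q + r := by
    rw [hBδ, hr]
    have h1 : d * (p * (4 * (k' + 1))) = M * k' + M := by rw [hM]; ring
    rw [h1, ← hk']
    ring
  obtain ⟨n, hn⟩ : ∃ n, n = d * (p * (Bd + (D₀ ^ 4).natDegree)) := ⟨_, rfl⟩
  have hn4 : 4 ∣ d * (p * (Bd + (D₀ ^ 4).natDegree)) := by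
    rw [hBδ]
    exact ⟨d * p * (k' + 1), by ring⟩
  have hBB : BB Θ Bd (r + 1) := ⟨by omega, by omega, fun k => by have := hL k; omega⟩
  have hBe : Even Bd := by
    rw [hB]
    exact ⟨2 * (k' + 1 - D₀.natDegree), by ring⟩
  let K₀ := AlgebraicClosure K
  let jL : L →ₐ[K] K₀ := IsAlgClosed.lift
  let iL : Algebra L K₀ := jL.toRingHom.toAlgebra
  have tKL : IsScalarTower K L K₀ := .of_algebraMap_eq fun x => (jL.commutes x).symm
  obtain ⟨N, i1, i2, i3, η, hη⟩ := exists_trb K₀ (Option (Fin (r + 1)))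
  let i4 : Algebra K N := ((algebraMap K₀ N).comp (algebraMap K K₀)).toAlgebra
  let i4L : Algebra L N := ((algebraMap K₀ N).comp (algebraMap L K₀)).toAlgebra
  have i5 : IsScalarTower K K₀ N := .of_algebraMap_eq fun _ => rfl
  have i5L : IsScalarTower L K₀ N := .of_algebraMap_eq fun _ => rfl
  have i6 : IsScalarTower K L N := .of_algebraMap_eq fun x => by
    rw [IsScalarTower.algebraMap_apply K K₀ N, IsScalarTower.algebraMap_apply K L K₀,
      ← IsScalarTower.algebraMap_apply L K₀ N]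
  obtain ⟨s, hs⟩ : ∃ s : N, s = η none := ⟨_, rfl⟩
  obtain ⟨ν, hν⟩ : ∃ ν : Fin (r + 1) → N, ν = fun i => η (some i) := ⟨_, rfl⟩
  have hη' : (fun o : Option (Fin (r + 1)) => o.elim s ν) = η := by
    funext o
    cases o with
    | none => exact hs
    | some i => rw [hν]; rfl
  rw [← hη'] at hη
  have hs0 : s ≠ 0 := hη.1.ne_zero none
  obtain ⟨x, θx, hx, hpt, hall, hder⟩ := hh.pts p K N Θ D₀ (D₀ ^ 4) d Bd (r + 1) hDD hBB rfl ν s hs0
  refine ⟨d * (p * (Bd + (D₀ ^ 4).natDegree)), by omega,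
    coreP (K₀ := K₀) (N := N) p hh.mt hh.tup hh.ind hh.lift hh.ari π hπ hreg P θ Θ hθ hΘ D₀ d hDD β hβ a
      hsurj ha hperf Bd r q _ hq hnd (by omega) (by omega)
      (lt_of_lt_of_le (by omega) (Nat.self_le_factorial _)) s ν hη x θx hx hpt hall 1 ?_⟩
  intro σ h τ hσs hσν _ hperm hτ _
  exact sgnA hp2 hh.int hh.pl hh.uni hh.par hDD hBB hBe hn4 hη x θx hx hpt hder hperm σ τ hσs hτ

theorem oneB (d : ℕ) (hd2 : d % 4 = 2) (χ : (L ≃ₐ[K] L) →* ℤˣ)
    (hidx : SgnIndex (Z ≃ₐ[RatFunc K] Z) P d (χ.comp π)) :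
    ∃ n₀ : ℕ, ∀ n ≥ n₀, Deg (d * p) n → RegSol K L (AltTw a χ n) (twProj a χ n) := by
  classical
  obtain ⟨θ, Θ, D₀, hθ, hΘ, hDD⟩ := hh.data K Z P
  rw [index_of_sgnIndex hidx] at hDD
  obtain ⟨ρ, δ, hρ0, hδ, hρ⟩ := exists_rho K L χ
  obtain ⟨R, hR⟩ := hh.lcB K L Z π hπ P d χ hd2 hidx ρ δ hρ0 hδ hρ θ Θ D₀ hθ hΘ hDD
  have hp0 : 0 < p := (Fact.out : p.Prime).pos
  have hpo : Odd p := (Fact.out : p.Prime).odd_of_ne_two hp2
  have hd0 := hDD.pos
  obtain ⟨c, hc⟩ : ∃ c, c = d * p := ⟨_, rfl⟩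
  have hc0 : 0 < c := by rw [hc]; positivity
  obtain ⟨L', hL⟩ := exists_L Θ
  obtain ⟨r, hr⟩ : ∃ r, r = c + 1 := ⟨_, rfl⟩
  obtain ⟨T, hT⟩ : ∃ T, T = 4 * D₀.natDegree + L' + r + 3 := ⟨_, rfl⟩
  refine ⟨2 * c * T + 2 * r + 2 * (Nat.card a.ker) ^ 2 + 3, fun n hn0 hn => ?_⟩
  rw [← hc] at hn
  obtain ⟨q, hq, hnq, hnc⟩ := hn
  rw [← hr] at hnq
  obtain ⟨j, hj⟩ : ∃ j, n = c * (2 * j + 1) := by
    refine ⟨n / (2 * c), ?_⟩
    have h1 := Nat.div_add_mod n (2 * c)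
    rw [hnc] at h1
    calc n = 2 * c * (n / (2 * c)) + c := h1.symm
      _ = c * (2 * (n / (2 * c)) + 1) := by ring
  have hjT : T < 2 * j + 1 := by
    by_contra h
    have h1 : c * (2 * j + 1) ≤ c * T := Nat.mul_le_mul_left c (by omega)
    have h2 : c * T ≤ 2 * c * T := by nlinarith
    omega
  obtain ⟨Bd, hB⟩ : ∃ Bd, Bd = 2 * j + 1 - 4 * D₀.natDegree := ⟨_, rfl⟩
  have hBδ : Bd + (D₀ ^ 4).natDegree = 2 * j + 1 := by
    rw [natDegree_pow, hB]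
    omega
  have hnd : d * (p * (Bd + (D₀ ^ 4).natDegree)) = n := by
    rw [hBδ, hj, hc]
    ring
  have hn2 : d * (p * (Bd + (D₀ ^ 4).natDegree)) % 4 = 2 := by
    rw [hBδ]
    obtain ⟨p', hp'⟩ := hpo
    obtain ⟨d', hd'⟩ : ∃ d', d = 4 * d' + 2 := ⟨d / 4, by omega⟩
    rw [hp', hd']
    have h1 : (4 * d' + 2) * ((2 * p' + 1) * (2 * j + 1)) =
        4 * (d' * ((2 * p' + 1) * (2 * j + 1)) + (2 * p' * j + p' + j)) + 2 := by ring
    rw [h1]
    omega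
  have hBB : BB Θ Bd (r + 1) := ⟨by omega, by omega, fun k => by have := hL k; omega⟩
  have hBo : Odd Bd := by
    rw [hB]
    exact ⟨j - 2 * D₀.natDegree, by omega⟩
  let K₀ := AlgebraicClosure K
  let jL : L →ₐ[K] K₀ := IsAlgClosed.lift
  let iL : Algebra L K₀ := jL.toRingHom.toAlgebra
  have tKL : IsScalarTower K L K₀ := .of_algebraMap_eq fun x => (jL.commutes x).symm
  obtain ⟨N, i1, i2, i3, η, hη⟩ := exists_trb K₀ (Option (Fin (r + 1)))
  let i4 : Algebra K N := ((algebraMap K₀ N).comp (algebraMap K K₀)).toAlgebra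
  let i4L : Algebra L N := ((algebraMap K₀ N).comp (algebraMap L K₀)).toAlgebra
  have i5 : IsScalarTower K K₀ N := .of_algebraMap_eq fun _ => rfl
  have i5L : IsScalarTower L K₀ N := .of_algebraMap_eq fun _ => rfl
  have i6 : IsScalarTower K L N := .of_algebraMap_eq fun x => by
    rw [IsScalarTower.algebraMap_apply K K₀ N, IsScalarTower.algebraMap_apply K L K₀,
      ← IsScalarTower.algebraMap_apply L K₀ N]
  obtain ⟨s, hs⟩ : ∃ s : N, s = η none := ⟨_, rfl⟩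
  obtain ⟨ν, hν⟩ : ∃ ν : Fin (r + 1) → N, ν = fun i => η (some i) := ⟨_, rfl⟩
  have hη' : (fun o : Option (Fin (r + 1)) => o.elim s ν) = η := by
    funext o
    cases o with
    | none => exact hs
    | some i => rw [hν]; rfl
  rw [← hη'] at hη
  have hs0 : s ≠ 0 := hη.1.ne_zero none
  obtain ⟨x, θx, hx, hpt, hall, hder⟩ := hh.pts p K N Θ D₀ (D₀ ^ 4) d Bd (r + 1) hDD hBB rfl ν s hs0
  have hc6 : 6 ≤ c := by
    have h3 : 2 ≤ d := by omega
    have h4 : 3 ≤ p := by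
      have := (Fact.out : p.Prime).two_le
      omega
    rw [hc]
    nlinarith
  have hcT : c ≤ 2 * c * T := by
    have h3 : 1 ≤ T := by omega
    nlinarith
  rw [← hnd]
  refine coreP (K₀ := K₀) (N := N) p hh.mt hh.tup hh.ind hh.lift hh.ari π hπ hreg P θ Θ hθ hΘ D₀ d hDD β hβ a
      hsurj ha hperf Bd r q _ hq (hnd.trans hnq) (by omega) (by omega)
      (lt_of_lt_of_le (by omega) (Nat.self_le_factorial _)) s ν hη x θx hx hpt hall χ ?_
  intro σ h τ hσs hσν hσL hperm hτ _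
  refine sgnB hp2 hh.int hh.plB hh.uni hh.parB hDD hBB hBo hn2 hη x θx hx hpt hder hperm
    (algebraMap L N ρ) δ ?_ ?_ R hR (χ h) σ τ hσs ?_ hτ
  · exact (map_ne_zero_iff _ (algebraMap L N).injective).2 hρ0
  · rw [← map_pow, ← hδ, ← IsScalarTower.algebraMap_apply]
  · rw [hσL, hρ, zsmul_eq_mul, zsmul_eq_mul, map_mul, map_intCast]

end main

theorem mainA (hh : Pieces) : St_mainA := by
  intro p _ hp2 K L _ _ _ _ _ _ _ B _ _ a ha hperf n₀
  obtain ⟨m, hm⟩ : ∃ m, m = Nat.card (L ≃ₐ[K] L) := ⟨_, rfl⟩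
  obtain ⟨k, hk⟩ : ∃ k, k = ((3 * Nat.card (symProj a m).ker + 2).factorial) ^ 3 := ⟨_, rfl⟩
  have hm0 : 0 < m := by
    rw [hm]
    exact Nat.card_pos
  have hk0 : 0 < k := by
    rw [hk]
    positivity
  obtain ⟨Z, i1, i2, i3, i4, i5, i6, i7, i8, γ, hγ, hreg⟩ :=
    Pool.Agent.N600.NS.reg_twofold K L B a ha m (by rw [hm]) k hk.ge
  obtain ⟨P, β, hβ, hβ2⟩ := hh.grpA (L ≃ₐ[K] L) B a ha m k hm0 hk0
  let P' := P.comap (γ : (Z ≃ₐ[RatFunc K] Z) →* SymEP (symProj a m) k)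
  have hmap : P'.map (γ : (Z ≃ₐ[RatFunc K] Z) →* SymEP (symProj a m) k) = P :=
    Subgroup.map_comap_eq_self_of_surjective γ.surjective P
  let e : P' ≃* P := (γ.subgroupMap P').trans (MulEquiv.subgroupCongr hmap)
  exact oneA p hp2 hh ((symProj (symProj a m) k).comp
      (γ : (Z ≃ₐ[RatFunc K] Z) →* SymEP (symProj a m) k)) hγ hreg P' (β.comp (e : P' →* P))
      (hβ.comp e.surjective) a ha (fun u => hβ2 (e u)) hperf n₀

theorem mainB (hh : Pieces) : St_mainB := by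
  intro p _ hp2 K L _ _ _ _ _ _ _ B _ _ a ha hperf hw r hr hr2
  have h1 : ∀ χ : (L ≃ₐ[K] L) →* ℤˣ, ∃ n₀ : ℕ, ∀ n ≥ n₀, Deg (6 * r * p) n →
      RegSol K L (AltTw a χ n) (twProj a χ n) := by
    intro χ
    have hker : Nat.card (a.comp (MonoidHom.fst B (Equiv.Perm (Fin 4)))).ker =
        24 * Nat.card a.ker := by
      have e : (a.comp (MonoidHom.fst B (Equiv.Perm (Fin 4)))).ker ≃
          Equiv.Perm (Fin 4) × a.ker :=
        { toFun := fun x => (x.1.2, ⟨x.1.1, x.2⟩)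
          invFun := fun y => ⟨(y.2.1, y.1), y.2.2⟩
          left_inv := fun x => rfl
          right_inv := fun y => rfl }
      rw [Nat.card_congr e, Nat.card_prod, Nat.card_eq_fintype_card (α := Equiv.Perm (Fin 4)),
        Fintype.card_perm, Fintype.card_fin]
      rfl
    have hws : WeakSol K L (B × Equiv.Perm (Fin 4))
        (a.comp (MonoidHom.fst B (Equiv.Perm (Fin 4)))) := by
      obtain ⟨L', i1, i2, i3, i4, i5, i6, s, hs⟩ := hw
      exact ⟨L', i1, i2, i3, i4, i5, i6, (MonoidHom.inl B (Equiv.Perm (Fin 4))).comp s, hs⟩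
    obtain ⟨Z, i1, i2, i3, i4, i5, i6, i7, i8, γ, hγ, hreg⟩ :=
      Pool.Agent.TH59.WX.reg_sym_unif K L (B × Equiv.Perm (Fin 4))
        (a.comp (MonoidHom.fst B (Equiv.Perm (Fin 4)))) hws r (by
          rw [hker]
          have h2 : 3 * (24 * Nat.card a.ker) + 2 = 72 * Nat.card a.ker + 2 := by ring
          rwa [h2])
    obtain ⟨P, β, hβ, hβ2, hidx⟩ := Pool.Agent.N342.EP.t_grp1 (L ≃ₐ[K] L) B a ha χ r hr
    let P' := P.comap (γ : (Z ≃ₐ[RatFunc K] Z) →* _)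
    have hmap : P'.map (γ : (Z ≃ₐ[RatFunc K] Z) →* _) = P :=
      Subgroup.map_comap_eq_self_of_surjective γ.surjective P
    let e : P' ≃* P := (γ.subgroupMap P').trans (MulEquiv.subgroupCongr hmap)
    have hidx' := sgnIndex_comap γ P (6 * r) _ hidx
    exact oneB p hp2 hh ((symProj (a.comp (MonoidHom.fst B (Equiv.Perm (Fin 4)))) r).comp
      (γ : (Z ≃ₐ[RatFunc K] Z) →* _)) hγ hreg P' (β.comp (e : P' →* P)) (hβ.comp e.surjective) a ha
      (fun u => hβ2 (e u)) hperf (6 * r) (by obtain ⟨r', hr'⟩ := hr; omega) χ hidx'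
  choose f hf using h1
  have hfin : Finite ((L ≃ₐ[K] L) →* ℤˣ) :=
    Finite.of_injective (fun f : (L ≃ₐ[K] L) →* ℤˣ => (f : (L ≃ₐ[K] L) → ℤˣ))
      DFunLike.coe_injective
  have hft := Fintype.ofFinite ((L ≃ₐ[K] L) →* ℤˣ)
  refine ⟨Finset.univ.sup f, fun n hn hd χ => hf χ n ?_ hd⟩
  exact (Finset.le_sup (f := f) (Finset.mem_univ χ)).trans hn

end Pool.Agent.N70.PP
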