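import Mathlib
import Pool.Agent.N70.PP.Main
import Pool.Agent.N70.PP.Stm2
import Pool.Agent.N70.EP.Ke
import Pool.Agent.N75.EP.Pul

/-!
Uniformity in the fields.
-/

set_option autoImplicit false
set_option linter.unusedSectionVars false
set_option linter.unusedSimpArgs false

namespace Pool.Agent.N70.PP

open Polynomial Pool.Agent.H391R2 Pool.Agent.H391R2.T4
open Pool.Agent.Y793 (AWr AltTw twProj regSol_iso)
open Pool.Agent.TH444.TW (RSK)
open Pool.Agent.N70.EP (twTrans ker_symm_comp pB FB exists_sec exists_kerEquiv exists_pull)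
open Pool.Agent.N600.UK (Out cls)

/-- All pieces. -/
structure Pieces2 : Prop extends Pieces where
  bchp : St_bchp
  unip : St_unip

/-- One Galois extension decides regular steps. -/
theorem transferP (hh : Pieces2) (p : ℕ) [Fact p.Prime] (H : Type) [Group H] [Finite H] :
    ∃ (K₀ L₀ : Type) (_ : Field K₀) (_ : CharP K₀ p) (_ : Infinite K₀) (_ : Field L₀)
      (_ : Algebra K₀ L₀) (_ : FiniteDimensional K₀ L₀) (_ : IsGalois K₀ L₀)
      (e₀ : (L₀ ≃ₐ[K₀] L₀) ≃* H),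
      ∀ (E : Type) [Group E] [Finite E] (α : E →* H),
        RegSol K₀ L₀ E ((e₀.symm : H →* (L₀ ≃ₐ[K₀] L₀)).comp α) → RSK (ZMod p) α := by
  obtain ⟨K₀, L₀, i1, i2, i3, i4, i5, i6, i7, e₀, huni⟩ := hh.unip p H
  refine ⟨K₀, L₀, i1, i2, i3, i4, i5, i6, i7, e₀, ?_⟩
  intro E _ _ α hα K M _ _ _ _ _ _ _ ε
  have hcK : CharP K p := charP_of_injective_algebraMap (algebraMap (ZMod p) K).injective p
  obtain ⟨K₁, L₁, j1, j2, j3, j4, j5, j6, j7, j8, j9, f, f₀, h1, h2, h3, h4⟩ := huni K M ε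
  refine h4 E (ε.symm.toMonoidHom.comp α) ?_
  have h5 := hh.bchp K₀ L₀ K₁ L₁ f₀ h2 E _ hα
  have h6 : ((f.symm : (M ≃ₐ[K] M) →* (L₁ ≃ₐ[K₁] L₁)).comp (ε.symm.toMonoidHom.comp α)) =
      ((f₀.symm : (L₀ ≃ₐ[K₀] L₀) →* (L₁ ≃ₐ[K₁] L₁)).comp
        ((e₀.symm : H →* (L₀ ≃ₐ[K₀] L₀)).comp α)) := by
    ext1 x
    change f.symm (ε.symm (α x)) = f₀.symm (e₀.symm (α x))
    rw [MulEquiv.symm_apply_eq, MulEquiv.symm_apply_eq, h3, MulEquiv.apply_symm_apply,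
      MulEquiv.apply_symm_apply]
  rw [h6]
  exact h5

theorem rsk_twP (p : ℕ) [Fact p.Prime] {H B : Type} [Group H] [Finite H] [Group B] [Finite B]
    (a : B →* H) (χ : H →* ℤˣ) (n : ℕ) {K₀ L₀ : Type} [Field K₀] [Field L₀] [Algebra K₀ L₀]
    [FiniteDimensional K₀ L₀] [IsGalois K₀ L₀] (e₀ : (L₀ ≃ₐ[K₀] L₀) ≃* H)
    (h : ∀ (E : Type) [Group E] [Finite E] (α : E →* H),
        RegSol K₀ L₀ E ((e₀.symm : H →* (L₀ ≃ₐ[K₀] L₀)).comp α) → RSK (ZMod p) α)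
    (h2 : RegSol K₀ L₀ (AltTw ((e₀.symm : H →* (L₀ ≃ₐ[K₀] L₀)).comp a)
      (χ.comp (e₀ : (L₀ ≃ₐ[K₀] L₀) →* H)) n) (twProj ((e₀.symm : H →* (L₀ ≃ₐ[K₀] L₀)).comp a)
      (χ.comp (e₀ : (L₀ ≃ₐ[K₀] L₀) →* H)) n)) : RSK (ZMod p) (twProj a χ n) := by
  have hW : Finite (Wr B n) := finite_wr B n
  have hf : Finite (AltTw a χ n) := inferInstance
  refine h _ (twProj a χ n) ?_
  refine regSol_iso K₀ L₀ _ _ _ _ (twTrans e₀ a χ n) (fun z => ?_) h2
  exact e₀.symm_apply_apply _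

theorem weak_of_split (K L B : Type) [Field K] [Field L] [Algebra K L] [FiniteDimensional K L]
    [IsGalois K L] [Group B] (a : B →* (L ≃ₐ[K] L)) (s : (L ≃ₐ[K] L) →* B)
    (hs : ∀ ρ, a (s ρ) = ρ) : WeakSol K L B a := by
  refine ⟨L, inferInstance, inferInstance, inferInstance, inferInstance, Algebra.id L,
    IsScalarTower.of_algebraMap_eq (fun _ => rfl), s, fun ρ => ?_⟩
  rw [hs]
  apply AlgEquiv.ext
  intro x
  exact (AlgEquiv.restrictNormal_commutes ρ L x).symm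

/-- The general case, uniformly in the fields. -/
theorem mainAu (hh : Pieces2) (p : ℕ) [Fact p.Prime] (hp2 : p ≠ 2) (H B : Type) [Group H]
    [Finite H] [Group B] [Finite B] (a : B →* H) (ha : Function.Surjective a)
    (hperf : commutator a.ker = ⊤) (n₀ : ℕ) : ∃ n ≥ n₀, RSK (ZMod p) (twProj a 1 n) := by
  obtain ⟨K₀, L₀, i1, i2, i3, i4, i5, i6, i7, e₀, h⟩ := transferP hh p H
  have hk := ker_symm_comp e₀ a
  obtain ⟨n, hn, h1⟩ := mainA hh.toPieces p hp2 K₀ L₀ B ((e₀.symm : H →* (L₀ ≃ₐ[K₀] L₀)).comp a)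
    (e₀.symm.surjective.comp ha) (by rw [hk]; exact hperf) n₀
  refine ⟨n, hn, rsk_twP p a 1 _ e₀ h ?_⟩
  rw [MonoidHom.one_comp]
  exact h1

/-- The split case, uniformly in the fields. -/
theorem mainBu (hh : Pieces2) (p : ℕ) [Fact p.Prime] (hp2 : p ≠ 2) (H B : Type) [Group H]
    [Finite H] [Group B] [Finite B] (a : B →* H) (s : H →* B) (hs : ∀ h, a (s h) = h)
    (hperf : commutator a.ker = ⊤) (r : ℕ) (hr : Odd r)
    (hr2 : ((72 * Nat.card a.ker + 2).factorial) ^ 3 ≤ r) :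
    ∃ n₀ : ℕ, ∀ n ≥ n₀, Deg (6 * r * p) n → ∀ χ : H →* ℤˣ, RSK (ZMod p) (twProj a χ n) := by
  obtain ⟨K₀, L₀, i1, i2, i3, i4, i5, i6, i7, e₀, h⟩ := transferP hh p H
  have hk := ker_symm_comp e₀ a
  have ha : Function.Surjective a := fun h => ⟨s h, hs h⟩
  obtain ⟨n₀, hn₀⟩ := mainB hh.toPieces p hp2 K₀ L₀ B ((e₀.symm : H →* (L₀ ≃ₐ[K₀] L₀)).comp a)
    (e₀.symm.surjective.comp ha) (by rw [hk]; exact hperf)
    (weak_of_split K₀ L₀ B _ (s.comp (e₀ : (L₀ ≃ₐ[K₀] L₀) →* H)) (fun ρ => by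
      change e₀.symm (a (s (e₀ ρ))) = ρ
      rw [hs, e₀.symm_apply_apply])) r hr (by rw [hk]; exact hr2)
  exact ⟨n₀, fun n hn hd χ => rsk_twP p a χ _ e₀ h (hn₀ n hn hd _)⟩

section ker

variable (G : Type) [Group G] [Finite G]

theorem rsk_kerP (hh : Pieces2) (p : ℕ) [Fact p.Prime] (hp2 : p ≠ 2)
    (hZ : ∀ z : G, (∀ g : G, z * g = g * z) → z = 1) (hperf : commutator G = ⊤)
    (hC : ∃ C : Subgroup (MulAut G), IsCompl C (MulAut.conj : G →* MulAut G).range)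
    (r : ℕ) (hr : Odd r) (hr2 : ((72 * Nat.card G + 2).factorial) ^ 3 ≤ r) :
    ∃ n₀ : ℕ, ∀ n ≥ n₀, Deg (6 * r * p) n → ∀ (Γ : Type) [Group Γ] [Finite Γ] (o : Γ →* Out G)
      (χ : Γ →* ℤˣ), RSK (ZMod p) (twProj (pB o) χ n) := by
  have hfin : Finite (MulAut G) := Finite.of_injective (fun a : MulAut G => (a : G → G))
    DFunLike.coe_injective
  have hfinO : Finite (Out G) := inferInstance
  have h1 : ∀ W : Subgroup (Out G × ℤˣ), ∃ n₀ : ℕ, ∀ n ≥ n₀, Deg (6 * r * p) n →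
      RSK (ZMod p) (twProj (pB ((MonoidHom.fst (Out G) ℤˣ).comp W.subtype))
        ((MonoidHom.snd (Out G) ℤˣ).comp W.subtype) n) := by
    intro W
    obtain ⟨s, hs⟩ := exists_sec ((MonoidHom.fst (Out G) ℤˣ).comp W.subtype) hC
    obtain ⟨e⟩ := exists_kerEquiv ((MonoidHom.fst (Out G) ℤˣ).comp W.subtype) hZ
    obtain ⟨n₀, hn₀⟩ := mainBu hh p hp2 W _ (pB ((MonoidHom.fst (Out G) ℤˣ).comp W.subtype)) s hs
      (Y793.perf_congr e hperf) r hr (by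
        rw [← Nat.card_congr e.toEquiv]
        exact hr2)
    exact ⟨n₀, fun n hn hd => hn₀ n hn hd _⟩
  choose κ hκ using h1
  have hfS : Finite (Subgroup (Out G × ℤˣ)) := inferInstance
  obtain ⟨k₀, hk₀⟩ : ∃ k₀, ∀ W, κ W ≤ k₀ := by
    obtain ⟨k₀, hk₀⟩ := (Set.finite_range κ).bddAbove
    exact ⟨k₀, fun W => hk₀ ⟨W, rfl⟩⟩
  refine ⟨k₀, fun n hn hd Γ _ _ o χ => ?_⟩
  let W : Subgroup (Out G × ℤˣ) := (o.prod χ).range
  let ρ : Γ →* W := (o.prod χ).rangeRestrict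
  have h2 := hκ W n ((hk₀ W).trans hn) hd
  have hW : Finite (Wr (FB ((MonoidHom.fst (Out G) ℤˣ).comp W.subtype)) n) := finite_wr _ _
  have h3 := Pool.Agent.N75.EP.t_pul (ZMod p) W _ Γ
        (twProj (pB ((MonoidHom.fst (Out G) ℤˣ).comp W.subtype))
        ((MonoidHom.snd (Out G) ℤˣ).comp W.subtype) n) ρ
        (MonoidHom.rangeRestrict_surjective _) h2
  obtain ⟨e, he⟩ := exists_pull ((MonoidHom.fst (Out G) ℤˣ).comp W.subtype) ρ
    ((MonoidHom.snd (Out G) ℤˣ).comp W.subtype) n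
  exact RSK.congr h3 e he

/-- The groups `G ≀ A_n` are kernels of regularly solvable embedding problems only. -/
theorem goodKerP (hh : Pieces2) (p : ℕ) [Fact p.Prime] (hp2 : p ≠ 2) [Nontrivial G]
    (hZ : ∀ z : G, (∀ g : G, z * g = g * z) → z = 1) (hperf : commutator G = ⊤)
    (hC : ∃ C : Subgroup (MulAut G), IsCompl C (MulAut.conj : G →* MulAut G).range)
    (r : ℕ) (hr : Odd r) (hr2 : ((72 * Nat.card G + 2).factorial) ^ 3 ≤ r) :
    ∃ n₀ : ℕ, ∀ n ≥ n₀, Deg (6 * r * p) n → ∀ (K L X : Type) [Field K] [CharP K p] [Infinite K]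
      [Field L] [Algebra K L] [FiniteDimensional K L] [IsGalois K L] [Group X]
      (α : X →* (L ≃ₐ[K] L)), Function.Surjective α → Nonempty (α.ker ≃* AWr G n) →
      RegSol K L X α := by
  obtain ⟨n₀, hn₀⟩ := rsk_kerP G hh p hp2 hZ hperf hC r hr hr2
  refine ⟨n₀ + 2 * (Nat.card G + 4), fun n hn hd => ?_⟩
  intro K L X _ _ _ _ _ _ _ _ α hα hι
  obtain ⟨o, χ, e, he⟩ := N891.EP.t_aut G hZ n (by omega) X (L ≃ₐ[K] L) α hα hι
  let _ : Algebra (ZMod p) K := ZMod.algebra K p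
  have h1 := hn₀ n (by omega) hd (L ≃ₐ[K] L) o χ K L (MulEquiv.refl _)
  refine regSol_iso K L _ _ _ _ e.symm (fun z => ?_) h1
  obtain ⟨x, rfl⟩ := e.surjective z
  rw [e.symm_apply_apply, ← he]
  rfl

end ker

end Pool.Agent.N70.PP
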