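import Mathlib
import Pool.Agent.N70.PP.Un
import Pool.Agent.Y140.AW.Fin
import Pool.Agent.N93.PP.AriP
import Pool.Agent.N519.PP.DataP
import Pool.Agent.N744.PP.PlaceB
import Pool.Agent.N234.PP.ParB
import Pool.Agent.N186.PP.GrpA
import Pool.Agent.N464.PP.LcB
import Pool.Agent.N297.PP.Bchp
import Pool.Agent.N218.PP.OneP
import Pool.Agent.N933.PP.Unip

/-!
All pieces.
-/

set_option autoImplicit false

namespace Pool.Agent.N70.PP

theorem hyp : Pieces2 where
  mt := Y688.AW.t_mt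
  pts := Y921.AW.t_pts Y421.AW.t_res
  int := Y421.AW.t_int Y421.AW.t_res
  pl := Y562.AW.t_place (Y421.AW.t_int Y421.AW.t_res) (Y730.AW.t_zero Y421.AW.t_res) Y421.AW.t_res
  uni := Y317.AW.t_uni
  par := Y436.AW.t_par
  tup := Y236.AW.t_tuple Y761.AW.t_step
  ind := Y686.AW.t_indep
  lift := Y548.AW.t_lift
  ari := N93.PP.t_ariP
  data := N519.PP.t_dataP
  plB := N744.PP.t_placeB
  parB := N234.PP.t_parB
  lcB := N464.PP.t_lcB
  grpA := N186.PP.GrpA.t_grpA
  bchp := N297.PP.t_bchp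
  unip := N933.PP.uni_ofp N218.PP.t_onep

end Pool.Agent.N70.PP
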