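import Mathlib
import Pool.Agent.N70.PP.Un
import Pool.Agent.N600.ZQ.P2

/-!
Kernels `G ≀ A_n` in odd characteristic: reduction to Frattini covers.
-/

set_option autoImplicit false
set_option linter.unusedSectionVars false
set_option linter.unusedSimpArgs false

namespace Pool.Agent.N70.PP

open Polynomial Pool.Agent.H391R2 Pool.Agent.H391R2.T4
open Pool.Agent.Y793 (AWr AltTw twProj regSol_iso)
open Pool.Agent.TH444.TW (RSK)
open Pool.Agent.N70.EP (twTrans ker_symm_comp pB FB exists_sec exists_kerEquiv exists_pull)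
open Pool.Agent.N600.UK (Out cls cls_eq_one conj_inj)
open Pool.Agent.TH377.IG (FP prFP)
open Pool.Agent.N600.ZQ (FratCover exists_frat)

/-- A homomorphism to `Aut G` gives a section. -/
theorem sec_of_lift {G Γ : Type} [Group G] [Group Γ] (a : Γ →* MulAut G) :
    ∃ s : Γ →* FB ((cls G).comp a), ∀ γ, pB ((cls G).comp a) (s γ) = γ :=
  ⟨MonoidHom.mk' (fun γ => ⟨(a γ, γ), rfl⟩)
    (fun γ γ' => Subtype.ext (Prod.ext (map_mul a _ _) rfl)), fun γ => rfl⟩

theorem rsk_kerA (G : Type) [Group G] [Finite G] (hh : Pieces2) (p : ℕ) [Fact p.Prime]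
    (hp2 : p ≠ 2) (hZ : ∀ z : G, (∀ g : G, z * g = g * z) → z = 1) (hperf : commutator G = ⊤)
    (r : ℕ) (hr : Odd r) (hr2 : ((72 * Nat.card G + 2).factorial) ^ 3 ≤ r) :
    ∃ n₀ : ℕ, ∀ n ≥ n₀, Deg (6 * r * p) n → ∀ (Γ : Type) [Group Γ] [Finite Γ]
      (a : Γ →* MulAut G) (χ : Γ →* ℤˣ), RSK (ZMod p) (twProj (pB ((cls G).comp a)) χ n) := by
  have hfin : Finite (MulAut G) := Finite.of_injective (fun a : MulAut G => (a : G → G))
    DFunLike.coe_injective
  have h1 : ∀ W : Subgroup (MulAut G × ℤˣ), ∃ n₀ : ℕ, ∀ n ≥ n₀, Deg (6 * r * p) n →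
      RSK (ZMod p) (twProj (pB ((cls G).comp ((MonoidHom.fst (MulAut G) ℤˣ).comp W.subtype)))
        ((MonoidHom.snd (MulAut G) ℤˣ).comp W.subtype) n) := by
    intro W
    obtain ⟨s, hs⟩ := sec_of_lift ((MonoidHom.fst (MulAut G) ℤˣ).comp W.subtype)
    obtain ⟨e⟩ := exists_kerEquiv ((cls G).comp ((MonoidHom.fst (MulAut G) ℤˣ).comp W.subtype)) hZ
    have hfW : Finite W := inferInstance
    obtain ⟨n₀, hn₀⟩ := mainBu hh p hp2 W _
      (pB ((cls G).comp ((MonoidHom.fst (MulAut G) ℤˣ).comp W.subtype))) s hs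
      (Y793.perf_congr e hperf) r hr (by
        rw [← Nat.card_congr e.toEquiv]
        exact hr2)
    exact ⟨n₀, fun n hn hd => hn₀ n hn hd _⟩
  choose κ hκ using h1
  have hfS : Finite (Subgroup (MulAut G × ℤˣ)) := inferInstance
  obtain ⟨k₀, hk₀⟩ : ∃ k₀, ∀ W, κ W ≤ k₀ := by
    obtain ⟨k₀, hk₀⟩ := (Set.finite_range κ).bddAbove
    exact ⟨k₀, fun W => hk₀ ⟨W, rfl⟩⟩
  refine ⟨k₀, fun n hn hd Γ _ _ a χ => ?_⟩
  let W : Subgroup (MulAut G × ℤˣ) := (a.prod χ).range
  let ρ : Γ →* W := (a.prod χ).rangeRestrict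
  have h2 := hκ W n ((hk₀ W).trans hn) hd
  have hW : Finite (Wr (FB ((cls G).comp ((MonoidHom.fst (MulAut G) ℤˣ).comp W.subtype))) n) :=
    finite_wr _ _
  have h3 := Pool.Agent.N75.EP.t_pul (ZMod p) W _ Γ
        (twProj (pB ((cls G).comp ((MonoidHom.fst (MulAut G) ℤˣ).comp W.subtype)))
        ((MonoidHom.snd (MulAut G) ℤˣ).comp W.subtype) n) ρ
        (MonoidHom.rangeRestrict_surjective _) h2
  obtain ⟨e, he⟩ := exists_pull ((cls G).comp ((MonoidHom.fst (MulAut G) ℤˣ).comp W.subtype)) ρ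
    ((MonoidHom.snd (MulAut G) ℤˣ).comp W.subtype) n
  exact RSK.congr h3 e he

/-- A complement of `Inn G` in `Aut G` gives lifts. -/
theorem lift_of_compl {G Γ : Type} [Group G] [Group Γ] (o : Γ →* Out G)
    (hC : ∃ C : Subgroup (MulAut G), IsCompl C (MulAut.conj : G →* MulAut G).range) :
    ∃ a : Γ →* MulAut G, o = (cls G).comp a := by
  obtain ⟨s, hs⟩ := exists_sec o hC
  refine ⟨(MonoidHom.fst (MulAut G) Γ).comp ((FB o).subtype.comp s), ?_⟩
  ext γ
  have h1 : cls G (s γ).1.1 = o (s γ).1.2 := (s γ).2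
  have h2 : (s γ).1.2 = γ := hs γ
  rw [h2] at h1
  exact h1.symm

/-- The two properties of `n`. -/
def GoodP (p : ℕ) [Fact p.Prime] (G : Type) [Group G] (n : ℕ) : Prop :=
  2 * (Nat.card G + 4) ≤ n ∧ ∀ (Γ : Type) [Group Γ] [Finite Γ]
      (a : Γ →* MulAut G) (χ : Γ →* ℤˣ), RSK (ZMod p) (twProj (pB ((cls G).comp a)) χ n)

/-- The complemented case. -/
theorem GoodP.compl {p : ℕ} [Fact p.Prime] {G : Type} [Group G] [Finite G] [Nontrivial G]
    (hZ : ∀ z : G, (∀ g : G, z * g = g * z) → z = 1)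
    (hC : ∃ C : Subgroup (MulAut G), IsCompl C (MulAut.conj : G →* MulAut G).range) {n : ℕ}
    (h : GoodP p G n) {X Γ : Type} [Group X] [Finite X] [Group Γ] (α : X →* Γ)
    (hα : Function.Surjective α) (hι : Nonempty (α.ker ≃* AWr G n)) : RSK (ZMod p) α := by
  have hfΓ : Finite Γ := Finite.of_surjective α hα
  obtain ⟨o, χ, e, he⟩ := N891.EP.t_aut G hZ n h.1 X Γ α hα hι
  obtain ⟨a, rfl⟩ := lift_of_compl o hC
  refine RSK.congr (h.2 Γ a χ) e.symm (fun z => ?_)
  obtain ⟨x, rfl⟩ := e.surjective z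
  rw [e.symm_apply_apply, ← he]

/-- The reduction to Frattini covers. -/
theorem GoodP.frat {p : ℕ} [Fact p.Prime] {G : Type} [Group G] [Finite G] [Nontrivial G]
    (hZ : ∀ z : G, (∀ g : G, z * g = g * z) → z = 1) {n : ℕ}
    (h : GoodP p G n) {X Γ : Type} [Group X] [Finite X] [Group Γ] (α : X →* Γ)
    (hα : Function.Surjective α) (hι : Nonempty (α.ker ≃* AWr G n)) :
    ∃ (P Q : Type) (_ : Group P) (_ : Finite P) (_ : Group Q) (_ : Finite Q) (π : Q →* Γ)
      (r : P →* Q) (q : P →* X), FratCover π ∧ Nat.card π.ker ∣ Nat.card G ∧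
        RSK (ZMod p) r ∧ Function.Surjective q := by
  have hfin : Finite (MulAut G) := Finite.of_injective (fun a : MulAut G => (a : G → G))
    DFunLike.coe_injective
  have hfΓ : Finite Γ := Finite.of_surjective α hα
  obtain ⟨o, χ, e, he⟩ := N891.EP.t_aut G hZ n h.1 X Γ α hα hι
  have hfB : Finite (FB o) := inferInstance
  have hb : Function.Surjective (pB o) := by
    intro γ
    obtain ⟨θ, hθ⟩ := QuotientGroup.mk_surjective (o γ)
    exact ⟨⟨(θ, γ), hθ⟩, rfl⟩
  obtain ⟨H, hH⟩ := exists_frat (pB o) hb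
  let π : H →* Γ := (pB o).comp H.subtype
  let a : H →* MulAut G := (MonoidHom.fst (MulAut G) Γ).comp ((FB o).subtype.comp H.subtype)
  have ha : o.comp π = (cls G).comp a := by
    ext x
    exact ((x : FB o).2).symm
  obtain ⟨e2, he2⟩ := exists_pull o π χ n
  have h1 : RSK (ZMod p) (twProj (pB (o.comp π)) (χ.comp π) n) := by
    rw [ha]
    exact h.2 H a (χ.comp π)
  have h2q : ∀ z, prFP (twProj (pB o) χ n) π (e2.symm z) =
      twProj (pB (o.comp π)) (χ.comp π) n z := by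
    intro z
    rw [← he2 (e2.symm z)]
    exact congrArg _ (e2.apply_symm_apply z)
  have h2 : RSK (ZMod p) (prFP (twProj (pB o) χ n) π) := RSK.congr h1 e2.symm h2q
  have hW : Finite (Wr (FB o) n) := finite_wr _ _
  have hfT : Finite (AltTw (pB o) χ n) := inferInstance
  have hfF : Finite (FP (twProj (pB o) χ n) π) := inferInstance
  refine ⟨FP (twProj (pB o) χ n) π, H, inferInstance, hfF, inferInstance, inferInstance, π,
    prFP (twProj (pB o) χ n) π, (e.symm : AltTw (pB o) χ n →* X).comp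
      ((MonoidHom.fst _ _).comp (FP (twProj (pB o) χ n) π).subtype), hH, ?_, h2, ?_⟩
  · obtain ⟨e3⟩ := exists_kerEquiv o hZ
    rw [Nat.card_congr e3.toEquiv]
    let u : π.ker →* (pB o).ker :=
      (H.subtype.comp π.ker.subtype).codRestrict _ (fun y => y.2)
    refine Subgroup.card_dvd_of_injective u (fun y z hyz => ?_)
    apply Subtype.ext
    apply Subtype.ext
    exact congrArg (fun w : (pB o).ker => (w : FB o)) hyz
  · intro x
    obtain ⟨c, hc⟩ := hH.1 (twProj (pB o) χ n (e x))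
    refine ⟨⟨(e x, c), hc.symm⟩, ?_⟩
    exact e.symm_apply_apply x

end Pool.Agent.N70.PP
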