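import Mathlib
import Pool.Agent.N70.PP.Ka

/-!
Kernels `G ≀ A_n` in odd characteristic: realizations.
-/

set_option autoImplicit false
set_option linter.unusedSectionVars false
set_option linter.unusedSimpArgs false

namespace Pool.Agent.N70.PP

open Nfff32c05
open Pool.Agent.H391R2 (Wr isRealizable_of isRealizable_quotient)
open Pool.Agent.H391R2.T4 (RegSol WeakSol HilbField finite_wr)
open Pool.Agent.Y793 (AWr AltTw twProj regSol_iso)
open Pool.Agent.TH59.WX (exists_gal_of)
open Pool.Agent.TH444.TW (RS RSK RegularOver regSol_of_regularOver)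
open Pool.Agent.N600.UK (reg_quot regularOver_of_regSol cl_of_center)
open Pool.Agent.TH377.IG (SpecProp spec_hilb spec_ratFunc)
open Pool.Agent.N600.ZQ (FratCover ReducesP RealizedP SameP reducesP_of realizedP_of pgroup_rsk
  rs_zgroup)

section real

variable {p : ℕ} [Fact p.Prime]

/-- Change of the ground field. -/
theorem rsk_field {W W' : Type} [Group W] [Group W'] {r : W' →* W} (h : RSK (ZMod p) r)
    (K : Type) [Field K] [CharP K p] : RSK K r := by
  intro K' M _ _ _ _ _ _ _ ε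
  have : CharP K' p := charP_of_injective_algebraMap (algebraMap K K').injective p
  let _ : Algebra (ZMod p) K' := ZMod.algebra K' p
  exact h K' M ε

/-- Quotients. -/
theorem reducesP_quot {X Y : Type} [Group X] [Finite X] [Group Y] (q : X →* Y)
    (hq : Function.Surjective q) : ReducesP p X Y := by
  have hto : ∀ (K : Type) [Field K], IsRealizable K X → IsRealizable K Y := by
    intro K _ h
    obtain ⟨L, i1, i2, i3, i4, ⟨f⟩⟩ := exists_gal_of K X h
    exact isRealizable_quotient L (q.comp f.symm.toMonoidHom) (hq.comp f.symm.surjective)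
  refine ⟨fun κ _ _ _ => hto _, fun K _ _ _ => hto K, fun K _ _ h => ?_⟩
  refine regularOver_of_regSol ?_
  exact reg_quot 1 1 q hq (fun y => rfl) (regSol_of_regularOver h)

theorem sameP_of {X Y : Type} [Group X] [Group Y] (h1 : ReducesP p X Y) (h2 : ReducesP p Y X) :
    SameP p X Y :=
  ⟨fun κ _ _ _ => ⟨h1.1 κ, h2.1 κ⟩, fun K _ _ hK => ⟨h1.2.1 K hK, h2.2.1 K hK⟩,
    fun K _ _ => ⟨h1.2.2 K, h2.2.2 K⟩⟩

/-- Regular steps do not change realizability. -/
theorem sameP_of_rsk {X Y : Type} [Group X] [Finite X] [Group Y] (q : X →* Y)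
    (hq : Function.Surjective q) (h : RSK (ZMod p) q) : SameP p X Y := by
  have hfY : Finite Y := Finite.of_surjective q hq
  refine sameP_of (reducesP_quot q hq) ?_
  exact reducesP_of q (fun K _ _ => rsk_field h K) (MonoidHom.id X) Function.surjective_id

/-- Regular solutions over all fields. -/
theorem reg_all {X Y : Type} [Group X] [Finite X] [Group Y] {q : X →* Y} (h : RSK (ZMod p) q)
    (K L : Type) [Field K] [CharP K p] [Field L] [Algebra K L] [FiniteDimensional K L]
    [IsGalois K L] (ε : (L ≃ₐ[K] L) ≃* Y) : RegSol K L X (ε.symm.toMonoidHom.comp q) :=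
  (rsk_field h K).all L ε

/-- Proper solutions over fields with the specialization property. -/
theorem prop_all {X Y : Type} [Group X] [Finite X] [Group Y] {q : X →* Y} (h : RSK (ZMod p) q)
    (K L : Type) [Field K] [CharP K p] (hK : SpecProp K) [Field L] [Algebra K L]
    [FiniteDimensional K L] [IsGalois K L] (ε : (L ≃ₐ[K] L) ≃* Y) :
    ∃ (F : Type) (_ : Field F) (_ : Algebra K F) (_ : Algebra L F) (_ : IsScalarTower K L F),
      FiniteDimensional K F ∧ IsGalois K F ∧
      ∃ γ : (F ≃ₐ[K] F) ≃* X, ∀ σ : F ≃ₐ[K] F,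
        (ε.symm.toMonoidHom.comp q) (γ σ) = σ.restrictNormal L := by
  obtain ⟨F, j1, j2, j3, j4, j5, j6, j7, j8, γ', hγ', -⟩ := reg_all h K L ε
  exact hK L X _ ⟨F, j1, j2, j3, j4, j5, j6, j7, j8, γ', hγ'⟩

end real

section main

variable {p : ℕ} [Fact p.Prime] {G : Type} [Group G] [Finite G] [Nontrivial G]
  (hZ : ∀ z : G, (∀ g : G, z * g = g * z) → z = 1) {n : ℕ} (hn : GoodP p G n)
  (X : Type) [Group X] (N : Subgroup X) [N.Normal]
  (hN : Nonempty (N ≃* AWr G n)) (hfin : Finite (X ⧸ N))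

include hN hfin in
theorem finX : Finite X := by
  obtain ⟨e⟩ := hN
  have hW : Finite (Wr G n) := finite_wr G n
  have h1 : Finite (AWr G n) := Finite.of_injective Subtype.val Subtype.val_injective
  have h2 : Finite N := Finite.of_equiv _ e.symm.toEquiv
  exact Finite.of_subgroup_quotient N

include hZ hn hN hfin

/-- **The complemented case.** -/
theorem compl_main (hC : ∃ C : Subgroup (MulAut G), IsCompl C (MulAut.conj : G →* MulAut G).range)
    (P : Subgroup (X ⧸ N)) [P.Normal] (hP : IsPGroup p P) : SameP p X ((X ⧸ N) ⧸ P) := by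
  have hfinX : Finite X := finX X N hN hfin
  have h1 : RSK (ZMod p) (QuotientGroup.mk' N) :=
    GoodP.compl hZ hC hn _ (QuotientGroup.mk'_surjective N)
      (hN.map fun e => (MulEquiv.subgroupCongr (QuotientGroup.ker_mk' N)).trans e)
  have h2 : RSK (ZMod p) (QuotientGroup.mk' P) :=
    pgroup_rsk p (ZMod p) (QuotientGroup.mk' P) (QuotientGroup.mk'_surjective P) (by
      rw [QuotientGroup.ker_mk']
      exact hP)
  exact sameP_of_rsk ((QuotientGroup.mk' P).comp (QuotientGroup.mk' N))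
    ((QuotientGroup.mk'_surjective P).comp (QuotientGroup.mk'_surjective N)) (RSK.comp h2 h1)

variable (P : Subgroup (X ⧸ N)) [P.Normal] (hP : IsPGroup p P)

include hP

/-- **The reduction to Frattini covers.** -/
theorem frat_aux :
    ∃ (W Q : Type) (_ : Group W) (_ : Finite W) (_ : Group Q) (_ : Finite Q)
      (π : Q →* (X ⧸ N) ⧸ P) (r : W →* Q) (q : W →* X), FratCover π ∧ ¬ p ∣ Nat.card π.ker ∧
        Nat.card π.ker ∣ Nat.card G ∧
        (∀ (K : Type) [Field K] [CharP K p], RSK K r) ∧ Function.Surjective q := by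
  have hfinX : Finite X := finX X N hN hfin
  obtain ⟨W, Q₀, iW, fW, iQ, fQ, π₀, r₀, q, hfr, hcard, hr₀, hq⟩ :=
    GoodP.frat hZ hn (QuotientGroup.mk' N) (QuotientGroup.mk'_surjective N)
      (hN.map fun e => (MulEquiv.subgroupCongr (QuotientGroup.ker_mk' N)).trans e)
  obtain ⟨S, hS, π₁, hSp, hfr₁, hnd, hdvd⟩ := hfr.pquot p P hP
  refine ⟨W, Q₀ ⧸ S, iW, fW, inferInstance, inferInstance, π₁, (QuotientGroup.mk' S).comp r₀, q,
    hfr₁, hnd, hdvd.trans hcard, ?_, hq⟩
  intro K _ _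
  refine RSK.comp (pgroup_rsk p K (QuotientGroup.mk' S) (QuotientGroup.mk'_surjective S) ?_)
    (rsk_field hr₀ K)
  rw [QuotientGroup.ker_mk']
  exact hSp

theorem frat_main :
    ∃ (Q : Type) (_ : Group Q) (_ : Finite Q) (π : Q →* (X ⧸ N) ⧸ P), FratCover π ∧
      Group.IsNilpotent π.ker ∧ ¬ p ∣ Nat.card π.ker ∧ Nat.card π.ker ∣ Nat.card G ∧
      (∀ l : ℕ, l.Prime → l ∣ Nat.card π.ker → l ∣ Nat.card ((X ⧸ N) ⧸ P)) ∧
      ReducesP p Q X := by
  have hfinX : Finite X := finX X N hN hfin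
  obtain ⟨W, Q, iW, fW, iQ, fQ, π, r, q, h1, h2, h3, h4, h5⟩ := frat_aux hZ hn X N hN hfin P hP
  refine ⟨Q, iQ, fQ, π, h1, h1.ker_nilpotent, h2, h3, fun l hl hlk => ?_, reducesP_of r h4 q h5⟩
  exact h1.prime l hl (hlk.trans (Subgroup.card_subgroup_dvd_card _))

/-- **Coprime quotients.** -/
theorem cop_main (hcop : ∀ l : ℕ, l.Prime → l ≠ p → l ∣ Nat.card ((X ⧸ N) ⧸ P) →
    ¬ l ∣ Nat.card G) : SameP p X ((X ⧸ N) ⧸ P) := by
  have hfinX : Finite X := finX X N hN hfin
  obtain ⟨Q, iQ, fQ, π, h1, -, h2, h3, h4, h5⟩ := frat_main hZ hn X N hN hfin P hP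
  have hone : Nat.card π.ker = 1 := by
    by_contra hne
    obtain ⟨l, hl, hlk⟩ := Nat.exists_prime_and_dvd hne
    refine hcop l hl ?_ (h4 l hl hlk) (hlk.trans h3)
    rintro rfl
    exact h2 hlk
  have hbot : π.ker = ⊥ := Subgroup.card_eq_one.1 hone
  let E : Q ≃* (X ⧸ N) ⧸ P := MulEquiv.ofBijective π ⟨(MonoidHom.ker_eq_bot_iff π).1 hbot, h1.1⟩
  have h6 : ReducesP p ((X ⧸ N) ⧸ P) Q := reducesP_quot E.symm.toMonoidHom E.symm.surjective
  refine sameP_of (reducesP_quot ((QuotientGroup.mk' P).comp (QuotientGroup.mk' N))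
    ((QuotientGroup.mk'_surjective P).comp (QuotientGroup.mk'_surjective N))) ?_
  exact ⟨fun κ _ _ _ h => h5.1 κ (h6.1 κ h), fun K _ _ hK h => h5.2.1 K hK (h6.2.1 K hK h),
    fun K _ _ h => h5.2.2 K (h6.2.2 K h)⟩

/-- **Quotients with cyclic Sylow subgroups up to a normal `p`-subgroup.** -/
theorem z_main [IsZGroup ((X ⧸ N) ⧸ P)] : RealizedP p X := by
  have hfinX : Finite X := finX X N hN hfin
  obtain ⟨W, Q, iW, fW, iQ, fQ, π, r, q, h1, h2, h3, h4, h5⟩ := frat_aux hZ hn X N hN hfin P hP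
  have hz : IsZGroup Q := h1.zgroup
  refine realizedP_of fun K _ _ => ?_
  exact RSK.quot q h5 (fun y => rfl) (RSK.comp (rs_zgroup Q).rsk (h4 K))

end main

end Pool.Agent.N70.PP
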