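import Mathlib
import Pool.Agent.N70.PP.Kb

/-!
Alternating fibre powers in odd characteristic: weakly solvable problems.
-/

set_option autoImplicit false
set_option linter.unusedSectionVars false
set_option linter.unusedSimpArgs false

namespace Pool.Agent.N70.PP

open Nfff32c05
open Pool.Agent.H391R2 (Wr isRealizable_of isRealizable_quotient)
open Pool.Agent.H391R2.T4 (RegSol WeakSol HilbField finite_wr)
open Pool.Agent.Y793 (AWr AltTw twProj regSol_iso)
open Pool.Agent.TH444.TW (RS RSK RegularOver regSol_of_regularOver)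
open Pool.Agent.TH377.IG (SpecProp FP prFP)
open Pool.Agent.N600.ZQ (ReducesP SameP reducesP_of)

section tw

variable {B W : Type} [Group B] [Group W] (α : B →* W) (χ : W →* ℤˣ) (n : ℕ) (D : Subgroup B)

/-- The restriction to `D`. -/
def aD : D →* W := α.comp D.subtype

/-- The first projection of the fibre product. -/
def fstD : FP α (aD α D) →* B := (MonoidHom.fst B D).comp (FP α (aD α D)).subtype

/-- The map of the twisted fibre powers. -/
def twQ : AltTw (prFP α (aD α D)) (χ.comp (aD α D)) n →* AltTw α χ n where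
  toFun z := ⟨(Pool.Agent.H391R2.V.wmap n (fstD α D) z.1.1, aD α D z.1.2),
    Subgroup.mem_inf.2 ⟨fun i => by
      have h1 : (z.1.1.left i).1.2 = z.1.2 := (Subgroup.mem_inf.1 z.2).1 i
      have h2 : α (z.1.1.left i).1.1 = aD α D (z.1.1.left i).1.2 := (z.1.1.left i).2
      rw [h1] at h2
      exact h2, (Subgroup.mem_inf.1 z.2).2⟩⟩
  map_one' := by
    apply Subtype.ext
    refine Prod.ext ?_ ?_
    · exact map_one (Pool.Agent.H391R2.V.wmap n (fstD α D))
    · exact map_one (aD α D)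
  map_mul' z w := by
    apply Subtype.ext
    refine Prod.ext ?_ ?_
    · exact map_mul (Pool.Agent.H391R2.V.wmap n (fstD α D)) _ _
    · exact map_mul (aD α D) _ _

theorem twQ_pr (z : AltTw (prFP α (aD α D)) (χ.comp (aD α D)) n) :
    twProj α χ n (twQ α χ n D z) = aD α D (twProj (prFP α (aD α D)) (χ.comp (aD α D)) n z) := rfl

/-- Elements of the fibre power with given projection. -/
theorem twQ_lift (y : AltTw α χ n) (d : D) (hd : twProj α χ n y = aD α D d) :
    ∃ z : AltTw (prFP α (aD α D)) (χ.comp (aD α D)) n, twQ α χ n D z = y ∧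
      twProj (prFP α (aD α D)) (χ.comp (aD α D)) n z = d := by
  obtain ⟨⟨y, w⟩, hy⟩ := y
  have hw : w = aD α D d := hd
  subst hw
  have hy1 : ∀ i, α (y.left i) = aD α D d := fun i => (Subgroup.mem_inf.1 hy).1 i
  have hy2 : Equiv.Perm.sign y.right = χ (aD α D d) := (Subgroup.mem_inf.1 hy).2
  refine ⟨⟨(⟨fun i => ⟨(y.left i, d), hy1 i⟩, y.right⟩, d),
    Subgroup.mem_inf.2 ⟨fun i => rfl, hy2⟩⟩, ?_, rfl⟩
  apply Subtype.ext
  refine Prod.ext ?_ rfl
  apply SemidirectProduct.ext
  · funext i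
    rfl
  · rfl

theorem twQ_surj (hD : Function.Surjective (aD α D)) : Function.Surjective (twQ α χ n D) := by
  intro y
  obtain ⟨d, hd⟩ := hD (twProj α χ n y)
  obtain ⟨z, hz, -⟩ := twQ_lift α χ n D y d hd.symm
  exact ⟨z, hz⟩

/-- The map from the pull-back. -/
def fibQ {Γ : Type} [Group Γ] (ρ : Γ →* D) :
    FP (twProj (prFP α (aD α D)) (χ.comp (aD α D)) n) ρ →* AltTw α χ n :=
  (twQ α χ n D).comp ((MonoidHom.fst _ _).comp
    (FP (twProj (prFP α (aD α D)) (χ.comp (aD α D)) n) ρ).subtype)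

theorem fibQ_pr {Γ : Type} [Group Γ] (ρ : Γ →* D)
    (u : FP (twProj (prFP α (aD α D)) (χ.comp (aD α D)) n) ρ) :
    twProj α χ n (fibQ α χ n D ρ u) =
      aD α D (ρ (prFP (twProj (prFP α (aD α D)) (χ.comp (aD α D)) n) ρ u)) :=
  congrArg (aD α D) u.2

theorem fibQ_lift {Γ : Type} [Group Γ] (ρ : Γ →* D) (y : AltTw α χ n) (σ : Γ)
    (h : twProj α χ n y = aD α D (ρ σ)) :
    ∃ u, fibQ α χ n D ρ u = y ∧
      prFP (twProj (prFP α (aD α D)) (χ.comp (aD α D)) n) ρ u = σ := by
  obtain ⟨z, hz, hz2⟩ := twQ_lift α χ n D y (ρ σ) h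
  exact ⟨⟨(z, σ), hz2⟩, hz, rfl⟩

end tw

section main

variable {p : ℕ} [Fact p.Prime]

/-- The kernel of the pull-back. -/
theorem kerD {B W : Type} [Group B] [Group W] (α : B →* W) (D : Subgroup B) :
    Nonempty (α.ker ≃* (prFP α (aD α D)).ker) := by
  let f : α.ker →* (prFP α (aD α D)).ker :=
    { toFun := fun b => ⟨⟨((b : B), 1), by
        change α b = aD α D 1
        rw [map_one]
        exact b.2⟩, rfl⟩
      map_one' := rfl
      map_mul' := fun b c => by
        apply Subtype.ext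
        apply Subtype.ext
        exact Prod.ext rfl (mul_one 1).symm }
  refine ⟨MulEquiv.ofBijective f ⟨?_, ?_⟩⟩
  · intro b c hbc
    apply Subtype.ext
    exact congrArg (fun z : (prFP α (aD α D)).ker => (z : FP α (aD α D)).1.1) hbc
  · rintro ⟨⟨⟨b, d⟩, h1⟩, h2⟩
    have hd : d = 1 := h2
    subst hd
    have h3 : α b = aD α D 1 := h1
    rw [map_one] at h3
    exact ⟨⟨b, h3⟩, rfl⟩

/-- The property of `n`. -/
def FibP (p : ℕ) [Fact p.Prime] {B W : Type} [Group B] [Group W] (α : B →* W) (n : ℕ) : Prop :=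
  ∀ (χ : W →* ℤˣ) (D : Subgroup B), Function.Surjective (aD α D) →
    RSK (ZMod p) (twProj (prFP α (aD α D)) (χ.comp (aD α D)) n)

theorem fibP_main (hh : Pieces2) (hp2 : p ≠ 2) (B W : Type) [Group B] [Finite B] [Group W]
    [Finite W] (α : B →* W) (hperf : commutator α.ker = ⊤) (r : ℕ) (hr : Odd r)
    (hr2 : ((72 * Nat.card α.ker + 2).factorial) ^ 3 ≤ r) :
    ∃ n₀ : ℕ, ∀ n ≥ n₀, Deg (6 * r * p) n → FibP p α n := by
  have h1 : ∀ D : Subgroup B, ∃ n₀ : ℕ, ∀ n ≥ n₀, Deg (6 * r * p) n → ∀ χ : D →* ℤˣ,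
      RSK (ZMod p) (twProj (prFP α (aD α D)) χ n) := by
    intro D
    obtain ⟨e⟩ := kerD α D
    have hfD : Finite D := inferInstance
    have hfF : Finite (FP α (aD α D)) := inferInstance
    refine mainBu hh p hp2 D (FP α (aD α D)) (prFP α (aD α D))
      { toFun := fun d => ⟨((d : B), d), rfl⟩
        map_one' := rfl
        map_mul' := fun _ _ => rfl } (fun d => rfl) (Y793.perf_congr e hperf) r hr ?_
    rw [← Nat.card_congr e.toEquiv]
    exact hr2
  choose κ hκ using h1
  have hfS : Finite (Subgroup B) := inferInstance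
  obtain ⟨k₀, hk₀⟩ : ∃ k₀, ∀ D, κ D ≤ k₀ := by
    obtain ⟨k₀, hk₀⟩ := (Set.finite_range κ).bddAbove
    exact ⟨k₀, fun D => hk₀ ⟨D, rfl⟩⟩
  exact ⟨k₀, fun n hn hd χ D _ => hκ D n ((hk₀ D).trans hn) hd _⟩

/-- Realizations of `D` give realizations of the fibre powers. -/
theorem FibP.red {B W : Type} [Group B] [Finite B] [Group W] [Finite W] {α : B →* W} {n : ℕ}
    (h : FibP p α n) (χ : W →* ℤˣ) (D : Subgroup B) (hD : Function.Surjective (aD α D)) :
    ReducesP p D (AltTw α χ n) := by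
  have hfF : Finite (FP α (aD α D)) := inferInstance
  have hW : Finite (Wr (FP α (aD α D)) n) := finite_wr _ _
  have hW2 : Finite (Wr B n) := finite_wr _ _
  have hf1 : Finite (AltTw (prFP α (aD α D)) (χ.comp (aD α D)) n) := inferInstance
  have hf2 : Finite (AltTw α χ n) := inferInstance
  exact reducesP_of (twProj (prFP α (aD α D)) (χ.comp (aD α D)) n)
    (fun K _ _ => rsk_field (h χ D hD) K) (twQ α χ n D) (twQ_surj α χ n D hD)

/-- Weakly solvable problems have regular solutions. -/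
theorem FibP.weak {B W : Type} [Group B] [Finite B] [Group W] [Finite W] {α : B →* W} {n : ℕ}
    (h : FibP p α n) (χ : W →* ℤˣ) (K L : Type) [Field K] [CharP K p] [Field L] [Algebra K L]
    [FiniteDimensional K L] [IsGalois K L] (ε : (L ≃ₐ[K] L) ≃* W)
    (hw : WeakSol K L B (ε.symm.toMonoidHom.comp α)) :
    RegSol K L (AltTw α χ n) (ε.symm.toMonoidHom.comp (twProj α χ n)) := by
  obtain ⟨L', i1, i2, i3, i4, i5, i6, s, hs⟩ := hw
  have hs' : ∀ ρ, α (s ρ) = ε (ρ.restrictNormal L) := by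
    intro ρ
    rw [← hs ρ]
    exact (ε.apply_symm_apply _).symm
  have hres : Function.Surjective (AlgEquiv.restrictNormalHom L : (L' ≃ₐ[K] L') →* (L ≃ₐ[K] L)) :=
    AlgEquiv.restrictNormalHom_surjective L'
  have hD : Function.Surjective (aD α s.range) := by
    intro w
    obtain ⟨ρ, hρ⟩ := hres (ε.symm w)
    refine ⟨⟨s ρ, ρ, rfl⟩, ?_⟩
    change α (s ρ) = w
    rw [hs']
    change ε (AlgEquiv.restrictNormalHom L ρ) = w
    rw [hρ, ε.apply_symm_apply]
  have hfF : Finite (FP α (aD α s.range)) := inferInstance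
  have hW : Finite (Wr (FP α (aD α s.range)) n) := finite_wr _ _
  have hW2 : Finite (Wr B n) := finite_wr _ _
  have hf1 : Finite (AltTw (prFP α (aD α s.range)) (χ.comp (aD α s.range)) n) := inferInstance
  have hf2 : Finite (AltTw α χ n) := inferInstance
  have h1 := Pool.Agent.N75.EP.t_pul (ZMod p) s.range _ (L' ≃ₐ[K] L')
    (twProj (prFP α (aD α s.range)) (χ.comp (aD α s.range)) n) s.rangeRestrict
    (MonoidHom.rangeRestrict_surjective _) (h χ s.range hD)
  have hf3 : Finite (FP (twProj (prFP α (aD α s.range)) (χ.comp (aD α s.range)) n)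
    s.rangeRestrict) := inferInstance
  have h2 := reg_all h1 K L' (MulEquiv.refl _)
  refine Pool.Agent.W200.IJ.regSol_quot (L' := L') _ _
    (fibQ α χ n s.range s.rangeRestrict) ?_ ?_ ?_ h2
  · intro y
    obtain ⟨d, hd⟩ := hD (twProj α χ n y)
    obtain ⟨ρ, hρ⟩ := MonoidHom.rangeRestrict_surjective s d
    obtain ⟨u, hu, -⟩ := fibQ_lift α χ n s.range s.rangeRestrict y ρ (by rw [hρ, hd])
    exact ⟨u, hu⟩
  · intro u
    have h3 := fibQ_pr α χ n s.range s.rangeRestrict u
    have h4 : twProj α χ n (fibQ α χ n s.range s.rangeRestrict u) =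
        ε ((prFP (twProj (prFP α (aD α s.range)) (χ.comp (aD α s.range)) n)
          s.rangeRestrict u).restrictNormal L) := h3.trans (hs' _)
    change ε.symm (twProj α χ n (fibQ α χ n s.range s.rangeRestrict u)) = _
    rw [h4, ε.symm_apply_apply]
    rfl
  · intro ρ hρ
    have h3 : aD α s.range (s.rangeRestrict ρ) = 1 := by
      change α (s ρ) = 1
      rw [hs', hρ, map_one]
    refine fibQ_lift α χ n s.range s.rangeRestrict _ ρ ?_
    rw [h3]
    exact map_one (twProj α χ n)

end main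

end Pool.Agent.N70.PP
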