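import Mathlib
import Pool.Agent.N70.EP.Voc

/-!
# Vocabulary: realizations in characteristic `p`

`Pool.Agent.N70.EP.Voc` has the definitions `Wreath` (the wreath product `B ≀ S_n`), `TwPow`, `twPr`
(the twisted alternating fibre powers and their projection), `RegularSolution`, `ProperSolution`,
`WeakSolutionOver` (solutions of embedding problems).
-/

set_option autoImplicit false

namespace Pool.Agent.N70.PP.Voc

open Pool.Agent.N70.EP.Voc

/-- `G` occurs over `F`: it is the Galois group of a finite Galois extension of `F`. -/
def Occurs (F G : Type) [Field F] [Group G] : Prop :=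
  ∃ (L : Type) (_ : Field L) (_ : Algebra F L),
    FiniteDimensional F L ∧ IsGalois F L ∧ Nonempty ((L ≃ₐ[F] L) ≃* G)

/-- `G` occurs regularly over `K`: it is the Galois group of a finite Galois extension of `K(t)` in
which `K` is algebraically closed. -/
def OccursRegularly (K G : Type) [Field K] [Group G] : Prop :=
  ∃ (F : Type) (_ : Field F) (_ : Algebra (RatFunc K) F) (_ : Algebra K F)
    (_ : IsScalarTower K (RatFunc K) F) (_ : FiniteDimensional (RatFunc K) F)
    (_ : IsGalois (RatFunc K) F),
    Nonempty ((F ≃ₐ[RatFunc K] F) ≃* G) ∧
    ∀ y : F, IsAlgebraic K y → y ∈ Set.range (algebraMap K F)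

/-- `K` is Hilbertian (in the form used in frozen statement S03429). -/
def Hilbertian (K : Type) [Field K] : Prop :=
  ∀ (f : Polynomial (Polynomial K)), f.Monic → Irreducible f →
    (f.map (algebraMap (Polynomial K) (FractionRing (Polynomial K)))).Separable →
    ∀ g : Polynomial K, g ≠ 0 →
      ∃ a : K, g.eval a ≠ 0 ∧ Irreducible (f.map (Polynomial.evalRingHom a))

/-- `X` occurs over the rational function field `k(X)` of every field `k` of characteristic `p` (for
example `F_p`) over which `Y` occurs, over every Hilbertian field of characteristic `p` over which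
`Y` occurs, and regularly over every field of characteristic `p` over which `Y` does. -/
def OccursIf (p : ℕ) (X Y : Type) [Group X] [Group Y] : Prop :=
  (∀ (k : Type) [Field k] [CharP k p], Occurs (RatFunc k) Y → Occurs (RatFunc k) X) ∧
  (∀ (K : Type) [Field K] [CharP K p], Hilbertian K → Occurs K Y → Occurs K X) ∧
  (∀ (K : Type) [Field K] [CharP K p], OccursRegularly K Y → OccursRegularly K X)

/-- `X` and `Y` occur over the same fields of the three kinds. -/
def OccursIff (p : ℕ) (X Y : Type) [Group X] [Group Y] : Prop :=
  (∀ (k : Type) [Field k] [CharP k p], Occurs (RatFunc k) X ↔ Occurs (RatFunc k) Y) ∧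
  (∀ (K : Type) [Field K] [CharP K p], Hilbertian K → (Occurs K X ↔ Occurs K Y)) ∧
  (∀ (K : Type) [Field K] [CharP K p], OccursRegularly K X ↔ OccursRegularly K Y)

/-- `X` occurs over all fields of the three kinds. -/
def OccursAll (p : ℕ) (X : Type) [Group X] : Prop :=
  (∀ (k : Type) [Field k] [CharP k p], Occurs (RatFunc k) X) ∧
  (∀ (K : Type) [Field K] [CharP K p], Hilbertian K → Occurs K X) ∧
  (∀ (K : Type) [Field K] [CharP K p], OccursRegularly K X)

/-- The embedding problem `π : E → Gal(L/K)` has a regular solution over `K(t)` and, if `K` is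
Hilbertian, a proper solution over `K`. -/
def Solvable {K L E : Type} [Field K] [Field L] [Algebra K L] [Normal K L] [Group E]
    (π : E →* (L ≃ₐ[K] L)) : Prop :=
  RegularSolution π ∧ (Hilbertian K → ProperSolution π)

/-- All embedding problems given by `π : E → W` and a finite Galois extension with group `W` of a
field of characteristic `p` are solvable. -/
def SolvableAll (p : ℕ) {E W : Type} [Group E] [Group W] (π : E →* W) : Prop :=
  ∀ (K L : Type) [Field K] [CharP K p] [Field L] [Algebra K L] [FiniteDimensional K L]
    [IsGalois K L] (ε : (L ≃ₐ[K] L) ≃* W), Solvable (ε.symm.toMonoidHom.comp π)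

/-- All finite solvable groups occur over `K`: this is the theorem of Shafarevich if `K` is a
global field. -/
def SolvableOccur (K : Type) [Field K] : Prop :=
  ∀ (Q : Type) [Group Q] [Finite Q], Group.IsSolvable Q → Occurs K Q

end Pool.Agent.N70.PP.Voc
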