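import Mathlib
import Pool.Agent.N70.PP.Voc
import Pool.Agent.N70.PP.Fp
import Pool.Agent.N70.PP.Fin
import Pool.Agent.Y140.HD.Hilb

/-!
Translation of the vocabulary; the theorems on fibre powers.
-/

set_option autoImplicit false
set_option linter.unusedSectionVars false
set_option linter.unusedSimpArgs false

namespace Pool.Agent.N70.PP

open Nfff32c05
open Pool.Agent.H391R2 (Wr isRealizable_of isRealizable_quotient)
open Pool.Agent.H391R2.T4 (RegSol WeakSol HilbField finite_wr)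
open Pool.Agent.Y793 (AWr AltTw twProj regSol_iso)
open Pool.Agent.TH444.TW (RS RSK RegularOver regSol_of_regularOver)
open Pool.Agent.TH377.IG (SpecProp FP prFP spec_hilb spec_ratFunc)
open Pool.Agent.N600.ZQ (ReducesP RealizedP SameP reducesP_of FratCover exists_frat)
open Pool.Agent.N70.EP.Voc
open Voc

theorem occurs_iff (K X : Type) [Field K] [Group X] [Finite X] :
    Occurs K X ↔ IsRealizable K X := by
  constructor
  · rintro ⟨L, i1, i2, i3, i4, ⟨e⟩⟩
    exact isRealizable_of L e.symm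
  · intro h
    obtain ⟨L, i1, i2, i3, i4, ⟨e⟩⟩ := Pool.Agent.TH59.WX.exists_gal_of K X h
    exact ⟨L, i1, i2, i3, i4, ⟨e.symm⟩⟩

section voc

variable {p : ℕ} [Fact p.Prime]

theorem occursIf_of {X Y : Type} [Group X] [Finite X] [Group Y] [Finite Y]
    (h : ReducesP p Y X) : OccursIf p X Y := by
  refine ⟨fun k _ _ => ?_, fun K _ _ hK => ?_, fun K _ _ => h.2.2 K⟩
  · have : CharP (RatFunc k) p := Pool.Agent.Y60.DC.charP_ratFunc k p
    rw [occurs_iff, occurs_iff]
    exact h.2.1 (RatFunc k) (Pool.Agent.Y140.HD.hilb_ratFunc k)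
  · rw [occurs_iff, occurs_iff]
    exact h.2.1 K hK

theorem occursIff_of {X Y : Type} [Group X] [Finite X] [Group Y] [Finite Y]
    (h : SameP p X Y) : OccursIff p X Y := by
  refine ⟨fun k _ _ => ?_, fun K _ _ hK => ?_, fun K _ _ => h.2.2 K⟩
  · have : CharP (RatFunc k) p := Pool.Agent.Y60.DC.charP_ratFunc k p
    rw [occurs_iff, occurs_iff]
    exact h.2.1 (RatFunc k) (Pool.Agent.Y140.HD.hilb_ratFunc k)
  · rw [occurs_iff, occurs_iff]
    exact h.2.1 K hK

theorem occursAll_of {X : Type} [Group X] [Finite X] (h : RealizedP p X) : OccursAll p X := by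
  refine ⟨fun k _ _ => ?_, fun K _ _ hK => ?_, fun K _ _ => h.2.2 K⟩
  · have : CharP (RatFunc k) p := Pool.Agent.Y60.DC.charP_ratFunc k p
    rw [occurs_iff]
    exact h.2.1 (RatFunc k) (Pool.Agent.Y140.HD.hilb_ratFunc k)
  · rw [occurs_iff]
    exact h.2.1 K hK

theorem solvable_of_regSol {K L E : Type} [Field K] [Field L] [Algebra K L]
    [FiniteDimensional K L] [IsGalois K L] [Group E] [Finite E] {π : E →* (L ≃ₐ[K] L)}
    (h : RegSol K L E π) : Solvable π := by
  refine ⟨h, fun hK => ?_⟩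
  obtain ⟨F, j1, j2, j3, j4, j5, j6, j7, j8, γ', hγ', -⟩ := h
  exact spec_hilb hK L E π ⟨F, j1, j2, j3, j4, j5, j6, j7, j8, γ', hγ'⟩

theorem solvableAll_of {E W : Type} [Group E] [Finite E] [Group W] {π : E →* W}
    (h : RSK (ZMod p) π) : SolvableAll p π :=
  fun K L _ _ _ _ _ _ ε => solvable_of_regSol (reg_all h K L ε)

end voc

section tw

variable {B Γ : Type} [Group B] [Group Γ] (α : B →* Γ) (χ : Γ →* ℤˣ) (n : ℕ)

theorem twPow_eq : TwPow α χ n = AltTw α χ n := by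
  ext z
  constructor
  · rintro ⟨h1, h2⟩
    exact Subgroup.mem_inf.2 ⟨h1, h2⟩
  · intro h
    exact ⟨(Subgroup.mem_inf.1 h).1, (Subgroup.mem_inf.1 h).2⟩

/-- The identity. -/
def twE : TwPow α χ n ≃* AltTw α χ n := MulEquiv.subgroupCongr (twPow_eq α χ n)

theorem weak_of_over {K L E : Type} [Field K] [Field L] [Algebra K L] [FiniteDimensional K L]
    [IsGalois K L] [Group E] (π : E →* (L ≃ₐ[K] L)) (h : WeakSolutionOver π K) :
    WeakSol K L E π := by
  obtain ⟨M, i1, i2, i3, i4, i5, i6, i7, i8, s, hs⟩ := h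
  have h34 : i2 = i4 := Algebra.algebra_ext i2 i4 (fun x =>
    (@IsScalarTower.algebraMap_apply K K M _ _ _ _ i2 i4 i5 x).symm)
  subst h34
  refine ⟨M, i1, i2, i7, i8, i3, i6, s, fun ρ => ?_⟩
  ext x
  apply (algebraMap L M).injective
  rw [AlgEquiv.restrictNormal_commutes, ← hs]

theorem twPr_surj' (hα : Function.Surjective α) (hn : 2 ≤ n) :
    Function.Surjective (twPr α χ n) := by
  intro ρ
  obtain ⟨b, rfl⟩ := hα ρ
  obtain ⟨τ, hτ⟩ : ∃ τ : Equiv.Perm (Fin n), Equiv.Perm.sign τ = χ (α b) := by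
    rcases Int.units_eq_one_or (χ (α b)) with h | h
    · exact ⟨1, by rw [h]; exact map_one _⟩
    · refine ⟨Equiv.swap ⟨0, by omega⟩ ⟨1, by omega⟩, ?_⟩
      rw [h]
      exact Equiv.Perm.sign_swap (by simp)
  exact ⟨⟨(⟨fun _ => b, τ⟩, α b), ⟨fun _ => rfl, hτ⟩⟩, rfl⟩

end tw

section main

variable {p : ℕ} [Fact p.Prime] (hp2 : p ≠ 2) {B W : Type} [Group B] [Finite B] [Group W]
  [Finite W] (α : B →* W) (hα : Function.Surjective α) (hperf : commutator α.ker = ⊤)

include hp2 hα hperf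

/-- The general case. -/
theorem fib_one (n₀ : ℕ) : ∃ n ≥ n₀, OccursIff p (TwPow α 1 n) W ∧ SolvableAll p (twPr α 1 n) := by
  obtain ⟨n, hn, h⟩ := mainAu hyp p hp2 W B α hα hperf (n₀ + 2)
  have hf : Finite (Wr B n) := finite_wr B n
  have hf2 : Finite (TwPow α 1 n) := Finite.of_injective Subtype.val Subtype.val_injective
  have h1 : RSK (ZMod p) (twPr α 1 n) := RSK.congr h (twE α 1 n).symm (fun _ => rfl)
  exact ⟨n, by omega, occursIff_of (sameP_of_rsk (twPr α 1 n) (twPr_surj' α 1 n hα (by omega)) h1),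
    solvableAll_of h1⟩

/-- The characters. -/
theorem fib_all (r : ℕ) (hr : Odd r) (hr2 : ((72 * Nat.card α.ker + 2).factorial) ^ 3 ≤ r) :
    ∃ q₀ : ℕ, ∀ q ≥ q₀, q.Prime → 12 * r * p ∣ q + 1 → ∀ χ : W →* ℤˣ,
      (∀ D : Subgroup B, (∀ w : W, ∃ d ∈ D, α d = w) →
        OccursIf p (TwPow α χ (q + 6 * r * p + 1)) D) ∧
      (∀ (K L : Type) [Field K] [CharP K p] [Field L] [Algebra K L] [FiniteDimensional K L]
        [IsGalois K L] (ε : (L ≃ₐ[K] L) ≃* W),
        WeakSolutionOver (ε.symm.toMonoidHom.comp α) K →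
        Solvable (ε.symm.toMonoidHom.comp (twPr α χ (q + 6 * r * p + 1)))) ∧
      ((∃ s : W →* B, ∀ w, α (s w) = w) →
        OccursIff p (TwPow α χ (q + 6 * r * p + 1)) W ∧
        SolvableAll p (twPr α χ (q + 6 * r * p + 1))) := by
  obtain ⟨n₀, hn₀⟩ := fibP_main hyp hp2 B W α hperf r hr hr2
  refine ⟨n₀ + 2, fun q hq hqp hd χ => ?_⟩
  obtain ⟨n, hn⟩ : ∃ n, n = q + 6 * r * p + 1 := ⟨_, rfl⟩
  rw [← hn]
  have hdeg : Deg (6 * r * p) n := by
    refine ⟨q, hqp, by omega, ?_⟩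
    obtain ⟨c, hc⟩ := hd
    have h1 : n = 6 * r * p + (2 * (6 * r * p)) * c := by
      have h2 : 12 * r * p * c = (2 * (6 * r * p)) * c := by ring
      omega
    rw [h1, Nat.add_mul_mod_self_left, Nat.mod_eq_of_lt]
    have hp0 : 0 < p := (Fact.out : p.Prime).pos
    have hr0 : 0 < r := by
      obtain ⟨r', hr'⟩ := hr
      omega
    have h3 : 0 < 6 * r * p := by positivity
    omega
  have hF : FibP p α n := hn₀ n (by omega) hdeg
  have hf : Finite (Wr B n) := finite_wr B n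
  have hf2 : Finite (TwPow α χ n) := Finite.of_injective Subtype.val Subtype.val_injective
  have hf3 : Finite (AltTw α χ n) := inferInstance
  have hredE : ReducesP p (AltTw α χ n) (TwPow α χ n) :=
    reducesP_quot (twE α χ n).symm.toMonoidHom (twE α χ n).symm.surjective
  have h1 : ∀ D : Subgroup B, (∀ w : W, ∃ d ∈ D, α d = w) → ReducesP p D (TwPow α χ n) := by
    intro D hD
    have h2 := hF.red χ D (fun w => by
      obtain ⟨d, hd, hw⟩ := hD w
      exact ⟨⟨d, hd⟩, hw⟩)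
    exact ⟨fun κ _ _ _ h => hredE.1 κ (h2.1 κ h), fun K _ _ hK h => hredE.2.1 K hK (h2.2.1 K hK h),
      fun K _ _ h => hredE.2.2 K (h2.2.2 K h)⟩
  have h2 : ∀ (K L : Type) [Field K] [CharP K p] [Field L] [Algebra K L] [FiniteDimensional K L]
        [IsGalois K L] (ε : (L ≃ₐ[K] L) ≃* W),
        WeakSol K L B (ε.symm.toMonoidHom.comp α) →
        Solvable (ε.symm.toMonoidHom.comp (twPr α χ n)) := by
    intro K L _ _ _ _ _ _ ε hw
    have h3 := hF.weak χ K L ε hw
    exact solvable_of_regSol (regSol_iso K L _ _ _ _ (twE α χ n).symm (fun z => rfl) h3)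
  refine ⟨fun D hD => occursIf_of (h1 D hD), fun K L _ _ _ _ _ _ ε hw =>
    h2 K L ε (weak_of_over _ hw), ?_⟩
  rintro ⟨s, hs⟩
  constructor
  · apply occursIff_of
    refine sameP_of (reducesP_quot (twPr α χ n) (twPr_surj' α χ n hα (by omega))) ?_
    have h3 : ReducesP p W s.range := reducesP_quot s.rangeRestrict
      (MonoidHom.rangeRestrict_surjective s)
    have h4 := h1 s.range (fun w => ⟨s w, ⟨w, rfl⟩, hs w⟩)
    exact ⟨fun κ _ _ _ h => h4.1 κ (h3.1 κ h), fun K _ _ hK h => h4.2.1 K hK (h3.2.1 K hK h),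
      fun K _ _ h => h4.2.2 K (h3.2.2 K h)⟩
  · intro K L _ _ _ _ _ _ ε
    refine h2 K L ε ?_
    refine weak_of_split K L B _ (s.comp (ε : (L ≃ₐ[K] L) →* W)) (fun ρ => ?_)
    change ε.symm (α (s (ε ρ))) = ρ
    rw [hs, ε.symm_apply_apply]

end main

end Pool.Agent.N70.PP
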