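import Mathlib
import Pool.Agent.N70.PP.Kb
import Pool.Agent.N70.PP.VocB
import Pool.Agent.N555.PP.Gdp

/-!
Kernels in odd characteristic: complete groups, projective fields.
-/

set_option autoImplicit false
set_option linter.unusedSectionVars false
set_option linter.unusedSimpArgs false

namespace Pool.Agent.N70.PP

open Nfff32c05
open Pool.Agent.H391R2 (Wr isRealizable_of isRealizable_quotient)
open Pool.Agent.H391R2.T4 (RegSol WeakSol HilbField finite_wr)
open Pool.Agent.Y793 (AWr AltTw twProj regSol_iso)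
open Pool.Agent.TH59.WX (finite_of_kernel)
open Pool.Agent.TH444.TW (RS RSK RegularOver regSol_of_regularOver)
open Pool.Agent.N600.UK (CL reg_quot regularOver_of_regSol cl_of_center snd_rsk conj_inj Out cls)
open Pool.Agent.TH377.IG (SpecProp spec_hilb spec_ratFunc FP prFP)
open Pool.Agent.N600.ZQ (FratCover ReducesP RealizedP SameP reducesP_of realizedP_of pgroup_rsk
  rs_zgroup)
open Pool.Agent.N70.EP (pB FB exists_pull)

section complete

variable {p : ℕ} [Fact p.Prime]

/-- Complete groups. -/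
theorem good_completeP {T : Type} [Group T] [Finite T] (hC : CL T)
    (hI : ∀ a : MulAut T, ∃ g : T, a = MulAut.conj g)
    (hR : RegularOver (ZMod p) T) : GoodKerP p T := by
  intro K L X _ _ _ _ _ _ _ _ α hα ⟨e⟩
  let _ : Algebra (ZMod p) K := ZMod.algebra K p
  have hfinX : Finite X := finite_of_kernel α e.symm
  let ι : T ≃* α.ker := e.symm
  let c : X →* MulAut T := (MulAut.congr ι.symm).toMonoidHom.comp MulAut.conjNormal
  have hc : ∀ w : T, c (ι w) = MulAut.conj w := by
    intro w
    apply MulEquiv.ext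
    intro x
    change ι.symm (MulAut.conjNormal (ι w : X) (ι x)) = w * x * w⁻¹
    rw [MulEquiv.symm_apply_eq]
    apply Subtype.ext
    rw [MulAut.conjNormal_apply]
    simp only [map_mul, map_inv, Subgroup.coe_mul, Subgroup.coe_inv]
  have hconj : Function.Bijective (MulAut.conj : T →* MulAut T) :=
    ⟨conj_inj hC, fun a => by
      obtain ⟨g, hg⟩ := hI a
      exact ⟨g, hg.symm⟩⟩
  let E : T ≃* MulAut T := MulEquiv.ofBijective _ hconj
  let π : X →* T := E.symm.toMonoidHom.comp c
  have hπ : ∀ w : T, π (ι w : X) = w := by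
    intro w
    change E.symm (c (ι w)) = w
    rw [hc, MulEquiv.symm_apply_eq]
    rfl
  let r : X →* T × (L ≃ₐ[K] L) := π.prod α
  have hr : Function.Bijective r := by
    constructor
    · rw [injective_iff_map_eq_one]
      intro x hx
      have h1 : π x = 1 := congrArg Prod.fst hx
      have h2 : α x = 1 := congrArg Prod.snd hx
      obtain ⟨w, hw⟩ := ι.surjective ⟨x, h2⟩
      have h3 : (ι w : X) = x := congrArg Subtype.val hw
      rw [← h3, hπ] at h1
      rw [← h3, h1, map_one]
      rfl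
    · rintro ⟨p, ρ⟩
      obtain ⟨x₀, rfl⟩ := hα ρ
      refine ⟨(ι (p * (π x₀)⁻¹) : X) * x₀, ?_⟩
      refine Prod.ext ?_ ?_
      · change π _ = p
        rw [map_mul, hπ, inv_mul_cancel_right]
      · change α _ = α x₀
        rw [map_mul]
        have h1 : α (ι (p * (π x₀)⁻¹) : X) = 1 := (ι _).2
        rw [h1, one_mul]
  have hfinΓ : Finite (L ≃ₐ[K] L) := inferInstance
  have h2 : RegSol K L (T × (L ≃ₐ[K] L)) (MonoidHom.snd _ _) :=
    snd_rsk (ZMod p) T hR (L ≃ₐ[K] L) K L (MulEquiv.refl _)
  exact reg_quot α (MonoidHom.snd _ _) (MulEquiv.ofBijective r hr).symm.toMonoidHom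
    (MulEquiv.ofBijective r hr).symm.surjective (fun y => by
      obtain ⟨x, rfl⟩ := (MulEquiv.ofBijective r hr).surjective y
      change α ((MulEquiv.ofBijective r hr).symm (MulEquiv.ofBijective r hr x)) = (r x).2
      rw [MulEquiv.symm_apply_apply]
      rfl) h2

/-- Kernels in the class give regular steps. -/
theorem rsk_of_goodP {T : Type} [Group T] (h : GoodKerP p T) {X Y : Type} [Group X] [Group Y]
    (q : X →* Y) (hq : Function.Surjective q) (hι : Nonempty (q.ker ≃* T)) : RSK (ZMod p) q := by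
  intro K M _ _ _ _ _ _ _ ε
  have hcK : CharP K p := charP_of_injective_algebraMap (algebraMap (ZMod p) K).injective p
  have hker : (ε.symm.toMonoidHom.comp q).ker = q.ker := by
    ext x
    rw [MonoidHom.mem_ker, MonoidHom.mem_ker]
    change ε.symm (q x) = 1 ↔ _
    rw [map_eq_one_iff _ ε.symm.injective]
  exact h K M X _ (ε.symm.surjective.comp hq) (hι.map fun e =>
    (MulEquiv.subgroupCongr hker).trans e)

theorem goodP_iff_same {T : Type} [Group T] [Finite T] (h : GoodKerP p T) (X : Type) [Group X]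
    (N : Subgroup X) [N.Normal] (hN : Nonempty (N ≃* T)) (hfin : Finite (X ⧸ N))
    (P : Subgroup (X ⧸ N)) [P.Normal] (hP : IsPGroup p P) : SameP p X ((X ⧸ N) ⧸ P) := by
  have hfN : Finite N := by
    obtain ⟨e⟩ := hN
    exact Finite.of_equiv _ e.symm.toEquiv
  have hfX : Finite X := Finite.of_subgroup_quotient N
  have h1 : RSK (ZMod p) (QuotientGroup.mk' N) :=
    rsk_of_goodP h _ (QuotientGroup.mk'_surjective N)
      (hN.map fun e => (MulEquiv.subgroupCongr (QuotientGroup.ker_mk' N)).trans e)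
  have h2 : RSK (ZMod p) (QuotientGroup.mk' P) :=
    pgroup_rsk p (ZMod p) (QuotientGroup.mk' P) (QuotientGroup.mk'_surjective P) (by
      rw [QuotientGroup.ker_mk']
      exact hP)
  exact sameP_of_rsk ((QuotientGroup.mk' P).comp (QuotientGroup.mk' N))
    ((QuotientGroup.mk'_surjective P).comp (QuotientGroup.mk'_surjective N)) (RSK.comp h2 h1)

end complete

section proj

variable {p : ℕ} [Fact p.Prime] {G : Type} [Group G] [Finite G] [Nontrivial G]

/-- Projective fields. -/
theorem proj_main (hZ : ∀ z : G, (∀ g : G, z * g = g * z) → z = 1) {n : ℕ} (hn : GoodP p G n)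
    (K L X : Type) [Field K] [CharP K p] [Field L] [Algebra K L] [FiniteDimensional K L]
    [IsGalois K L] [Group X] [Finite X] (α : X →* (L ≃ₐ[K] L)) (hα : Function.Surjective α)
    (hι : Nonempty (α.ker ≃* AWr G n))
    (hK : ∀ (B : Type) [Group B] [Finite B] (β : B →* (L ≃ₐ[K] L)), Function.Surjective β →
      WeakSol K L B β) : RegSol K L X α := by
  have hfin : Finite (MulAut G) := Finite.of_injective (fun a : MulAut G => (a : G → G))
    DFunLike.coe_injective
  obtain ⟨o, χ, e, he⟩ := N891.EP.t_aut G hZ n hn.1 X (L ≃ₐ[K] L) α hα hι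
  have hfB : Finite (FB o) := inferInstance
  have hb : Function.Surjective (pB o) := by
    intro γ
    obtain ⟨θ, hθ⟩ := QuotientGroup.mk_surjective (o γ)
    exact ⟨⟨(θ, γ), hθ⟩, rfl⟩
  obtain ⟨M, i1, i2, i3, i4, i5, i6, s, hs⟩ := hK (FB o) (pB o) hb
  let res : (M ≃ₐ[K] M) →* (L ≃ₐ[K] L) := AlgEquiv.restrictNormalHom L
  have hres : Function.Surjective res := AlgEquiv.restrictNormalHom_surjective M
  let a : (M ≃ₐ[K] M) →* MulAut G :=
    (MonoidHom.fst (MulAut G) (L ≃ₐ[K] L)).comp ((FB o).subtype.comp s)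
  have ha : o.comp res = (cls G).comp a := by
    ext ρ
    have h1 : cls G (s ρ).1.1 = o (s ρ).1.2 := (s ρ).2
    have h2 : (s ρ).1.2 = ρ.restrictNormal L := hs ρ
    rw [h2] at h1
    exact h1.symm
  obtain ⟨e2, he2⟩ := exists_pull o res χ n
  have h1 : RSK (ZMod p) (twProj (pB (o.comp res)) (χ.comp res) n) := by
    rw [ha]
    exact hn.2 (M ≃ₐ[K] M) a (χ.comp res)
  have h2q : ∀ z, prFP (twProj (pB o) χ n) res (e2.symm z) =
      twProj (pB (o.comp res)) (χ.comp res) n z := by
    intro z
    rw [← he2 (e2.symm z)]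
    exact congrArg _ (e2.apply_symm_apply z)
  have h2 : RSK (ZMod p) (prFP (twProj (pB o) χ n) res) := RSK.congr h1 e2.symm h2q
  have hW : Finite (Wr (FB o) n) := finite_wr _ _
  have hfT : Finite (AltTw (pB o) χ n) := inferInstance
  have hfF : Finite (FP (twProj (pB o) χ n) res) := inferInstance
  have h3 := reg_all h2 K M (MulEquiv.refl _)
  have h4 : RegSol K L (AltTw (pB o) χ n) (twProj (pB o) χ n) := by
    refine Pool.Agent.W200.IJ.regSol_quot (L' := M) _ _
      ((MonoidHom.fst _ _).comp (FP (twProj (pB o) χ n) res).subtype) ?_ ?_ ?_ h3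
    · intro y
      obtain ⟨ρ, hρ⟩ := hres (twProj (pB o) χ n y)
      exact ⟨⟨(y, ρ), hρ.symm⟩, rfl⟩
    · intro u
      exact u.2
    · intro ρ hρ
      refine ⟨⟨(1, ρ), ?_⟩, rfl, rfl⟩
      change twProj (pB o) χ n 1 = ρ.restrictNormal L
      rw [hρ]
      exact map_one _
  exact regSol_iso K L _ _ _ _ e.symm (fun z => by
    obtain ⟨x, rfl⟩ := e.surjective z
    rw [e.symm_apply_apply, ← he]) h4

end proj

end Pool.Agent.N70.PP
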