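import Mathlib
import Pool.Agent.N70.EP.VocC
import Pool.Agent.N70.PP.Voc

/-!
# Vocabulary: kernels in characteristic `p`

`Pool.Agent.N70.EP.VocC` has the definitions `AltWreath` (the wreath product `G ≀ A_n`), `InnerAut`
(the group `Inn G`) and `Centreless` (nontrivial, finite, trivial centre).
-/

set_option autoImplicit false

namespace Pool.Agent.N70.PP.Voc

open Pool.Agent.N70.EP.Voc

/-- The numbers `n = q + 6 r p + 1`, `r` odd, `r ≥ ((72 |G| + 2)!) ^ 3`, `q ≥ κ G r` a prime,
`q ≡ -1` modulo `12 r p`. -/
def Numbers (κ : ∀ (G : Type) [Group G], ℕ → ℕ) (p : ℕ) (G : Type) [Group G] : Set ℕ :=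
  {n | ∃ r q : ℕ, Odd r ∧ ((72 * Nat.card G + 2).factorial) ^ 3 ≤ r ∧ κ G r ≤ q ∧ q.Prime ∧
    12 * r * p ∣ q + 1 ∧ n = q + 6 * r * p + 1}

/-- The smallest class of groups which
* contains `G ≀ A_n` for every nontrivial finite perfect group `G` with trivial centre such that
  `Inn G` has a complement in `Aut G` and every `n` in `Numbers κ p G`,
* contains `G ≀ S_n` for every nontrivial finite group `G` with trivial centre such that `Inn G` has a
  complement in `Aut G` and every `n ≥ ((3 |G| + 2)!) ^ 3`,
* contains the finite groups with trivial centre all of whose automorphisms are inner which occur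
  regularly over `F_p`,
* contains `T ≀ S_n` if it contains the nontrivial group `T` and `n ≥ 2 (|T| + 2)`,
* is closed under finite direct products, direct factors, isomorphisms and characteristic extensions
  (it contains `T` if it contains `C` and `T / C` for a characteristic subgroup `C` of `T`). -/
inductive Kernels (κ : ∀ (G : Type) [Group G], ℕ → ℕ) (p : ℕ) [Fact p.Prime] :
    ∀ (T : Type) [Group T], Prop
  | alternating (G : Type) [Group G] (hG : Centreless G) (hP : commutator G = ⊤)
      (hC : ∃ C : Subgroup (MulAut G), IsCompl C (InnerAut G)) (n : ℕ) (hn : n ∈ Numbers κ p G) :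
      Kernels κ p (AltWreath G n)
  | symmetric (G : Type) [Group G] (hG : Centreless G)
      (hC : ∃ C : Subgroup (MulAut G), IsCompl C (InnerAut G)) (n : ℕ)
      (hn : ((3 * Nat.card G + 2).factorial) ^ 3 ≤ n) : Kernels κ p (Wreath G n)
  | complete (T : Type) [Group T] [Finite T] (hZ : Subgroup.center T = ⊥)
      (hI : ∀ a : MulAut T, ∃ g : T, a = MulAut.conj g) (hR : OccursRegularly (ZMod p) T) :
      Kernels κ p T
  | power (T : Type) [Group T] [Nontrivial T] (h : Kernels κ p T) (n : ℕ)
      (hn : 2 * (Nat.card T + 2) ≤ n) : Kernels κ p (Wreath T n)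
  | prod (I : Type) [Finite I] (T : I → Type) [∀ i, Group (T i)] (h : ∀ i, Kernels κ p (T i)) :
      Kernels κ p (∀ i, T i)
  | factor (S T : Type) [Group S] [Group T] (h : Kernels κ p (S × T)) : Kernels κ p S
  | extension (T : Type) [Group T] (C : Subgroup T) [C.Characteristic] (h : Kernels κ p C)
      (h' : Kernels κ p (T ⧸ C)) : Kernels κ p T
  | iso (T T' : Type) [Group T] [Group T'] (e : T ≃* T') (h : Kernels κ p T) : Kernels κ p T'

/-- The theorem for the kernel `T`: if `X` is a group with a normal subgroup `N ≃ T` with finite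
quotient and `P` a normal `p`-subgroup of `X / N` (for example the trivial one), then `X` and
`(X / N) / P` occur over the same fields; and all embedding problems with kernel `T` over fields of
characteristic `p` are solvable. -/
def KernelTheorem (p : ℕ) (T : Type) [Group T] : Prop :=
  (∀ (X : Type) [Group X] (N : Subgroup X) [N.Normal], Nonempty (N ≃* T) → Finite (X ⧸ N) →
    ∀ (P : Subgroup (X ⧸ N)) [P.Normal], IsPGroup p P → OccursIff p X ((X ⧸ N) ⧸ P)) ∧
  (∀ (K L X : Type) [Field K] [CharP K p] [Field L] [Algebra K L] [FiniteDimensional K L]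
    [IsGalois K L] [Group X] (α : X →* (L ≃ₐ[K] L)), Function.Surjective α →
    Nonempty (α.ker ≃* T) → Solvable α)

/-- `π` is a Frattini cover: it is surjective and its kernel is contained in the Frattini subgroup,
the intersection of the maximal subgroups. -/
def FrattiniCover {Q Y : Type} [Group Q] [Group Y] (π : Q →* Y) : Prop :=
  Function.Surjective π ∧ π.ker ≤ frattini Q

/-- The reduction of `X` to a Frattini cover `Q` of `Y`. -/
def CoverTheorem (p : ℕ) (G X Y : Type) [Group X] [Group Y] : Prop :=
  ∃ (Q : Type) (_ : Group Q) (_ : Finite Q) (π : Q →* Y), FrattiniCover π ∧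
    Group.IsNilpotent π.ker ∧ ¬ p ∣ Nat.card π.ker ∧ Nat.card π.ker ∣ Nat.card G ∧
    (∀ l : ℕ, l.Prime → l ∣ Nat.card π.ker → l ∣ Nat.card Y) ∧
    (Group.IsSolvable Y → Group.IsSolvable Q) ∧ OccursIf p X Q

/-- The theorem on extensions `X` of `Y`. -/
def QuotientTheorem (p : ℕ) (G X Y : Type) [Group X] [Group Y] : Prop :=
  CoverTheorem p G X Y ∧
  (Group.IsSolvable Y → ∀ (k : Type) [Field k] [CharP k p],
    SolvableOccur (RatFunc k) → Occurs (RatFunc k) X) ∧
  ((∀ l : ℕ, l.Prime → l ≠ p → l ∣ Nat.card Y → ¬ l ∣ Nat.card G) → OccursIff p X Y) ∧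
  (IsZGroup Y → OccursAll p X)

/-- All finite embedding problems over `K` have weak solutions: the absolute Galois group of `K` is
projective (for example `K` a finite field). -/
def ProjectiveField (K : Type) [Field K] : Prop :=
  ∀ (L B : Type) [Field L] [Algebra K L] [FiniteDimensional K L] [IsGalois K L] [Group B]
    [Finite B] (α : B →* (L ≃ₐ[K] L)), Function.Surjective α → WeakSolutionOver α K

/-- All embedding problems with kernel `T` over fields of characteristic `p` with projective absolute
Galois group are solvable. -/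
def ProjectiveTheorem (p : ℕ) (T : Type) [Group T] : Prop :=
  ∀ (K L X : Type) [Field K] [CharP K p] [Field L] [Algebra K L] [FiniteDimensional K L]
    [IsGalois K L] [Group X] (α : X →* (L ≃ₐ[K] L)), ProjectiveField K → Function.Surjective α →
    Nonempty (α.ker ≃* T) → Solvable α

/-- The theorem for an arbitrary perfect group `G` with trivial centre and `T = G ≀ A_n`. -/
def GeneralTheorem (p : ℕ) (G T : Type) [Group T] : Prop :=
  (∀ (X : Type) [Group X] (N : Subgroup X) [N.Normal], Nonempty (N ≃* T) → Finite (X ⧸ N) →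
    ∀ (P : Subgroup (X ⧸ N)) [P.Normal], IsPGroup p P → QuotientTheorem p G X ((X ⧸ N) ⧸ P)) ∧
  ProjectiveTheorem p T

end Pool.Agent.N70.PP.Voc
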