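import Mathlib
import Pool.Agent.N70.PP.VocK
import Pool.Agent.N70.PP.Ks
import Pool.Agent.N600.UK.Main
import Pool.Agent.N478.EP.Cmp

/-!
The theorems on kernels in odd characteristic.
-/

set_option autoImplicit false
set_option linter.unusedSectionVars false
set_option linter.unusedSimpArgs false

namespace Pool.Agent.N70.PP

open Nfff32c05
open Pool.Agent.H391R2 (Wr)
open Pool.Agent.H391R2.T4 (RegSol WeakSol HilbField finite_wr)
open Pool.Agent.Y793 (AWr AltTw twProj regSol_iso)
open Pool.Agent.TH59.WX (finite_of_kernel)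
open Pool.Agent.TH444.TW (RSK RegularOver)
open Pool.Agent.N600.UK (CL cl_of_center cl_iso)
open Pool.Agent.N600.ZQ (ReducesP RealizedP SameP FratCover)
open Pool.Agent.N70.EP.Voc
open Voc

section deg

theorem deg_of {r p q : ℕ} (hp : 0 < p) (hr : Odd r) (hq : q.Prime) (hd : 12 * r * p ∣ q + 1) :
    Deg (6 * r * p) (q + 6 * r * p + 1) := by
  refine ⟨q, hq, by omega, ?_⟩
  obtain ⟨c, hc⟩ := hd
  have h1 : q + 6 * r * p + 1 = 6 * r * p + (2 * (6 * r * p)) * c := by
    have h2 : 12 * r * p * c = (2 * (6 * r * p)) * c := by ring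
    omega
  rw [h1, Nat.add_mul_mod_self_left, Nat.mod_eq_of_lt]
  have hr0 : 0 < r := by
    obtain ⟨r', hr'⟩ := hr
    omega
  have h3 : 0 < 6 * r * p := by positivity
  omega

theorem bound_le {g r p q : ℕ} (hp : 0 < p) (hr : ((72 * g + 2).factorial) ^ 3 ≤ r) (hg : 0 < g) :
    2 * (g + 4) ≤ q + 6 * r * p + 1 := by
  have h1 : 72 * g + 2 ≤ (72 * g + 2).factorial := Nat.self_le_factorial _
  have h2 : (72 * g + 2).factorial ^ 1 ≤ (72 * g + 2).factorial ^ 3 :=
    Nat.pow_le_pow_right (Nat.factorial_pos _) (by omega)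
  rw [pow_one] at h2
  have h3 : 6 * r * 1 ≤ 6 * r * p := Nat.mul_le_mul_left _ hp
  omega

end deg

section main

variable (p : ℕ) [Fact p.Prime] (hp2 : p ≠ 2)

include hp2 in
/-- The bounds. -/
theorem exists_kappa : ∃ κ : (∀ (G : Type) [Group G], ℕ → ℕ), ∀ (G : Type) [Group G],
    Centreless G → commutator G = ⊤ → ∀ n ∈ Numbers κ p G, GoodP p G n := by
  have h1 : ∀ (G : Type) [Group G] (r : ℕ), ∃ k₀ : ℕ, Centreless G → commutator G = ⊤ → Odd r →
      ((72 * Nat.card G + 2).factorial) ^ 3 ≤ r → ∀ n ≥ k₀, Deg (6 * r * p) n →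
      ∀ (Γ : Type) [Group Γ] [Finite Γ] (a : Γ →* MulAut G) (χ : Γ →* ℤˣ),
        RSK (ZMod p) (twProj (N70.EP.pB ((Pool.Agent.N600.UK.cls G).comp a)) χ n) := by
    intro G _ r
    by_cases h : Centreless G ∧ commutator G = ⊤ ∧ Odd r ∧
        ((72 * Nat.card G + 2).factorial) ^ 3 ≤ r
    · obtain ⟨hG, hP, hr, hr'⟩ := h
      have h2 := hG.finite
      obtain ⟨k₀, hk₀⟩ := rsk_kerA G hyp p hp2 (cl_of_center hG.center) hP r hr hr'
      exact ⟨k₀, fun _ _ _ _ => hk₀⟩
    · exact ⟨0, fun a b c d => absurd ⟨a, b, c, d⟩ h⟩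
  choose κ hκ using h1
  refine ⟨κ, fun G _ hG hP n hn => ?_⟩
  obtain ⟨r, q, hr, hr', hq, hqp, hd, rfl⟩ := hn
  have h2 := hG.finite
  have hp0 : 0 < p := (Fact.out : p.Prime).pos
  exact ⟨bound_le hp0 hr' Nat.card_pos, hκ G r hG hP hr hr' _ (by omega) (deg_of hp0 hr hqp hd)⟩

variable {p}

/-- The groups of the class. -/
theorem kernels_main (κ : ∀ (G : Type) [Group G], ℕ → ℕ)
    (hκ : ∀ (G : Type) [Group G], Centreless G → commutator G = ⊤ →
      ∀ n ∈ Numbers κ p G, GoodP p G n) (T : Type) [Group T]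
    (hT : Kernels κ p T) : Finite T ∧ CL T ∧ GoodKerP p T := by
  have gd : St_gdp p := N555.PP.t_gdp p
  induction hT with
  | alternating G hG hP hC n hn =>
    have h2 := hG.finite
    have h3 := hG.nontrivial
    have h4 : Finite (Wr G n) := finite_wr G n
    refine ⟨Finite.of_injective Subtype.val Subtype.val_injective, ?_, ?_⟩
    · have hn1 := (hκ G hG hP n hn).1
      intro z hz
      exact N478.EP.triv_of_comm (cl_of_center hG.center) z (fun k g => hz (N891.EP.sg k g))
    · intro K L X _ _ _ _ _ _ _ _ α hα hι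
      have hf4 : Finite (AltWreath G n) := Finite.of_injective Subtype.val Subtype.val_injective
      have hfX : Finite X := finite_of_kernel α hι.some.symm
      have h5 := GoodP.compl (cl_of_center hG.center) hC (hκ G hG hP n hn) α hα hι
      exact reg_all h5 K L (MulEquiv.refl _)
  | symmetric G hG hC n hn =>
    have h2 := hG.finite
    have h3 := hG.nontrivial
    obtain ⟨h4, h5, h6⟩ := (N600.UK.Univ.wreath G hG.center hC n hn).main
    refine ⟨h4, h5, ?_⟩
    intro K L X _ _ _ _ _ _ _ _ α hα hι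
    exact h6 K L X α hα hι
  | complete T hZ hI hR =>
    exact ⟨inferInstance, cl_of_center hZ, good_completeP (cl_of_center hZ) hI hR⟩
  | power T h n hn ih =>
    obtain ⟨h1, h2, h3⟩ := ih
    exact ⟨finite_wr T n, fun x hx => N600.UK.center_wr h2 x hx, gd.wr T h2 h3 n hn⟩
  | prod I T h ih =>
    have h1 : ∀ i, Finite (T i) := fun i => (ih i).1
    refine ⟨inferInstance, ?_, gd.pi I T (fun i => (ih i).2.1) (fun i => (ih i).2.2)⟩
    intro z hz
    classical
    funext i
    refine (ih i).2.1 _ fun g => ?_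
    have h2 := congrFun (hz (Pi.mulSingle i g)) i
    rw [Pi.mul_apply, Pi.mul_apply, Pi.mulSingle_eq_same] at h2
    exact h2
  | factor A B h ih =>
    obtain ⟨h1, h2, h3⟩ := ih
    refine ⟨Finite.of_injective (fun a : A => (a, (1 : B))) (fun a b hab => congrArg Prod.fst hab),
      ?_, gd.factor A B h3⟩
    intro z hz
    have h4 : ((z, 1) : A × B) = 1 := by
      apply h2
      rintro ⟨a, b⟩
      refine Prod.ext (hz a) ?_
      change 1 * b = b * 1
      rw [one_mul, mul_one]
    exact congrArg Prod.fst h4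
  | extension T C h h' ih ih' =>
    obtain ⟨h1, h2, h3⟩ := ih
    obtain ⟨h4, h5, h6⟩ := ih'
    have hfin : Finite T := Finite.of_subgroup_quotient C
    refine ⟨hfin, ?_, gd.char T C h3 h6⟩
    intro z hz
    have h7 : (QuotientGroup.mk' C z) = 1 := by
      apply h5
      intro g
      obtain ⟨g, rfl⟩ := QuotientGroup.mk'_surjective C g
      rw [← map_mul, hz g, map_mul]
    rw [QuotientGroup.mk'_apply, QuotientGroup.eq_one_iff] at h7
    have h8 : (⟨z, h7⟩ : C) = 1 := by
      apply h2
      intro g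
      exact Subtype.ext (hz g)
    exact congrArg Subtype.val h8
  | iso T T' e h ih =>
    obtain ⟨h1, h2, h3⟩ := ih
    exact ⟨Finite.of_equiv _ e.toEquiv, cl_iso e h2, gd.iso T T' e h3⟩

theorem kernelTheorem_of {T : Type} [Group T] (hfin : Finite T) (h : GoodKerP p T) :
    KernelTheorem p T := by
  refine ⟨fun X _ N _ hN hq P _ hP => ?_, fun K L X _ _ _ _ _ _ _ α hα hι => ?_⟩
  · have hfN : Finite N := by
      obtain ⟨e⟩ := hN
      exact Finite.of_equiv _ e.symm.toEquiv
    have hfX : Finite X := Finite.of_subgroup_quotient N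
    exact occursIff_of (goodP_iff_same h X N hN hq P hP)
  · have hfX : Finite X := finite_of_kernel α hι.some.symm
    have h1 : RSK (ZMod p) α := rsk_of_goodP h α hα hι
    exact solvable_of_regSol (reg_all h1 K L (MulEquiv.refl _))

theorem generalTheorem_of (G : Type) [Group G] (hG : Centreless G) (n : ℕ) (hn : GoodP p G n) :
    GeneralTheorem p G (AltWreath G n) := by
  have h2 := hG.finite
  have h3 := hG.nontrivial
  have h4 : Finite (Wr G n) := finite_wr G n
  have hf4 : Finite (AltWreath G n) := Finite.of_injective Subtype.val Subtype.val_injective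
  have hZ := cl_of_center hG.center
  refine ⟨fun X _ N _ hN hq P _ hP => ?_, fun K L X _ _ _ _ _ _ _ α hK hα hι => ?_⟩
  · have hfX : Finite X := finX X N hN hq
    have hfY : Finite ((X ⧸ N) ⧸ P) := inferInstance
    obtain ⟨Q, i1, i2, π, h5, h6, h7, h8, h9, h10⟩ := frat_main hZ hn X N hN hq P hP
    refine ⟨⟨Q, i1, i2, π, h5, h6, h7, h8, h9, h5.solvable, occursIf_of h10⟩, ?_, ?_, ?_⟩
    · intro hs k _ _ hk
      exact (occursIf_of h10).1 k (hk Q (h5.solvable hs))
    · intro hcop
      exact occursIff_of (cop_main hZ hn X N hN hq P hP hcop)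
    · intro hz
      exact occursAll_of (z_main hZ hn X N hN hq P hP)
  · have hfX : Finite X := finite_of_kernel α hι.some.symm
    exact solvable_of_regSol (proj_main hZ hn K L X α hα hι (fun B _ _ β hβ =>
      weak_of_over β (hK L B β hβ)))

end main

end Pool.Agent.N70.PP
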