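import Mathlib
import Pool.Agent.N70.PP.VocKB
import Pool.Agent.N600.NS.TwoA

/-!
Symmetric fibre powers in characteristic `p`.
-/

set_option autoImplicit false
set_option linter.unusedSectionVars false
set_option linter.unusedSimpArgs false

namespace Pool.Agent.N70.PP

open Nfff32c05
open Pool.Agent.H391R2 (Wr isRealizable_of isRealizable_quotient)
open Pool.Agent.H391R2.T4 (RegSol WeakSol HilbField finite_wr SymEP symProj)
open Pool.Agent.Y793 (regSol_iso)
open Pool.Agent.TH59.WX (reg_sym_unif)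
open Pool.Agent.TH444.TW (RS RSK RegularOver)
open Pool.Agent.TH377.IG (FP prFP)
open Pool.Agent.N600.ZQ (FratCover exists_frat ReducesP RealizedP SameP reducesP_of realizedP_of
  pgroup_rsk rs_zgroup)
open Pool.Agent.N600.NS (sym_split)
open Pool.Agent.N70.EP.Voc
open Voc

section grp

variable {B W : Type} [Group B] [Group W] (A : B →* W) (n : ℕ)

/-- Transport of the symmetric fibre powers. -/
def symTrans {W' : Type} [Group W'] (e : W' ≃* W) :
    SymEP ((e.symm : W →* W').comp A) n ≃* SymEP A n where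
  toFun z := ⟨(z.1.1, e z.1.2), fun i => by
    have h1 : e.symm (A (z.1.1.left i)) = z.1.2 := z.2 i
    change A (z.1.1.left i) = e z.1.2
    rw [← h1, e.apply_symm_apply]⟩
  invFun z := ⟨(z.1.1, e.symm z.1.2), fun i => by
    have h1 : A (z.1.1.left i) = z.1.2 := z.2 i
    change e.symm (A (z.1.1.left i)) = e.symm z.1.2
    rw [h1]⟩
  left_inv z := Subtype.ext (Prod.ext rfl (e.symm_apply_apply _))
  right_inv z := Subtype.ext (Prod.ext rfl (e.apply_symm_apply _))
  map_mul' z w := Subtype.ext (Prod.ext rfl (map_mul e _ _))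

variable (D : Subgroup B)

/-- The map of the symmetric fibre powers. -/
def syQ : SymEP (prFP A (aD A D)) n →* SymEP A n where
  toFun z := ⟨(Pool.Agent.H391R2.V.wmap n (fstD A D) z.1.1, aD A D z.1.2), fun i => by
      have h1 : (z.1.1.left i).1.2 = z.1.2 := z.2 i
      have h2 : A (z.1.1.left i).1.1 = aD A D (z.1.1.left i).1.2 := (z.1.1.left i).2
      rw [h1] at h2
      exact h2⟩
  map_one' := by
    apply Subtype.ext
    refine Prod.ext ?_ ?_
    · exact map_one (Pool.Agent.H391R2.V.wmap n (fstD A D))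
    · exact map_one (aD A D)
  map_mul' z w := by
    apply Subtype.ext
    refine Prod.ext ?_ ?_
    · exact map_mul (Pool.Agent.H391R2.V.wmap n (fstD A D)) _ _
    · exact map_mul (aD A D) _ _

theorem syQ_surj (hD : Function.Surjective (aD A D)) : Function.Surjective (syQ A n D) := by
  rintro ⟨⟨y, w⟩, hy⟩
  obtain ⟨d, hd⟩ := hD w
  subst hd
  have hy1 : ∀ i, A (y.left i) = aD A D d := hy
  refine ⟨⟨(⟨fun i => ⟨(y.left i, d), hy1 i⟩, y.right⟩, d), fun i => rfl⟩, ?_⟩
  apply Subtype.ext
  refine Prod.ext ?_ rfl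
  apply SemidirectProduct.ext
  · funext i
    rfl
  · rfl

theorem symProj_surj (hA : Function.Surjective A) : Function.Surjective (symProj A n) := by
  intro w
  obtain ⟨b, rfl⟩ := hA w
  exact ⟨⟨(⟨fun _ => b, 1⟩, A b), fun _ => rfl⟩, rfl⟩

end grp

section rs

variable {B W : Type} [Group B] [Finite B] [Group W] [Finite W]

/-- Symmetric fibre powers of split problems. -/
theorem rs_split (a : B →* W) (s : W →* B) (hs : ∀ w, a (s w) = w) (n : ℕ)
    (hn : ((3 * Nat.card a.ker + 2).factorial) ^ 3 ≤ n) : RS (symProj a n) := by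
  intro K M _ _ _ _ _ _ ε
  have hk : ((ε.symm : W →* (M ≃ₐ[K] M)).comp a).ker = a.ker := by
    ext x
    rw [MonoidHom.mem_ker, MonoidHom.mem_ker]
    change ε.symm (a x) = 1 ↔ _
    rw [map_eq_one_iff _ ε.symm.injective]
  have hw : WeakSol K M B ((ε.symm : W →* (M ≃ₐ[K] M)).comp a) :=
    weak_of_split K M B _ (s.comp (ε : (M ≃ₐ[K] M) →* W)) (fun ρ => by
      change ε.symm (a (s (ε ρ))) = ρ
      rw [hs, ε.symm_apply_apply])
  have h1 := reg_sym_unif K M B ((ε.symm : W →* (M ≃ₐ[K] M)).comp a) hw n (by rw [hk]; exact hn)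
  refine regSol_iso K M _ _ _ _ (symTrans a n ε) (fun z => ?_) h1
  exact ε.symm_apply_apply _

variable (p : ℕ) [Fact p.Prime] (A : B →* W) (n : ℕ)
  (hn : ((3 * Nat.card A.ker + 2).factorial) ^ 3 ≤ n)

include hn

theorem rs_D (D : Subgroup B) : RS (symProj (prFP A (aD A D)) n) := by
  obtain ⟨e⟩ := kerD A D
  have hfF : Finite (FP A (aD A D)) := inferInstance
  refine rs_split (prFP A (aD A D))
    { toFun := fun d => ⟨((d : B), d), rfl⟩
      map_one' := rfl
      map_mul' := fun _ _ => rfl } (fun d => rfl) n ?_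
  rw [← Nat.card_congr e.toEquiv]
  exact hn

theorem sy_red (D : Subgroup B) (hD : Function.Surjective (aD A D)) :
    ReducesP p D (SymEP A n) := by
  have hfF : Finite (FP A (aD A D)) := inferInstance
  have hW : Finite (Wr (FP A (aD A D)) n) := finite_wr _ _
  have hW2 : Finite (Wr B n) := finite_wr _ _
  have hf1 : Finite (SymEP (prFP A (aD A D)) n) := inferInstance
  have hf2 : Finite (SymEP A n) := inferInstance
  exact reducesP_of (symProj (prFP A (aD A D)) n) (fun K _ _ => (rs_D A n hn D).rsk)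
    (syQ A n D) (syQ_surj A n D hD)

/-- The data for the quotient theorem. -/
theorem sy_data (hA : Function.Surjective A) (P : Subgroup W) [P.Normal] (hP : IsPGroup p P) :
    ∃ (V Q : Type) (_ : Group V) (_ : Finite V) (_ : Group Q) (_ : Finite Q)
      (π : Q →* W ⧸ P) (r : V →* Q) (q : V →* SymEP A n), FratCover π ∧ ¬ p ∣ Nat.card π.ker ∧
        Nat.card π.ker ∣ Nat.card A.ker ∧
        (∀ (K : Type) [Field K] [CharP K p], RSK K r) ∧ Function.Surjective q := by
  obtain ⟨D, hD⟩ := exists_frat A hA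
  have hfF : Finite (FP A (aD A D)) := inferInstance
  have hW : Finite (Wr (FP A (aD A D)) n) := finite_wr _ _
  have hf1 : Finite (SymEP (prFP A (aD A D)) n) := inferInstance
  have hD' : FratCover (aD A D) := hD
  obtain ⟨S, hS, π₁, hSp, hfr₁, hnd, hdvd⟩ := hD'.pquot p P hP
  refine ⟨SymEP (prFP A (aD A D)) n, D ⧸ S, inferInstance, hf1, inferInstance, inferInstance, π₁,
    (QuotientGroup.mk' S).comp (symProj (prFP A (aD A D)) n), syQ A n D, hfr₁, hnd,
    hdvd.trans ?_, ?_, syQ_surj A n D hD'.1⟩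
  · let u : (aD A D).ker →* A.ker :=
      (D.subtype.comp (aD A D).ker.subtype).codRestrict _ (fun y => y.2)
    refine Subgroup.card_dvd_of_injective u (fun y z hyz => ?_)
    apply Subtype.ext
    apply Subtype.ext
    exact congrArg (fun w : A.ker => (w : B)) hyz
  · intro K _ _
    refine RSK.comp (pgroup_rsk p K (QuotientGroup.mk' S) (QuotientGroup.mk'_surjective S) ?_)
      (rs_D A n hn D).rsk
    rw [QuotientGroup.ker_mk']
    exact hSp

end rs

section quot

variable {p : ℕ} [Fact p.Prime] {G X Y : Type} [Group X] [Finite X] [Group Y] [Finite Y]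

/-- The quotient theorem from the data. -/
theorem quotientTheorem_of (hXY : ∃ f : X →* Y, Function.Surjective f)
    (h : ∃ (V Q : Type) (_ : Group V) (_ : Finite V) (_ : Group Q) (_ : Finite Q)
      (π : Q →* Y) (r : V →* Q) (q : V →* X), FratCover π ∧ ¬ p ∣ Nat.card π.ker ∧
        Nat.card π.ker ∣ Nat.card G ∧
        (∀ (K : Type) [Field K] [CharP K p], RSK K r) ∧ Function.Surjective q) :
    QuotientTheorem p G X Y := by
  obtain ⟨f, hf⟩ := hXY
  obtain ⟨V, Q, iV, fV, iQ, fQ, π, r, q, h1, h2, h3, h4, h5⟩ := h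
  have h6 : ReducesP p Q X := reducesP_of r h4 q h5
  have h7 : ∀ l : ℕ, l.Prime → l ∣ Nat.card π.ker → l ∣ Nat.card Y := fun l hl hlk =>
    h1.prime l hl (hlk.trans (Subgroup.card_subgroup_dvd_card _))
  refine ⟨⟨Q, iQ, fQ, π, h1, h1.ker_nilpotent, h2, h3, h7, h1.solvable, occursIf_of h6⟩, ?_, ?_, ?_⟩
  · intro hs k _ _ hk
    exact (occursIf_of h6).1 k (hk Q (h1.solvable hs))
  · intro hcop
    have hone : Nat.card π.ker = 1 := by
      by_contra hne
      obtain ⟨l, hl, hlk⟩ := Nat.exists_prime_and_dvd hne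
      refine hcop l hl ?_ (h7 l hl hlk) (hlk.trans h3)
      rintro rfl
      exact h2 hlk
    have hbot : π.ker = ⊥ := Subgroup.card_eq_one.1 hone
    let E : Q ≃* Y := MulEquiv.ofBijective π ⟨(MonoidHom.ker_eq_bot_iff π).1 hbot, h1.1⟩
    have h8 : ReducesP p Y Q := reducesP_quot E.symm.toMonoidHom E.symm.surjective
    refine occursIff_of (sameP_of (reducesP_quot f hf) ?_)
    exact ⟨fun κ _ _ _ h => h6.1 κ (h8.1 κ h), fun K _ _ hK h => h6.2.1 K hK (h8.2.1 K hK h),
      fun K _ _ h => h6.2.2 K (h8.2.2 K h)⟩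
  · intro hz
    have hz' : IsZGroup Q := h1.zgroup
    refine occursAll_of (realizedP_of fun K _ _ => ?_)
    exact RSK.quot q h5 (fun y => rfl) (RSK.comp (rs_zgroup Q).rsk (h4 K))

end quot

section final

variable (p : ℕ) [Fact p.Prime] {B W : Type} [Group B] [Finite B] [Group W] [Finite W]
  (A : B →* W) (hA : Function.Surjective A)

include hA

theorem sy_main (n : ℕ) (hn : ((3 * Nat.card A.ker + 2).factorial) ^ 3 ≤ n) :
    (∀ D : Subgroup B, (∀ w : W, ∃ d ∈ D, A d = w) → OccursIf p (SymEP A n) D) ∧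
    (∀ (P : Subgroup W) [P.Normal], IsPGroup p P →
      QuotientTheorem p A.ker (SymEP A n) (W ⧸ P)) := by
  have hW2 : Finite (Wr B n) := finite_wr _ _
  have hf2 : Finite (SymEP A n) := inferInstance
  refine ⟨fun D hD => occursIf_of (sy_red p A n hn D (fun w => ?_)), fun P _ hP => ?_⟩
  · obtain ⟨d, hd, hw⟩ := hD w
    exact ⟨⟨d, hd⟩, hw⟩
  · exact quotientTheorem_of ⟨(QuotientGroup.mk' P).comp (symProj A n),
      (QuotientGroup.mk'_surjective P).comp (symProj_surj A n hA)⟩ (sy_data p A n hn hA P hP)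

theorem sy_two (m n : ℕ) (hm : Nat.card W ∣ m)
    (hn : ((3 * Nat.card (symProj A m).ker + 2).factorial) ^ 3 ≤ n) :
    OccursIff p (SymEP (symProj A m) n) W ∧ SolvableAll p (symProj (symProj A m) n) := by
  obtain ⟨s, hs⟩ := sym_split A hA m hm
  have h1 : Finite (Wr B m) := finite_wr B m
  have h2 : Finite (SymEP A m) := inferInstance
  have h3 : Finite (Wr (SymEP A m) n) := finite_wr _ n
  have h4 : Finite (SymEP (symProj A m) n) := inferInstance
  have h5 : RSK (ZMod p) (symProj (symProj A m) n) := (rs_split (symProj A m) s hs n hn).rsk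
  exact ⟨occursIff_of (sameP_of_rsk _ (symProj_surj _ n (symProj_surj A m hA)) h5),
    solvableAll_of h5⟩

end final

end Pool.Agent.N70.PP
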