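import Mathlib
import Pool.Agent.N70.ES.MlFin
import Pool.Agent.N70.PP.Sy
import Pool.Agent.N600.NS.Stm

/-!
Data for Malle's conjecture: symmetric fibre powers.
-/

set_option autoImplicit false
set_option linter.unusedSectionVars false
set_option linter.unusedSimpArgs false

namespace Pool.Agent.N70.PP

open Nfff32c05
open Pool.Agent.H391R2 (Wr isRealizable_of isRealizable_quotient)
open Pool.Agent.H391R2.T4 (RegSol WeakSol HilbField hilb_numberField finite_wr SymEP symProj)
open Pool.Agent.TH59.WX (exists_gal_of hil_of_reg)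
open Pool.Agent.TH377.IG (FP prFP)
open Pool.Agent.N624.ES.TD (act exists_even bound)
open Pool.Agent.N600.ZQ (reduces_of_rs)
open Pool.Agent.N600.NS (uniform_main)

section

variable {W B : Type} [Group W] [Group B] (a : B →* W) {n : ℕ}

/-- The element of a permutation. -/
def evS (σ : Equiv.Perm (Fin n)) : SymEP a n := ⟨(⟨1, σ⟩, 1), fun _ => map_one a⟩

theorem core_botS [Finite B] (hn : 0 < n) : ∃ U : Subgroup (SymEP a n), U.normalCore = ⊥ ∧
    U.index ≤ Nat.card B * n := by
  letI iA : MulAction (Wr B n) (B × Fin n) := act B n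
  letI iP : MulAction (SymEP a n) (B × Fin n) :=
    MulAction.compHom (B × Fin n) ((MonoidHom.fst (Wr B n) W).comp (SymEP a n).subtype)
  let i₀ : Fin n := ⟨0, hn⟩
  have hdef : ∀ (w : SymEP a n) (x : B × Fin n),
      w • x = (w.1.1.left (w.1.1.right x.2) * x.1, w.1.1.right x.2) := fun _ _ => rfl
  refine ⟨MulAction.stabilizer (SymEP a n) ((1 : B), i₀), ?_, ?_⟩
  · rw [eq_bot_iff]
    intro x hx
    have hfix : ∀ i : Fin n, x • ((1 : B), i) = ((1 : B), i) := by
      intro i
      have h3 : evS a (Equiv.swap i₀ i) • ((1 : B), i₀) = ((1 : B), i) := by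
        rw [hdef]
        change ((1 : Fin n → B) (Equiv.swap i₀ i i₀) * 1, Equiv.swap i₀ i i₀) = ((1 : B), i)
        rw [Equiv.swap_apply_left]
        simp
      have h4 : (evS a (Equiv.swap i₀ i))⁻¹ * x * evS a (Equiv.swap i₀ i) ∈
          MulAction.stabilizer (SymEP a n) ((1 : B), i₀) := by
        have := hx (evS a (Equiv.swap i₀ i))⁻¹
        rw [inv_inv] at this
        exact this
      rw [MulAction.mem_stabilizer_iff, mul_smul, mul_smul, inv_smul_eq_iff, h3] at h4
      exact h4
    have hr : x.1.1.right = 1 := by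
      ext i
      have := congrArg (fun z : B × Fin n => (z.2 : ℕ)) (hfix i)
      simpa [hdef] using this
    have hl : ∀ i, x.1.1.left i = 1 := by
      intro i
      have := congrArg Prod.fst (hfix i)
      rw [hdef] at this
      simp only [hr, Equiv.Perm.one_apply, mul_one] at this
      exact this
    have h2 : x.1.2 = 1 := by
      have h := x.2 i₀
      rw [hl i₀, map_one] at h
      exact h.symm
    rw [Subgroup.mem_bot]
    apply Subtype.ext
    refine Prod.ext ?_ h2
    exact SemidirectProduct.ext (funext hl) hr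
  · rw [MulAction.index_stabilizer]
    refine (Set.ncard_le_ncard (Set.subset_univ _) Set.finite_univ).trans ?_
    rw [Set.ncard_univ, Nat.card_prod, Nat.card_fin]

theorem card_geS [Finite W] [Finite B] : n.factorial ≤ Nat.card (SymEP a n) := by
  have hf : Finite (Wr B n) := finite_wr B n
  have h1 : Nat.card (Equiv.Perm (Fin n)) ≤ Nat.card (SymEP a n) := by
    refine Nat.card_le_card_of_injective (fun σ : Equiv.Perm (Fin n) => evS a σ) ?_
    intro σ τ h
    exact congrArg (fun z : SymEP a n => z.1.1.right) h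
  rwa [Nat.card_perm, Nat.card_fin] at h1

theorem sym_mlData [Finite W] [Finite B] (hn : Nat.card B ^ 2 + 10 ≤ n) :
    Pool.Agent.N70.ES.MlData (SymEP a n) := by
  have hf : Finite (Wr B n) := finite_wr B n
  have hB : 1 ≤ Nat.card B := Nat.card_pos
  have h1 := card_geS a (n := n)
  have h2 := bound hB hn
  have h3 : 10 ≤ Nat.card B * n := by nlinarith
  refine ⟨inferInstance, by nlinarith, ?_⟩
  obtain ⟨U, hU, hi⟩ := core_botS a (n := n) (by omega)
  refine ⟨U, hU, ?_⟩
  have h4 : 8 * U.index * (U.index + 1) ≤ 8 * (Nat.card B * n) * (Nat.card B * n + 1) := by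
    gcongr
  omega

end

section

variable {W B : Type} [Group W] [Finite W] [Group B] [Finite B] (A : B →* W)
  (hA : Function.Surjective A)

/-- Realizations of subgroups `D` with `A(D) = W`. -/
theorem sy_real0 (n : ℕ) (hn : ((3 * Nat.card A.ker + 2).factorial) ^ 3 ≤ n) (D : Subgroup B)
    (hD : ∀ w : W, ∃ d ∈ D, A d = w) (K : Type) [Field K] [NumberField K]
    (h : IsRealizable K D) : IsRealizable K (SymEP A n) := by
  have hfF : Finite (FP A (aD A D)) := inferInstance
  have hW : Finite (Wr (FP A (aD A D)) n) := finite_wr _ _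
  have hW2 : Finite (Wr B n) := finite_wr _ _
  have hf1 : Finite (SymEP (prFP A (aD A D)) n) := inferInstance
  have hf2 : Finite (SymEP A n) := inferInstance
  have hD' : Function.Surjective (aD A D) := fun w => by
    obtain ⟨d, hd, hw⟩ := hD w
    exact ⟨⟨d, hd⟩, hw⟩
  exact (reduces_of_rs (symProj (prFP A (aD A D)) n) (rs_D A n hn D) (syQ A n D)
    (syQ_surj A n D hD')).1 K h

include hA in
/-- Realizations of `W`. -/
theorem sy_real1 (n : ℕ) (hn : ((3 * Nat.card B + 2).factorial) ^ 3 ≤ n) (hd : Nat.card W ∣ n)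
    (K : Type) [Field K] [NumberField K] (h : IsRealizable K W) :
    IsRealizable K (SymEP A n) := by
  have hW2 : Finite (Wr B n) := finite_wr _ _
  have hf2 : Finite (SymEP A n) := inferInstance
  obtain ⟨L, i1, i2, i3, i4, ⟨f⟩⟩ := exists_gal_of K W h
  have h1 := uniform_main K L B ((f.symm.symm : W →* (L ≃ₐ[K] L)).comp A)
    (f.surjective.comp hA) n hn (by rw [← Nat.card_congr f.toEquiv]; exact hd)
  have hf3 : Finite (SymEP ((f.symm.symm : W →* (L ≃ₐ[K] L)).comp A) n) := inferInstance
  obtain ⟨F, j1, j2, j3, j4, j5, j6, γ, -⟩ := hil_of_reg K L _ (hilb_numberField K) _ h1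
  exact isRealizable_of F (γ.trans (symTrans A n f.symm)).symm

end

end Pool.Agent.N70.PP
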