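import Mathlib
import Pool.Agent.N70.PP.MlS
import Pool.Agent.N70.EP.VocQB

/-!
Data for Malle's conjecture: symmetric fibre powers, in the vocabulary of the statements.
-/

set_option autoImplicit false

namespace Pool.Agent.N70.PP

open Pool.Agent.H391R2.T4 (SymEP symProj finite_wr)
open Pool.Agent.H391R2 (Wr)
open Pool.Agent.N70.EP.Voc (Realizable)
open Pool.Agent.N70.EP (realizable_iff)
open Pool.Agent.N70.ES (MlData)
open Pool.Agent.Y793 (gal_of_real)

variable {W B : Type} [Group W] [Finite W] [Group B] [Finite B] (A : B →* W)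

theorem malle_D (n : ℕ) (hn : ((3 * Nat.card A.ker + 2).factorial) ^ 3 ≤ n)
    (hn2 : Nat.card B ^ 2 + 10 ≤ n) (D : Subgroup B) (hD : ∀ w : W, ∃ d ∈ D, A d = w) :
    MlData (SymEP A n) ∧ ∀ (K : Type) [Field K] [NumberField K], Realizable K D →
      (TH444.ML.Gal K (AlgebraicClosure K) (SymEP A n)).Nonempty := by
  have hd := sym_mlData A hn2
  have h1 := hd.finite
  refine ⟨hd, fun K _ _ hK => gal_of_real K (AlgebraicClosure K) _ ?_⟩
  exact (realizable_iff K _).2 (sy_real0 A n hn D hD K ((realizable_iff K D).1 hK))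

theorem malle_W (hA : Function.Surjective A) (n : ℕ)
    (hn : ((3 * Nat.card B + 2).factorial) ^ 3 ≤ n) (hd : Nat.card W ∣ n) :
    MlData (SymEP A n) ∧ ∀ (K : Type) [Field K] [NumberField K], Realizable K W →
      (TH444.ML.Gal K (AlgebraicClosure K) (SymEP A n)).Nonempty := by
  have hn2 : Nat.card B ^ 2 + 10 ≤ n := by
    refine le_trans ?_ hn
    have h1 : 3 * Nat.card B + 2 ≤ (3 * Nat.card B + 2).factorial := Nat.self_le_factorial _
    have h2 : (3 * Nat.card B + 2) ^ 3 ≤ ((3 * Nat.card B + 2).factorial) ^ 3 :=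
      Nat.pow_le_pow_left h1 3
    have h3 : 0 < Nat.card B := Nat.card_pos
    nlinarith [h2, h3, sq_nonneg (Nat.card B)]
  have hd' := sym_mlData A hn2
  have h1 := hd'.finite
  refine ⟨hd', fun K _ _ hK => gal_of_real K (AlgebraicClosure K) _ ?_⟩
  exact (realizable_iff K _).2 (sy_real1 A hA n hn hd K ((realizable_iff K W).1 hK))

end Pool.Agent.N70.PP
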