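import Mathlib
import Pool.Agent.N600.UK.Main

/-!
# Closure properties of the class of kernels in characteristic `p`: statement
-/

set_option autoImplicit false

namespace Pool.Agent.N70.PP

open Pool.Agent.H391R2 (Wr)
open Pool.Agent.H391R2.T4 (RegSol)
open Pool.Agent.N600.UK (CL)

/-- All embedding problems with kernel `T` over infinite fields of characteristic `p` have regular
solutions. -/
def GoodKerP (p : ℕ) (T : Type) [Group T] : Prop :=
  ∀ (K L X : Type) [Field K] [CharP K p] [Infinite K] [Field L] [Algebra K L]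
    [FiniteDimensional K L] [IsGalois K L] [Group X] (α : X →* (L ≃ₐ[K] L)), Function.Surjective α →
    Nonempty (α.ker ≃* T) → RegSol K L X α

/-- GDP: closure properties. -/
structure St_gdp (p : ℕ) [Fact p.Prime] : Prop where
  iso : ∀ (T T' : Type) [Group T] [Group T'] (_ : T ≃* T'), GoodKerP p T → GoodKerP p T'
  factor : ∀ (A B : Type) [Group A] [Group B], GoodKerP p (A × B) → GoodKerP p A
  char : ∀ (T : Type) [Group T] [Finite T] (C : Subgroup T) [C.Characteristic], GoodKerP p C →
    GoodKerP p (T ⧸ C) → GoodKerP p T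
  pi : ∀ (I : Type) [Finite I] (T : I → Type) [∀ i, Group (T i)] [∀ i, Finite (T i)],
    (∀ i, CL (T i)) → (∀ i, GoodKerP p (T i)) → GoodKerP p (∀ i, T i)
  wr : ∀ (T : Type) [Group T] [Finite T] [Nontrivial T], CL T → GoodKerP p T →
    ∀ n : ℕ, 2 * (Nat.card T + 2) ≤ n → GoodKerP p (Wr T n)

end Pool.Agent.N70.PP
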